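import Pool.Agent.P.MP_ea05a2_co.LocalB

/-!
Small facts used in both ranges of the number of colours.
-/

namespace Pool.Agent.P.MP_ea05a2_co

open Finset

open Classical in
/-- the rainbow free colourings of `G` -/
noncomputable def RFS {V : Type} [Fintype V] [DecidableEq V] (α : Type) [Fintype α]
    (G : SimpleGraph V) : Finset (Sym2 V → Option α) :=
  univ.filter fun χ => RF χ ∧ OnG G χ

lemma mem_RFS {V α : Type} [Fintype V] [DecidableEq V] [Fintype α] {G : SimpleGraph V}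
    {χ : Sym2 V → Option α} : χ ∈ RFS α G ↔ RF χ ∧ OnG G χ := by
  simp [RFS]

lemma inj6 {α : Type*} {a b c d e f : α} (h : [a, b, c, d, e, f].Nodup) :
    Function.Injective ![a, b, c, d, e, f] := by
  rw [← List.nodup_ofFn]
  simpa [List.ofFn_succ] using h

lemma RF.elim {V α : Type*} {χ : Sym2 V → Option α} (h : RF χ) {a b x y : V}
    {c1 c2 c3 c4 c5 c6 : α} (hn : [c1, c2, c3, c4, c5, c6].Nodup)
    (h1 : χ s(a, b) = some c1) (h2 : χ s(a, x) = some c2) (h3 : χ s(a, y) = some c3)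
    (h4 : χ s(b, x) = some c4) (h5 : χ s(b, y) = some c5) (h6 : χ s(x, y) = some c6) :
    False := by
  refine h a b x y _ (inj6 hn) fun i => ?_
  fin_cases i
  exacts [h1, h2, h3, h4, h5, h6]

lemma RF_of_five {V α : Type*} {χ : Sym2 V → Option α} (S : Finset α) (hS : S.card ≤ 5)
    (h : ∀ e c, χ e = some c → c ∈ S) : RF χ := by
  intro a b x y col hc hall
  have := Finset.card_le_card_of_injOn (s := (univ : Finset (Fin 6))) (t := S) col
    (fun i _ => h _ _ (hall i)) hc.injOn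
  simp at this
  omega

lemma rainbow_of_Q {V α : Type*} {T : Sym2 V → Finset (Option α)} {m : ℝ}
    {χ : Sym2 V → Option α} (hQ : QT T m χ) (hR : RF χ) (v : V) (A1 A2 A3 : Finset V)
    {c1 c2 c3 d1 d2 d3 : α} (hn : [c1, c2, c3, d1, d2, d3].Nodup)
    (m1 : m ≤ A1.card) (m2 : m ≤ A2.card) (m3 : m ≤ A3.card)
    (h1 : ∀ x ∈ A1, χ s(v, x) = some c1) (h2 : ∀ x ∈ A2, χ s(v, x) = some c2)
    (h3 : ∀ x ∈ A3, χ s(v, x) = some c3)
    (a1 : ∀ x ∈ A1, ∀ y ∈ A2, x ≠ y → some d1 ∈ T s(x, y))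
    (a2 : ∀ x ∈ A1, ∀ y ∈ A3, x ≠ y → some d2 ∈ T s(x, y))
    (a3 : ∀ x ∈ A2, ∀ y ∈ A3, x ≠ y → some d3 ∈ T s(x, y)) : False := by
  have hn' := hn
  simp only [List.nodup_cons, List.mem_cons, not_or] at hn'
  have n12 : ∀ x ∈ A1, ∀ y ∈ A2, x ≠ y := by
    rintro x hx y hy rfl
    exact hn'.1.1 (Option.some.inj ((h1 x hx).symm.trans (h2 x hy)))
  have n13 : ∀ x ∈ A1, ∀ y ∈ A3, x ≠ y := by
    rintro x hx y hy rfl
    exact hn'.1.2.1 (Option.some.inj ((h1 x hx).symm.trans (h3 x hy)))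
  have n23 : ∀ x ∈ A2, ∀ y ∈ A3, x ≠ y := by
    rintro x hx y hy rfl
    exact hn'.2.1.1 (Option.some.inj ((h2 x hx).symm.trans (h3 x hy)))
  obtain ⟨x, hx, y, hy, z, hz, e1, e2, e3⟩ := hQ A1 A2 A3
    (Finset.disjoint_left.2 fun x hx hy => n12 x hx x hy rfl)
    (Finset.disjoint_left.2 fun x hx hy => n13 x hx x hy rfl)
    (Finset.disjoint_left.2 fun x hx hy => n23 x hx x hy rfl) m1 m2 m3 _ _ _
    (fun x hx y hy => a1 x hx y hy (n12 x hx y hy))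
    (fun x hx y hy => a2 x hx y hy (n13 x hx y hy))
    (fun x hx y hy => a3 x hx y hy (n23 x hx y hy))
  exact hR.elim hn (h1 x hx) (h2 y hy) (h3 z hz) e1 e2 e3

lemma edge_ok {V α : Type*} {T : Sym2 V → Finset (Option α)} {m m' : ℝ} (hm : m ≤ m')
    {χ : Sym2 V → Option α} (hQ : QT T m χ) (hR : RF χ) (W : Fin 3 → Finset V) (a b : V)
    (j1 j2 j3 : Fin 3) (d12 : Disjoint (W j1) (W j2)) (d13 : Disjoint (W j1) (W j3))
    (d23 : Disjoint (W j2) (W j3)) (m3 : m ≤ (W j3).card)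
    {c0 p1 p2 p3 p4 p5 : α} (hn : [c0, p1, p2, p3, p4, p5].Nodup) (h0 : χ s(a, b) = some c0)
    (b1 : ∀ x ∈ W j1, x ≠ a → x ≠ b → some p1 ∈ T s(a, x) ∧ some p3 ∈ T s(b, x))
    (b2 : ∀ x ∈ W j2, x ≠ a → x ≠ b → some p2 ∈ T s(a, x) ∧ some p4 ∈ T s(b, x))
    (a1 : ∀ x ∈ W j1, ∀ y ∈ W j2, some p5 ∈ T s(x, y))
    (a2 : ∀ x ∈ W j1, ∀ y ∈ W j3, some p5 ∈ T s(x, y))
    (a3 : ∀ x ∈ W j2, ∀ y ∈ W j3, some p5 ∈ T s(x, y)) :
    ∃ w, EdgeOK T W m' χ a (b, w) := by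
  classical
  by_contra hc
  push Not at hc
  have k1 := hc (j1, some p1, some p3)
  have k2 := hc (j2, some p2, some p4)
  simp only [EdgeOK, not_and, not_le] at k1 k2
  have k1' := k1 b1
  have k2' := k2 b2
  rw [← card_filter_ind] at k1' k2'
  obtain ⟨x, hx, y, hy, z, hz, e1, -, -⟩ := hQ _ _ (W j3)
    (Finset.disjoint_filter_filter d12)
    (Finset.disjoint_of_subset_left (Finset.filter_subset _ _) d13)
    (Finset.disjoint_of_subset_left (Finset.filter_subset _ _) d23)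
    (hm.trans k1'.le) (hm.trans k2'.le) m3 (some p5) (some p5) (some p5)
    (fun x hx y hy => a1 x (Finset.mem_filter.1 hx).1 y (Finset.mem_filter.1 hy).1)
    (fun x hx y hy => a2 x (Finset.mem_filter.1 hx).1 y hy)
    (fun x hx y hy => a3 x (Finset.mem_filter.1 hx).1 y hy)
  obtain ⟨-, x1, x2⟩ := Finset.mem_filter.1 hx
  obtain ⟨-, y1, y2⟩ := Finset.mem_filter.1 hy
  exact hR.elim hn h0 x1 y1 x2 y2 e1

lemma exp_lZ {V C : Type*} [Fintype V] [DecidableEq V] (T : Sym2 V → Finset C)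
    (hT : ∀ e, (T e).Nonempty) : Real.exp (lZ T) = (Fintype.piFinset T).card := by
  rw [Fintype.card_piFinset, lZ, Real.exp_sum]
  push_cast
  exact Finset.prod_congr rfl fun e _ =>
    Real.exp_log (by exact_mod_cast (hT e).card_pos)

lemma exists_five {α : Type*} (S : Finset α) (h : 5 ≤ S.card) :
    ∃ p1 ∈ S, ∃ p2 ∈ S, ∃ p3 ∈ S, ∃ p4 ∈ S, ∃ p5 ∈ S, [p1, p2, p3, p4, p5].Nodup := by
  obtain ⟨x, hx, hxS⟩ := exists_enum S h
  refine ⟨x 0, hxS _, x 1, hxS _, x 2, hxS _, x 3, hxS _, x 4, hxS _, ?_⟩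
  simp [hx.eq_iff]

lemma exists_three {α : Type*} (S : Finset α) (h : 3 ≤ S.card) :
    ∃ p1 ∈ S, ∃ p2 ∈ S, ∃ p3 ∈ S, [p1, p2, p3].Nodup := by
  obtain ⟨x, hx, hxS⟩ := exists_enum S h
  refine ⟨x 0, hxS _, x 1, hxS _, x 2, hxS _, ?_⟩
  simp [hx.eq_iff]

lemma exists_le_avg2 {V : Type*} [Fintype V] [Nonempty V] (h : V → V → ℝ) (c : ℝ)
    (hc : ∑ x, ∑ y, h x y ≤ c * (Fintype.card V : ℝ) ^ 2) : ∃ x y, h x y ≤ c := by
  by_contra hn
  push Not at hn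
  have : ∑ _x : V, ∑ _y : V, c < ∑ x, ∑ y, h x y :=
    Finset.sum_lt_sum_of_nonempty Finset.univ_nonempty fun x _ =>
      Finset.sum_lt_sum_of_nonempty Finset.univ_nonempty fun y _ => hn x y
  simp only [Finset.sum_const, Finset.card_univ, nsmul_eq_mul] at this
  nlinarith

lemma S4_ab {V : Type*} [Fintype V] (φ : V → V → ℝ) :
    S4 (fun a b _ _ => φ a b) = (Fintype.card V : ℝ) ^ 2 * ∑ u, ∑ v, φ u v := by
  simp only [S4, Finset.sum_const, Finset.card_univ, nsmul_eq_mul, ← Finset.mul_sum]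
  ring
lemma S4_ax {V : Type*} [Fintype V] (φ : V → V → ℝ) :
    S4 (fun a _ x _ => φ a x) = (Fintype.card V : ℝ) ^ 2 * ∑ u, ∑ v, φ u v := by
  simp only [S4, Finset.sum_const, Finset.card_univ, nsmul_eq_mul, ← Finset.mul_sum]
  ring
lemma S4_ay {V : Type*} [Fintype V] (φ : V → V → ℝ) :
    S4 (fun a _ _ y => φ a y) = (Fintype.card V : ℝ) ^ 2 * ∑ u, ∑ v, φ u v := by
  simp only [S4, Finset.sum_const, Finset.card_univ, nsmul_eq_mul, ← Finset.mul_sum]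
  ring
lemma S4_bx {V : Type*} [Fintype V] (φ : V → V → ℝ) :
    S4 (fun _ b x _ => φ b x) = (Fintype.card V : ℝ) ^ 2 * ∑ u, ∑ v, φ u v := by
  simp only [S4, Finset.sum_const, Finset.card_univ, nsmul_eq_mul, ← Finset.mul_sum]
  ring
lemma S4_by {V : Type*} [Fintype V] (φ : V → V → ℝ) :
    S4 (fun _ b _ y => φ b y) = (Fintype.card V : ℝ) ^ 2 * ∑ u, ∑ v, φ u v := by
  simp only [S4, Finset.sum_const, Finset.card_univ, nsmul_eq_mul, ← Finset.mul_sum]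
  ring
lemma S4_xy {V : Type*} [Fintype V] (φ : V → V → ℝ) :
    S4 (fun _ _ x y => φ x y) = (Fintype.card V : ℝ) ^ 2 * ∑ u, ∑ v, φ u v := by
  simp only [S4, Finset.sum_const, Finset.card_univ, nsmul_eq_mul, ← Finset.mul_sum]
  ring

/-- colours that are rare at a vertex contribute few pairs -/
lemma rare_le {V α : Type*} [Fintype V] [Fintype α] (χ : V → Option α) (P : V → Prop) (m : ℝ)
    (hm : 0 ≤ m) (Λ : Finset α) (hΛ : ∀ c, c ∉ Λ → ∑ u, ind (P u ∧ χ u = some c) ≤ m) :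
    ∑ u, ind (P u ∧ ∃ c, χ u = some c ∧ c ∉ Λ) ≤ Fintype.card α * m := by
  calc ∑ u, ind (P u ∧ ∃ c, χ u = some c ∧ c ∉ Λ)
      ≤ ∑ u, ∑ c, ind (c ∉ Λ) * ind (P u ∧ χ u = some c) := by
        refine Finset.sum_le_sum fun u _ => ?_
        simp only [← ind_and]
        refine le_trans (ind_mono ?_) (ind_exists_le _)
        rintro ⟨h1, c, h2, h3⟩
        exact ⟨c, h3, h1, h2⟩
    _ = ∑ c, ind (c ∉ Λ) * ∑ u, ind (P u ∧ χ u = some c) := by
        rw [Finset.sum_comm]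
        simp only [Finset.mul_sum]
    _ ≤ ∑ _c : α, m := by
        refine Finset.sum_le_sum fun c _ => ?_
        by_cases hc : c ∉ Λ
        · rw [ind_pos hc, one_mul]
          exact hΛ c hc
        · rw [ind_neg hc, zero_mul]
          exact hm
    _ = _ := by simp

lemma quad_large (a b c : ℝ) (ha : 0 < a) (hb : 0 ≤ b) (hc : 0 ≤ c) :
    ∃ n0 : ℕ, ∀ n : ℕ, n0 ≤ n → b * n + c ≤ a * (n : ℝ) ^ 2 := by
  obtain ⟨n0, hn0⟩ := exists_nat_ge ((b + c) / a + 1)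
  refine ⟨n0, fun n hn => ?_⟩
  have hnn : (b + c) / a + 1 ≤ (n : ℝ) := hn0.trans (by exact_mod_cast hn)
  have hn1 : (1 : ℝ) ≤ n := by
    have : 0 ≤ (b + c) / a := by positivity
    linarith
  have hn2 : b + c ≤ n * a := by
    have : (b + c) / a ≤ (n : ℝ) := by linarith
    rwa [div_le_iff₀ ha] at this
  have e1 := mul_le_mul_of_nonneg_right hn2 (show (0 : ℝ) ≤ n by linarith)
  have e2 : c ≤ c * n := le_mul_of_one_le_right hc hn1
  nlinarith

end Pool.Agent.P.MP_ea05a2_co
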