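import Pool.Agent.P.MP_ea05a2_co.Reg

/-!
Containers for rainbow free colourings and the resulting rough count.
-/

namespace Pool.Agent.P.MP_ea05a2_co

open Finset

/-- no four vertices whose six pairs carry six distinct genuine colours -/
def RF {V α : Type*} (χ : Sym2 V → Option α) : Prop :=
  ∀ (a b x y : V) (col : Fin 6 → α), Function.Injective col →
    ¬ ∀ i, χ (six a b x y i) = some (col i)

/-- exactly the edges of `G` are coloured -/
def OnG {V α : Type*} (G : SimpleGraph V) (χ : Sym2 V → Option α) : Prop :=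
  ∀ e, χ e = none ↔ e ∉ G.edgeSet

/-- number of ordered pairs whose colour is not in the list -/
noncomputable def exc {V α : Type*} [Fintype V] (χ : Sym2 V → Option α)
    (L : Sym2 V → Finset α) : ℝ :=
  ∑ u, ∑ v, ind (∃ c, χ s(u, v) = some c ∧ c ∉ L s(u, v))

/-- `L` is an approximate container of `χ` supported on `G` -/
def Approx {V α : Type*} [Fintype V] (ε : ℝ) (G : SimpleGraph V) (χ : Sym2 V → Option α)
    (L : Sym2 V → Finset α) : Prop :=
  (∀ e, e ∉ G.edgeSet → L e = ∅) ∧ exc χ L ≤ ε * (Fintype.card V : ℝ) ^ 2 ∧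
    nS L ≤ ε * (Fintype.card V : ℝ) ^ 4

lemma ind_exists_le {β : Type*} [Fintype β] (p : β → Prop) : ind (∃ c, p c) ≤ ∑ c, ind (p c) := by
  by_cases h : ∃ c, p c
  · obtain ⟨c, hc⟩ := h
    have := Finset.single_le_sum (f := fun c => ind (p c)) (fun c _ => ind_nonneg _)
      (Finset.mem_univ c)
    rw [ind_pos hc] at this
    exact (ind_le_one _).trans this
  · rw [ind_neg h]
    exact Finset.sum_nonneg fun c _ => ind_nonneg _

lemma S4_sum {V β : Type*} [Fintype V] (s : Finset β) (F : β → V → V → V → V → ℝ) :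
    S4 (fun a b x y => ∑ c ∈ s, F c a b x y) = ∑ c ∈ s, S4 (F c) := by
  classical
  induction s using Finset.induction_on with
  | empty => simp [S4]
  | insert c s hc ih =>
    simp only [Finset.sum_insert hc]
    rw [S4_add, ih]

lemma S4_mul {V : Type*} [Fintype V] (r : ℝ) (F : V → V → V → V → ℝ) :
    S4 (fun a b x y => r * F a b x y) = r * S4 F := by
  simp only [S4, Finset.mul_sum]

lemma container (α : Type) [Fintype α] (ε : ℝ) (hε : 0 < ε) : ∃ K' : ℕ,
    ∀ (V : Type) [Fintype V] (χ : Sym2 V → Option α), RF χ →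
      ∃ (π : V → Fin K') (Λ : Sym2 (Fin K') → Finset α),
        exc χ (fun e => Λ (Sym2.map π e)) ≤ ε * (Fintype.card V : ℝ) ^ 2 ∧
        nS (fun e => Λ (Sym2.map π e)) ≤ ε * (Fintype.card V : ℝ) ^ 4 := by
  classical
  set s : ℝ := (Fintype.card α : ℝ) with hs
  have hs0 : 0 ≤ s := by positivity
  set θ : ℝ := ε / (s + 1) with hθ
  have hθ0 : 0 < θ := by positivity
  set η : ℝ := ε * θ ^ 6 / (6 * (s + 1) ^ 6) with hη
  have hη0 : 0 < η := by positivity
  obtain ⟨K', hK'⟩ := weak_reg_cut (α := α) η hη0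
  refine ⟨K', fun V _ χ hχ => ?_⟩
  set f : α → Sym2 V → ℝ := fun c e => ind (χ e = some c) with hf
  obtain ⟨π, hπ, hcut⟩ := hK' V f (fun c e => ind_nonneg _) (fun c e => ind_le_one _)
  set n : ℝ := (Fintype.card V : ℝ) with hn
  refine ⟨fun v => ⟨π v, hπ v⟩, fun z => univ.filter fun c =>
    θ ≤ cavg (cellOf π) (onPairs (f c)) (Sym2.map Fin.val z), ?_, ?_⟩
  · unfold exc
    simp only [Sym2.map_mk, Finset.mem_filter, Finset.mem_univ, true_and]
    have e1 : ∀ c, ∑ u, ∑ v, ind (χ s(u, v) = some c ∧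
        ¬ θ ≤ cavg (cellOf π) (onPairs (f c)) s(π u, π v)) ≤ θ * n ^ 2 := by
      intro c
      have key := cavg_orth (cellOf π) (onPairs (f c))
        (fun ω => ind (¬ θ ≤ cavg (cellOf π) (onPairs (f c)) (cellOf π ω)))
        (fun ω ω' h => by simp only [h])
      calc ∑ u, ∑ v, ind (χ s(u, v) = some c ∧
            ¬ θ ≤ cavg (cellOf π) (onPairs (f c)) s(π u, π v))
          = ∑ ω : V × V, onPairs (f c) ω *
            ind (¬ θ ≤ cavg (cellOf π) (onPairs (f c)) (cellOf π ω)) := by
            rw [Fintype.sum_prod_type]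
            exact Finset.sum_congr rfl fun u _ => Finset.sum_congr rfl fun v _ => ind_and _ _
        _ = _ := key.symm
        _ ≤ ∑ _ω : V × V, θ := by
            refine Finset.sum_le_sum fun ω _ => ?_
            by_cases h : θ ≤ cavg (cellOf π) (onPairs (f c)) (cellOf π ω)
            · rw [ind_neg (not_not.2 h), mul_zero]
              exact hθ0.le
            · rw [ind_pos h, mul_one]
              exact (not_le.1 h).le
        _ = θ * n ^ 2 := by
            simp [hn]
            ring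
    calc _ ≤ ∑ u, ∑ v, ∑ c, ind (χ s(u, v) = some c ∧
            ¬ θ ≤ cavg (cellOf π) (onPairs (f c)) s(π u, π v)) :=
          Finset.sum_le_sum fun u _ => Finset.sum_le_sum fun v _ => ind_exists_le _
      _ = ∑ c, ∑ u, ∑ v, ind (χ s(u, v) = some c ∧
            ¬ θ ≤ cavg (cellOf π) (onPairs (f c)) s(π u, π v)) := by
          rw [Finset.sum_congr rfl fun u _ => Finset.sum_comm, Finset.sum_comm]
      _ ≤ ∑ _c : α, θ * n ^ 2 := Finset.sum_le_sum fun c _ => e1 c
      _ = s * θ * n ^ 2 := by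
          simp [hs]
          ring
      _ ≤ ε * n ^ 2 := by
          refine mul_le_mul_of_nonneg_right ?_ (sq_nonneg _)
          rw [hθ, mul_div_assoc', div_le_iff₀ (by positivity)]
          nlinarith
  · have hmap : ∀ e : Sym2 V, Sym2.map Fin.val (Sym2.map (fun v => (⟨π v, hπ v⟩ : Fin K')) e)
        = Sym2.map π e := by
      intro e
      induction e using Sym2.ind with
      | _ a b => rfl
    simp only [hmap]
    have hg : ∀ c e, U01 (stepf π (f c) e) := fun c e =>
      ⟨cavg_nonneg _ (fun ω => ind_nonneg _) _, cavg_le_one _ (fun ω => ind_le_one _) _⟩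
    have e1 : ∀ col : Fin 6 → α, S4 (fun a b x y => ind (Function.Injective col) *
        ∏ i, stepf π (f (col i)) (six a b x y i)) ≤ 6 * (η * n ^ 2 * n ^ 2) := by
      intro col
      rw [S4_mul]
      by_cases hc : Function.Injective col
      · rw [ind_pos hc, one_mul]
        refine (counting (fun i => f (col i)) (fun i => stepf π (f (col i)))
          (fun i e => ⟨ind_nonneg _, ind_le_one _⟩) (fun i e => hg _ _)
          (fun i => hcut (col i))).trans ?_
        have : S4 (fun a b x y => ∏ i, f (col i) (six a b x y i)) ≤ S4 fun _ _ _ _ : V => 0 := by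
          refine S4_mono fun a b x y => le_of_eq ?_
          obtain ⟨i, hi⟩ := not_forall.1 (hχ a b x y col hc)
          exact Finset.prod_eq_zero (Finset.mem_univ i) (ind_neg hi)
        have h2 : (S4 fun _ _ _ _ : V => (0 : ℝ)) = 0 := by simp [S4]
        linarith
      · rw [ind_neg hc, zero_mul]
        positivity
    have e2 : θ ^ 6 * nS (fun e => univ.filter fun c =>
        θ ≤ cavg (cellOf π) (onPairs (f c)) (Sym2.map π e))
        ≤ ∑ col : Fin 6 → α, S4 (fun a b x y => ind (Function.Injective col) *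
          ∏ i, stepf π (f (col i)) (six a b x y i)) := by
      rw [← S4_sum]
      refine le_trans (le_of_eq (S4_mul _ _).symm) (S4_mono fun a b x y => ?_)
      have hnn : ∀ col : Fin 6 → α, 0 ≤ ind (Function.Injective col) *
          ∏ i, stepf π (f (col i)) (six a b x y i) := fun col =>
        mul_nonneg (ind_nonneg _) (Finset.prod_nonneg fun i _ => (hg _ _).1)
      by_cases hS : SDR (fun e => univ.filter fun c =>
          θ ≤ cavg (cellOf π) (onPairs (f c)) (Sym2.map π e)) a b x y
      · rw [ind_pos hS, mul_one]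
        obtain ⟨col, hc1, hc2⟩ := hS
        refine le_trans ?_ (Finset.single_le_sum (fun col _ => hnn col) (Finset.mem_univ col))
        rw [ind_pos hc1, one_mul]
        calc θ ^ 6 = ∏ _i : Fin 6, θ := by simp
          _ ≤ _ := Finset.prod_le_prod (fun _ _ => hθ0.le) fun i _ =>
              (Finset.mem_filter.1 (hc2 i)).2
      · rw [ind_neg hS, mul_zero]
        exact Finset.sum_nonneg fun col _ => hnn col
    have e3 := e2.trans (Finset.sum_le_sum fun col _ => e1 col)
    simp only [Finset.sum_const, Finset.card_univ, Fintype.card_fun, Fintype.card_fin,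
      nsmul_eq_mul, Nat.cast_pow] at e3
    refine le_of_mul_le_mul_left (e3.trans ?_) (pow_pos hθ0 6)
    have h1 : s ^ 6 ≤ (s + 1) ^ 6 := by gcongr; linarith
    calc s ^ 6 * (6 * (η * n ^ 2 * n ^ 2)) ≤ (s + 1) ^ 6 * (6 * (η * n ^ 2 * n ^ 2)) :=
          mul_le_mul_of_nonneg_right h1 (by positivity)
      _ = θ ^ 6 * (ε * n ^ 4) := by
          rw [hη]
          field_simp

lemma nS_mono {V α : Type*} [Fintype V] {L L' : Sym2 V → Finset α} (h : ∀ e, L e ⊆ L' e) :
    nS L ≤ nS L' :=
  S4_mono fun _ _ _ _ => ind_mono fun ⟨col, h1, h2⟩ => ⟨col, h1, fun i => h _ (h2 i)⟩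

lemma card_le_sum_cover {β ι : Type*} [Fintype ι] (X : Finset β) (Y : ι → Finset β)
    (h : ∀ x ∈ X, ∃ i, x ∈ Y i) : (X.card : ℝ) ≤ ∑ i, ((Y i).card : ℝ) := by
  classical
  have : X ⊆ univ.biUnion Y := by
    intro x hx
    obtain ⟨i, hi⟩ := h x hx
    exact Finset.mem_biUnion.2 ⟨i, Finset.mem_univ _, hi⟩
  exact_mod_cast (Finset.card_le_card this).trans Finset.card_biUnion_le

lemma log_one_div_nonneg {t : ℝ} (h0 : 0 < t) (h1 : t ≤ 1) : 0 ≤ Real.log (1 / t) :=
  Real.log_nonneg (by rw [le_div_iff₀ h0]; linarith)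

lemma class_far {V α : Type} [Fintype V] [DecidableEq V] [Fintype α] [DecidableEq α]
    (G : SimpleGraph V) (L : Sym2 V → Finset α) (hL : ∀ e, e ∉ G.edgeSet → L e = ∅)
    (t E : ℝ) (ht0 : 0 < t) (ht : t ≤ 1 / 2) (X : Finset (Sym2 V → Option α))
    (hX : ∀ χ ∈ X, OnG G χ ∧ exc χ L ≤ E) :
    (X.card : ℝ) ≤ Real.exp (E * Real.log (1 / t)
      + t * (Fintype.card α + 1) * (Fintype.card V : ℝ) ^ 2
      + (∑ u, ∑ v, Real.log (L s(u, v)).card) / 2) := by
  classical
  set Λ : Sym2 V → Finset (Option α) :=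
    fun e => if e ∈ G.edgeSet then (L e).map Function.Embedding.some else {none} with hΛ
  have hlog : ∀ e, Real.log (Λ e).card = Real.log (L e).card := by
    intro e
    simp only [hΛ]
    split_ifs with h
    · rw [Finset.card_map]
    · rw [hL e h]
      simp
  have key := count_bound (ι := Empty) (κ := Unit) Λ univ t E 0 ht0 ht ∅
    (fun i => i.elim) (fun i => i.elim) (by simp) (by simp) X (by simp) ?_ (by simp)
  · refine key.trans (Real.exp_le_exp.2 ?_)
    simp only [hlog, add_zero, Finset.card_empty, Nat.cast_zero, zero_div, sub_zero,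
      Fintype.card_option]
    have h1 := sum_sym2 (fun e : Sym2 V => Real.log (L e).card)
    have h2 : ∑ v, Real.log (L s(v, v)).card = 0 := by
      refine Finset.sum_eq_zero fun v _ => ?_
      rw [hL _ (by simp)]
      simp
    have h3 := card_sym2_univ_le (V := V)
    have h4 := mul_le_mul_of_nonneg_left h3
      (show 0 ≤ t * ((Fintype.card α : ℝ) + 1) by positivity)
    push_cast
    linarith
  · intro χ hχ
    obtain ⟨h1, h2⟩ := hX χ hχ
    refine le_trans ?_ h2
    have := card_sym2_le (V := V) (fun e => χ e ∉ Λ e)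
    refine le_trans (Nat.cast_le.2 this) ?_
    rw [card_filter_ind, exc, Fintype.sum_prod_type]
    refine Finset.sum_le_sum fun u _ => Finset.sum_le_sum fun v _ => ind_mono ?_
    intro h
    simp only [hΛ] at h
    by_cases he : s(u, v) ∈ G.edgeSet
    · rw [if_pos he] at h
      obtain ⟨c, hc⟩ := Option.ne_none_iff_exists'.1 (fun hn => (h1 _).1 hn he)
      refine ⟨c, hc, fun hm => h ?_⟩
      rw [hc]
      exact Finset.mem_map_of_mem _ hm
    · rw [if_neg he, (h1 _).2 he] at h
      simp at h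

lemma Approx.mono {V α : Type*} [Fintype V] {ε ε' : ℝ} (h : ε ≤ ε') {G : SimpleGraph V}
    {χ : Sym2 V → Option α} {L : Sym2 V → Finset α} (hL : Approx ε G χ L) : Approx ε' G χ L :=
  ⟨hL.1, hL.2.1.trans (mul_le_mul_of_nonneg_right h (by positivity)),
    hL.2.2.trans (mul_le_mul_of_nonneg_right h (by positivity))⟩

lemma nat_pow_le_exp (M n : ℕ) : ((M : ℝ)) ^ n ≤ Real.exp (M * n) := by
  rw [mul_comm, Real.exp_nat_mul]
  gcongr
  linarith [Real.add_one_le_exp (M : ℝ)]

/-- rough count of a set of rainbow free colourings all of whose containers are small -/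
lemma far_bound (α : Type) [Fintype α] [DecidableEq α] (ε ε1 : ℝ) (hε : 0 < ε) (hε1 : 0 < ε1) :
    ∃ n0 : ℕ, ∀ (V : Type) [Fintype V] [DecidableEq V], n0 ≤ Fintype.card V →
      ∀ (G : SimpleGraph V) (X : Finset (Sym2 V → Option α)) (β : ℝ),
        (∀ χ ∈ X, RF χ ∧ OnG G χ) →
        (∀ χ ∈ X, ∀ L, Approx ε1 G χ L → ∑ u, ∑ v, Real.log (L s(u, v)).card ≤ β) →
        (X.card : ℝ) ≤ Real.exp (β / 2 + ε * (Fintype.card V : ℝ) ^ 2) := by
  classical
  set K : ℝ := (Fintype.card α : ℝ) + 1 with hK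
  have hK0 : 0 < K := by positivity
  set t : ℝ := min (1 / 2) (ε / (3 * K)) with ht
  have ht0 : 0 < t := lt_min (by norm_num) (by positivity)
  have ht1 : t ≤ 1 / 2 := min_le_left _ _
  have ht2 : t * K ≤ ε / 3 := by
    have : t ≤ ε / (3 * K) := min_le_right _ _
    rw [le_div_iff₀ (by positivity)] at this
    linarith
  have hl := log_one_div_nonneg ht0 (by linarith)
  set l : ℝ := Real.log (1 / t) with hldef
  set ε2 : ℝ := min ε1 (ε / (3 * (l + 1))) with hε2
  have hε20 : 0 < ε2 := lt_min hε1 (by positivity)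
  have hε21 : ε2 ≤ ε1 := min_le_left _ _
  have hε22 : ε2 * l ≤ ε / 3 := by
    have : ε2 ≤ ε / (3 * (l + 1)) := min_le_right _ _
    rw [le_div_iff₀ (by positivity)] at this
    nlinarith
  obtain ⟨K', hK'⟩ := container α ε2 hε20
  set M : ℕ := Fintype.card (Sym2 (Fin K') → Finset α) with hM
  obtain ⟨n0, hn0⟩ := exists_nat_ge (3 * ((K' : ℝ) + M) / ε + 1)
  refine ⟨n0, fun V _ _ hn G X β hX hβ => ?_⟩
  set n : ℝ := (Fintype.card V : ℝ) with hndef
  have hnn : 3 * ((K' : ℝ) + M) / ε + 1 ≤ n := hn0.trans (by rw [hndef]; exact_mod_cast hn)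
  have hn1 : 1 ≤ n := by
    have : 0 ≤ 3 * ((K' : ℝ) + M) / ε := by positivity
    linarith
  have hn2 : 3 * ((K' : ℝ) + M) ≤ n * ε := by
    have : 3 * ((K' : ℝ) + M) / ε ≤ n := by linarith
    rwa [div_le_iff₀ hε] at this
  set LL : (V → Fin K') × (Sym2 (Fin K') → Finset α) → Sym2 V → Finset α :=
    fun i e => if e ∈ G.edgeSet then i.2 (Sym2.map i.1 e) else ∅ with hLL
  have hcover := card_le_sum_cover X (fun i => X.filter fun χ => Approx ε2 G χ (LL i)) (by
    intro χ hχ
    obtain ⟨π, Λ, h1, h2⟩ := hK' V χ (hX χ hχ).1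
    refine ⟨(π, Λ), Finset.mem_filter.2 ⟨hχ, ?_, ?_, ?_⟩⟩
    · intro e he
      simp only [hLL, if_neg he]
    · refine le_trans ?_ h1
      refine Finset.sum_le_sum fun u _ => Finset.sum_le_sum fun v _ => ind_mono ?_
      rintro ⟨c, hc1, hc2⟩
      refine ⟨c, hc1, fun hm => hc2 ?_⟩
      have he : s(u, v) ∈ G.edgeSet := by
        by_contra he
        rw [((hX χ hχ).2 _).2 he] at hc1
        cases hc1
      simp only [hLL, if_pos he]
      exact hm
    · refine le_trans (nS_mono fun e => ?_) h2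
      simp only [hLL]
      split_ifs
      · exact Finset.Subset.refl _
      · exact Finset.empty_subset _)
  have hone : ∀ i, ((X.filter fun χ => Approx ε2 G χ (LL i)).card : ℝ)
      ≤ Real.exp (β / 2 + 2 * ε / 3 * n ^ 2) := by
    intro i
    rcases (X.filter fun χ => Approx ε2 G χ (LL i)).eq_empty_or_nonempty with h | ⟨χ0, hχ0⟩
    · rw [h]
      simp only [Finset.card_empty, Nat.cast_zero]
      exact (Real.exp_pos _).le
    obtain ⟨a1, a2⟩ := Finset.mem_filter.1 hχ0
    have b1 := hβ χ0 a1 _ (a2.mono hε21)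
    refine (class_far G (LL i) a2.1 t (ε2 * n ^ 2) ht0 ht1 _ (fun χ hχ =>
      ⟨(hX χ (Finset.mem_filter.1 hχ).1).2, (Finset.mem_filter.1 hχ).2.2.1⟩)).trans
      (Real.exp_le_exp.2 ?_)
    have c1 := mul_le_mul_of_nonneg_right hε22 (sq_nonneg n)
    have c2 := mul_le_mul_of_nonneg_right ht2 (sq_nonneg n)
    rw [← hldef, ← hK, ← hndef]
    nlinarith
  refine hcover.trans ((Finset.sum_le_sum fun i _ => hone i).trans ?_)
  rw [Finset.sum_const, Finset.card_univ, Fintype.card_prod, Fintype.card_fun, Fintype.card_fin,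
    ← hM, nsmul_eq_mul]
  push_cast
  have d1 := nat_pow_le_exp K' (Fintype.card V)
  have d2 : (M : ℝ) ≤ Real.exp (M * n) := by
    have := Real.add_one_le_exp (M * n)
    have h2 : (M : ℝ) ≤ M * n := le_mul_of_one_le_right (by positivity) hn1
    linarith
  calc _ ≤ Real.exp (K' * n) * Real.exp (M * n) * Real.exp (β / 2 + 2 * ε / 3 * n ^ 2) := by
        gcongr
    _ ≤ _ := by
        rw [← Real.exp_add, ← Real.exp_add]
        apply Real.exp_le_exp.2
        have := mul_le_mul_of_nonneg_right hn2 (show 0 ≤ n by linarith)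
        nlinarith

end Pool.Agent.P.MP_ea05a2_co
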