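import Pool.Agent.P.MP_ea05a2_co.Main

/-!
The number of rainbow `K_4` free colourings of an arbitrary graph.
-/

namespace Pool.Agent.P.MP_ea05a2_co

open Finset

lemma nonpure_le (α : Type) [Fintype α] [DecidableEq α] (h5 : 5 ≤ Fintype.card α)
    (h11 : Fintype.card α ≤ 11) (η : ℝ) (hη : 0 < η) :
    ∃ n0 : ℕ, ∀ (V : Type) [Fintype V] [DecidableEq V], n0 ≤ Fintype.card V →
      ∀ G : SimpleGraph V, ((RFS α G).card : ℝ) ≤
        ((powersetCard 5 univ).biUnion fun S : Finset α => Fintype.piFinset (T0S G S)).card +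
          η * 5 ^ (Fintype.card V).choose 2 := by
  classical
  set N : ℝ := (Fintype.card (Finset α) : ℝ) with hN
  have hN1 : 1 ≤ N := by
    rw [hN]
    exact_mod_cast Fintype.card_pos
  set ε : ℝ := η / (3 * N) with hε
  have hε0 : 0 < ε := by positivity
  obtain ⟨γ, μ, δ1, hγ0, hμ0, hδ10, hγ1, n1, hloc⟩ := local_bound (Option α) (Finset α) ε hε0
  set s : ℝ := (Fintype.card α : ℝ) with hs
  have hs1 : 1 ≤ s := by
    rw [hs]
    exact_mod_cast (by omega : 1 ≤ Fintype.card α)
  set μ' : ℝ := min μ (γ / 2) / s with hμ'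
  have hμ'0 : 0 < μ' := by positivity
  have hsμ : s * μ' = min μ (γ / 2) := by
    rw [hμ']
    field_simp
  have hμ1 : s * μ' ≤ μ := hsμ ▸ min_le_left _ _
  have hμ2 : s * μ' ≤ γ / 2 := hsμ ▸ min_le_right _ _
  have hμ3 : μ' ≤ s * μ' := le_mul_of_one_le_left hμ'0.le hs1
  obtain ⟨δ2, hδ20, n2, htyp⟩ := typ_bound (Option α) μ' ε hμ'0 hε0
  obtain ⟨n3, hfar⟩ := small_far α h11 (min δ1 δ2) ε (lt_min hδ10 hδ20) hε0
  refine ⟨max (max n1 n2) (max n3 8), fun V _ _ hn G => ?_⟩
  have hn1 : n1 ≤ Fintype.card V := (le_max_left _ _).trans ((le_max_left _ _).trans hn)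
  have hn2 : n2 ≤ Fintype.card V := (le_max_right _ _).trans ((le_max_left _ _).trans hn)
  have hn3 : n3 ≤ Fintype.card V := (le_max_left _ _).trans ((le_max_right _ _).trans hn)
  have hn8 : 8 ≤ Fintype.card V := (le_max_right _ _).trans ((le_max_right _ _).trans hn)
  set n : ℝ := (Fintype.card V : ℝ) with hndef
  have hn0 : 0 ≤ n := by positivity
  set Z : ℝ := Real.exp ((n ^ 2 - n) / 2 * Real.log 5) with hZ
  have hZ0 : 0 < Z := Real.exp_pos _
  obtain ⟨W, hW, d01, d02, d12⟩ := exists_parts V hn8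
  set Xf := (RFS α G).filter fun χ => ∀ S : Finset α, S.card = 5 →
    ¬ dfc χ (TS S) ≤ min δ1 δ2 * n ^ 2 with hXf
  set Xp := (RFS α G).filter fun χ => ∃ S : Finset α, S.card = 5 ∧ ∀ e, χ e ∈ T0S G S e with hXp
  set Xa := fun S : Finset α => (RFS α G).filter fun χ => S.card = 5 ∧
    dfc χ (TS S) ≤ min δ1 δ2 * n ^ 2 ∧ ¬ QT (TS S) (μ' * n) χ with hXa
  set Xl := fun S : Finset α => (RFS α G).filter fun χ => S.card = 5 ∧
    dfc χ (TS S) ≤ min δ1 δ2 * n ^ 2 ∧ QT (TS S) (μ' * n) χ ∧ ∃ e, χ e ∉ T0S G S e with hXl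
  have m1 : min δ1 δ2 * n ^ 2 ≤ δ1 * n ^ 2 :=
    mul_le_mul_of_nonneg_right (min_le_left _ _) (sq_nonneg _)
  have m2 : min δ1 δ2 * n ^ 2 ≤ δ2 * n ^ 2 :=
    mul_le_mul_of_nonneg_right (min_le_right _ _) (sq_nonneg _)
  have bf : (Xf.card : ℝ) ≤ ε * Z := hfar V hn3 G Xf
    (fun χ hχ => mem_RFS.1 (Finset.mem_filter.1 hχ).1) (fun χ hχ => (Finset.mem_filter.1 hχ).2)
  have bp : Xp.card ≤ ((powersetCard 5 univ).biUnion fun S : Finset α =>
      Fintype.piFinset (T0S G S)).card := Finset.card_le_card fun χ hχ => by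
    obtain ⟨S, h1, h2⟩ := (Finset.mem_filter.1 hχ).2
    exact mem_biUnion.2 ⟨S, mem_powersetCard.2 ⟨subset_univ _, h1⟩, Fintype.mem_piFinset.2 h2⟩
  have ba : ∀ S, ((Xa S).card : ℝ) ≤ ε * Z := by
    intro S
    by_cases hS : S.card = 5
    · rw [hZ, ← lZ_TS hS]
      exact htyp V hn2 (TS S) (Xa S) fun χ hχ =>
        ⟨(Finset.mem_filter.1 hχ).2.2.1.trans m2, (Finset.mem_filter.1 hχ).2.2.2⟩
    · rw [show Xa S = ∅ from Finset.filter_eq_empty_iff.2 fun χ _ h => hS h.1]
      simp only [Finset.card_empty, Nat.cast_zero]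
      positivity
  have bl : ∀ S, ((Xl S).card : ℝ) ≤ ε * Z := by
    intro S
    by_cases hS : S.card = 5
    · rw [hZ, ← lZ_TS hS]
      refine hloc V hn1 (TS S) (T0S G S) W (TvS G) (Xl S) ?_ hW ?_
      · intro e
        induction e using Sym2.ind with
        | _ u v =>
          unfold T0S TS
          split_ifs with h1 h2 h2
          · exact absurd h2 (G.ne_of_adj h1)
          · exact le_rfl
          · exact le_rfl
          · simp [hS]
      · intro χ hχ
        obtain ⟨h0, -, h1, h2, h3⟩ := Finset.mem_filter.1 hχ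
        obtain ⟨hR, hO⟩ := mem_RFS.1 h0
        refine ⟨h3, ?_, h1.trans m1, fun v hv => ?_, fun a b hab => ?_⟩
        · intro e he hm
          apply he
          unfold T0S TS at *
          split_ifs at * with h4 h5 h5
          · induction e using Sym2.ind with
            | _ u v => exact absurd h5 (G.ne_of_adj h4)
          · rfl
          · rfl
          · rw [(hO e).2 h4] at hm
            simp at hm
        · refine small_vert hS (by positivity) ?_ ?_ hγ1 hn8 h2 hR hO v hv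
          · nlinarith [mul_le_mul_of_nonneg_right hμ1 hn0]
          · nlinarith [mul_le_mul_of_nonneg_right hμ2 hn0]
        · refine small_edge hS ?_ h2 hR hO W d01 d02 d12 (le_trans ?_ (hW 2)) a b hab
          · exact mul_le_mul_of_nonneg_right (hμ3.trans hμ1) hn0
          · nlinarith [mul_le_mul_of_nonneg_right (hμ3.trans hμ2) hn0]
    · rw [show Xl S = ∅ from Finset.filter_eq_empty_iff.2 fun χ _ h => hS h.1]
      simp only [Finset.card_empty, Nat.cast_zero]
      positivity
  have bz : Z = 5 ^ (Fintype.card V).choose 2 := by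
    rw [hZ, show (n ^ 2 - n) / 2 = ((Fintype.card V).choose 2 : ℕ) by
      rw [Nat.cast_choose_two]; ring, Real.exp_nat_mul, Real.exp_log (by norm_num)]
  have hcov : RFS α G ⊆ Xf ∪ Xp ∪ univ.biUnion Xa ∪ univ.biUnion Xl := by
    intro χ hχ
    simp only [Finset.mem_union, Finset.mem_biUnion, Finset.mem_univ, true_and, hXf, hXp, hXa,
      hXl, Finset.mem_filter, hχ]
    by_cases c1 : ∀ S : Finset α, S.card = 5 → ¬ dfc χ (TS S) ≤ min δ1 δ2 * n ^ 2
    · exact Or.inl (Or.inl (Or.inl c1))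
    push Not at c1
    obtain ⟨S, hS, hd⟩ := c1
    by_cases c2 : QT (TS S) (μ' * n) χ
    · by_cases c3 : ∀ e, χ e ∈ T0S G S e
      · exact Or.inl (Or.inl (Or.inr ⟨S, hS, c3⟩))
      · exact Or.inr ⟨S, hS, hd, c2, not_forall.1 c3⟩
    · exact Or.inl (Or.inr ⟨S, hS, hd, c2⟩)
  have hc1 : (RFS α G).card ≤ Xf.card + Xp.card + ∑ S, (Xa S).card + ∑ S, (Xl S).card :=
    (Finset.card_le_card hcov).trans ((Finset.card_union_le _ _).trans (add_le_add
      ((Finset.card_union_le _ _).trans (add_le_add (Finset.card_union_le _ _)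
        Finset.card_biUnion_le)) Finset.card_biUnion_le))
  have hc2 : ((RFS α G).card : ℝ) ≤ Xf.card + Xp.card + ∑ S, ((Xa S).card : ℝ)
      + ∑ S, ((Xl S).card : ℝ) := by exact_mod_cast hc1
  have sa := Finset.sum_le_sum fun S (_ : S ∈ (univ : Finset (Finset α))) => ba S
  have sl := Finset.sum_le_sum fun S (_ : S ∈ (univ : Finset (Finset α))) => bl S
  rw [Finset.sum_const, Finset.card_univ, nsmul_eq_mul, ← hN] at sa sl
  have e1 : N * (ε * Z) = η * Z / 3 := by
    rw [hε]
    field_simp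
  have e2 : ε * Z ≤ N * (ε * Z) := le_mul_of_one_le_left (by positivity) hN1
  have bp' := (Nat.cast_le (α := ℝ)).2 bp
  rw [← bz]
  linarith

lemma card_pi_T0S {V α : Type} [Fintype V] [DecidableEq V] (G : SimpleGraph V) (S : Finset α) :
    (Fintype.piFinset (T0S G S)).card = S.card ^ G.edgeSet.ncard := by
  classical
  rw [Fintype.card_piFinset]
  have : ∀ e, (T0S G S e).card = if e ∈ G.edgeSet then S.card else 1 := by
    intro e
    unfold T0S
    split_ifs <;> simp
  simp only [this]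
  rw [Finset.prod_ite, Finset.prod_const, Finset.prod_const_one, mul_one]
  congr 1
  rw [← Set.ncard_coe_finset]
  congr 1
  ext e
  simp

lemma pure_lower {V α : Type} [Fintype V] [DecidableEq V] [Fintype α] [DecidableEq α]
    (G : SimpleGraph V) : (Fintype.card α).choose 5 * 5 ^ G.edgeSet.ncard ≤
      (RFS α G).card + (Fintype.card α).choose 5 ^ 2 * 4 ^ G.edgeSet.ncard := by
  classical
  set P := powersetCard 5 (univ : Finset α) with hP
  have cP : P.card = (Fintype.card α).choose 5 := by simp [hP]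
  let A := fun S : Finset α => Fintype.piFinset (T0S G S)
  let B := fun S => A S \ (P.erase S).biUnion fun T => A (S ∩ T)
  have h1 : ∀ S ∈ P, 5 ^ G.edgeSet.ncard ≤ (B S).card + P.card * 4 ^ G.edgeSet.ncard := by
    intro S hS
    have c5 := (mem_powersetCard.1 hS).2
    have := le_card_sdiff ((P.erase S).biUnion fun T => A (S ∩ T)) (A S)
    have h2 : ((P.erase S).biUnion fun T => A (S ∩ T)).card ≤ P.card * 4 ^ G.edgeSet.ncard := by
      refine (card_biUnion_le_card_mul _ _ (4 ^ G.edgeSet.ncard) fun T hT => ?_).trans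
        (Nat.mul_le_mul_right _ card_erase_le)
      rw [card_pi_T0S]
      refine Nat.pow_le_pow_left ?_ _
      by_contra hc
      have c5' := (mem_powersetCard.1 (mem_erase.1 hT).2).2
      exact (mem_erase.1 hT).1 ((eq_of_subset_of_card_le inter_subset_right (by omega)).symm.trans
        (eq_of_subset_of_card_le inter_subset_left (by omega)))
    have h3 : (A S).card = 5 ^ G.edgeSet.ncard := by rw [card_pi_T0S, c5]
    simp only [B]
    omega
  have h2 : (P.biUnion B).card = ∑ S ∈ P, (B S).card := card_biUnion fun S hS T hT hne => by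
    refine disjoint_left.2 fun χ h h' => (mem_sdiff.1 h).2 (mem_biUnion.2
      ⟨T, mem_erase.2 ⟨hne.symm, hT⟩, Fintype.mem_piFinset.2 fun e => ?_⟩)
    have a := Fintype.mem_piFinset.1 (mem_sdiff.1 h).1 e
    have b := Fintype.mem_piFinset.1 (mem_sdiff.1 h').1 e
    unfold T0S at *
    split_ifs at *
    · rw [map_inter]
      exact mem_inter.2 ⟨a, b⟩
    · exact a
  have h3 : P.biUnion B ⊆ RFS α G := fun χ hχ => by
    obtain ⟨S, hS, h⟩ := mem_biUnion.1 hχ
    have a := Fintype.mem_piFinset.1 (mem_sdiff.1 h).1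
    refine mem_RFS.2 ⟨RF_of_five S (mem_powersetCard.1 hS).2.le fun e c hc => ?_, fun e => ?_⟩
    · have := a e
      rw [hc, T0S] at this
      split_ifs at this
      all_goals simp at this
      exact this
    · have := a e
      rw [T0S] at this
      split_ifs at this with he
      · obtain ⟨c, -, hc⟩ := Finset.mem_map.1 this
        rw [← hc]
        simp [he]
      · simpa [he] using this
  have h4 := sum_le_sum h1
  rw [sum_const, sum_add_distrib, sum_const, smul_eq_mul, smul_eq_mul, ← h2, cP, ← mul_assoc,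
    ← sq] at h4
  exact h4.trans (Nat.add_le_add_right (card_le_card h3) _)

lemma ncard_le {n : ℕ} (G : SimpleGraph (Fin n)) : G.edgeSet.ncard ≤ n.choose 2 := by
  classical
  rw [← card_edgeFinset_eq]
  simpa using G.card_edgeFinset_le_card_choose_two

theorem count_small (s : ℕ) (h5 : 5 ≤ s) (h11 : s ≤ 11) (ε : ℝ) (hε : 0 < ε) : ∃ n0 : ℕ,
    ∀ n : ℕ, n0 ≤ n → ∀ G : SimpleGraph (Fin n),
      |(numCol s G : ℝ) - s.choose 5 * 5 ^ G.edgeSet.ncard| ≤ ε * 5 ^ n.choose 2 := by
  classical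
  obtain ⟨n1, h1⟩ := nonpure_le (Fin s) (by simpa using h5) (by simpa using h11) ε hε
  have ht := (tendsto_pow_atTop_nhds_zero_of_lt_one (r := (4 / 5 : ℝ)) (by norm_num)
    (by norm_num)).const_mul ((s.choose 5 : ℝ) ^ 2)
  obtain ⟨n2, h2⟩ := Filter.eventually_atTop.1 (ht.eventually (ge_mem_nhds (by simpa using hε)))
  refine ⟨max n1 (n2 + 3), fun n hn G => ?_⟩
  have a := h1 (Fin n) (by simpa using (le_max_left _ _).trans hn) G
  have b : ((powersetCard 5 univ).biUnion fun S : Finset (Fin s) =>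
      Fintype.piFinset (T0S G S)).card ≤ s.choose 5 * 5 ^ G.edgeSet.ncard := by
    refine (card_biUnion_le_card_mul _ _ (5 ^ G.edgeSet.ncard) fun S hS => ?_).trans (by simp)
    rw [card_pi_T0S, (mem_powersetCard.1 hS).2]
  have b' := (Nat.cast_le (α := ℝ)).2 b
  have c := (Nat.cast_le (α := ℝ)).2 (pure_lower (α := Fin s) G)
  have d := h2 (n.choose 2) (by
    have : n2 + 3 ≤ n := (le_max_right _ _).trans hn
    rw [Nat.choose_two_right, Nat.le_div_iff_mul_le (by norm_num)]
    exact Nat.mul_le_mul (by omega) (by omega))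
  rw [div_pow, ← mul_div_assoc, div_le_iff₀ (by positivity)] at d
  have e : (4 : ℝ) ^ G.edgeSet.ncard ≤ 4 ^ n.choose 2 :=
    pow_le_pow_right₀ (by norm_num) (ncard_le G)
  have f := mul_le_mul_of_nonneg_left e (sq_nonneg (s.choose 5 : ℝ))
  simp only [Fintype.card_fin] at a c
  push_cast at b' c
  rw [numCol_eq, abs_le]
  constructor <;> linarith

theorem count_large (s : ℕ) (h12 : 12 ≤ s) (n0 : ℕ) : ∃ n, n0 ≤ n ∧ ∃ G : SimpleGraph (Fin n),
    1 * 5 ^ n.choose 2 < |(numCol s G : ℝ) - s.choose 5 * 5 ^ G.edgeSet.ncard| := by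
  classical
  have hl : 3 * Real.log 5 < 2 * Real.log 12 := by
    have := Real.log_lt_log (x := 5 ^ 3) (y := 12 ^ 2) (by norm_num) (by norm_num)
    simpa using this
  have l5 : 0 < Real.log 5 := Real.log_pos (by norm_num)
  have hC : (1 : ℝ) ≤ s.choose 5 + 2 := by linarith [Nat.cast_nonneg (α := ℝ) (s.choose 5)]
  obtain ⟨n1, h1⟩ := quad_large (Real.log 12 / 3 - Real.log 5 / 2) (Real.log 12)
    (Real.log (s.choose 5 + 2)) (by linarith) (by linarith) (Real.log_nonneg hC)
  obtain ⟨n, hn0, hn1⟩ : ∃ n, n0 ≤ n ∧ n1 ≤ n := ⟨_, le_max_left _ _, le_max_right _ _⟩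
  refine ⟨n, hn0, SimpleGraph.turanGraph n 3, lt_of_lt_of_le ?_ (le_abs_self _)⟩
  have hT := SimpleGraph.isTuranMaximal_turanGraph (n := n) (r := 3) (by norm_num)
  rw [numCol_eq, RFS_card_of_free (Fin s) ((cliqueFree_iff_not_hasK4 _).1 hT.1)]
  have a := turan_lower n
  have b := h1 n hn1
  have c : (5 : ℝ) ^ (SimpleGraph.turanGraph n 3).edgeSet.ncard ≤ 5 ^ n.choose 2 :=
    pow_le_pow_right₀ (by norm_num) (ncard_le _)
  generalize (SimpleGraph.turanGraph n 3).edgeSet.ncard = t at *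
  have d : ((s.choose 5 : ℝ) + 2) * 5 ^ n.choose 2 ≤ 12 ^ t := by
    rw [← Real.log_le_log_iff (by positivity) (by positivity),
      Real.log_mul (by positivity) (by positivity), Real.log_pow, Real.log_pow, Nat.cast_choose_two]
    nlinarith [mul_le_mul_of_nonneg_right a (show 0 ≤ Real.log 12 by linarith),
      mul_nonneg (Nat.cast_nonneg (α := ℝ) n) l5.le]
  have e : (12 : ℝ) ^ t ≤ s ^ t := pow_le_pow_left₀ (by norm_num) (by exact_mod_cast h12) _
  have f := mul_le_mul_of_nonneg_left c (Nat.cast_nonneg (α := ℝ) (s.choose 5))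
  have g : (0 : ℝ) < 5 ^ n.choose 2 := by positivity
  simp only [Fintype.card_fin]
  push_cast
  linarith

end Pool.Agent.P.MP_ea05a2_co
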