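import Mathlib

/-!
Definitions for the rainbow `K_4` case of the generalised Erdos-Rothschild problem.
-/

namespace Pool.Agent.P.MP_ea05a2_co

/-- The edge colouring `c` of `G` has no rainbow `K_4`: for any four mutually adjacent vertices
the six edges between them do not get six pairwise distinct colours. -/
def RainbowFree {V : Type} {s : ℕ} (G : SimpleGraph V) (c : G.edgeSet → Fin s) : Prop :=
  ∀ (a b x y : V) (h1 : s(a, b) ∈ G.edgeSet) (h2 : s(a, x) ∈ G.edgeSet)
    (h3 : s(a, y) ∈ G.edgeSet) (h4 : s(b, x) ∈ G.edgeSet) (h5 : s(b, y) ∈ G.edgeSet)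
    (h6 : s(x, y) ∈ G.edgeSet),
    ¬ [c ⟨s(a, b), h1⟩, c ⟨s(a, x), h2⟩, c ⟨s(a, y), h3⟩, c ⟨s(b, x), h4⟩, c ⟨s(b, y), h5⟩,
      c ⟨s(x, y), h6⟩].Nodup

/-- `F(G)`: the number of `s`-edge colourings of `G` without a rainbow `K_4`. -/
noncomputable def numCol (s : ℕ) {V : Type} (G : SimpleGraph V) : ℕ :=
  Nat.card {c : G.edgeSet → Fin s // RainbowFree G c}

/-- `G` maximises `F` among all graphs on the same `n` vertices. -/
def Extremal (s : ℕ) {n : ℕ} (G : SimpleGraph (Fin n)) : Prop :=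
  ∀ H : SimpleGraph (Fin n), numCol s H ≤ numCol s G

end Pool.Agent.P.MP_ea05a2_co
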