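import Pool.Agent.P.MP_ea05a2_co.Soft

/-!
A Motzkin-Straus type inequality for list systems on complete graphs without a system of
distinct representatives on four vertices, and its robust form obtained by sampling.
-/

namespace Pool.Agent.P.MP_ea05a2_co

open Finset

section abstract

variable {W : Type*} [DecidableEq W]

/-- the quadratic form -/
def QF (p : W → W → ℝ) (S : Finset W) (x : W → ℝ) : ℝ := ∑ u ∈ S, ∑ v ∈ S, x u * x v * p u v

/-- the linear form -/
def RR (p : W → W → ℝ) (S : Finset W) (x : W → ℝ) (u : W) : ℝ := ∑ v ∈ S, x v * p u v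

lemma RR_erase (p : W → W → ℝ) {S : Finset W} (x : W → ℝ) (u : W) {v : W} (hv : v ∈ S) :
    RR p S x u = x v * p u v + RR p (S.erase v) x u := by
  unfold RR
  rw [Finset.add_sum_erase S (fun v => x v * p u v) hv]

lemma QF_erase {p : W → W → ℝ} (hs : ∀ u v, p u v = p v u) (hd : ∀ u, p u u = -2)
    {S : Finset W} (x : W → ℝ) {u : W} (hu : u ∈ S) :
    QF p S x = QF p (S.erase u) x + 2 * x u * RR p (S.erase u) x u - 2 * x u ^ 2 := by
  unfold QF RR
  rw [← Finset.add_sum_erase S _ hu, ← Finset.add_sum_erase S _ hu]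
  have : ∀ w ∈ S.erase u, ∑ v ∈ S, x w * x v * p w v
      = x u * (x w * p u w) + ∑ v ∈ S.erase u, x w * x v * p w v := by
    intro w _
    rw [← Finset.add_sum_erase S _ hu, hs w u]
    ring
  rw [Finset.sum_congr rfl this, Finset.sum_add_distrib, ← Finset.mul_sum, hd]
  have h2 : ∑ v ∈ S.erase u, x u * x v * p u v = x u * ∑ v ∈ S.erase u, x v * p u v := by
    rw [Finset.mul_sum]
    exact Finset.sum_congr rfl fun v _ => by ring
  rw [h2]
  ring

lemma QF_congr (p : W → W → ℝ) {S : Finset W} {x y : W → ℝ} (h : ∀ u ∈ S, x u = y u) :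
    QF p S x = QF p S y := by
  unfold QF
  exact Finset.sum_congr rfl fun u hu => Finset.sum_congr rfl fun v hv => by rw [h u hu, h v hv]

lemma RR_congr (p : W → W → ℝ) {S : Finset W} {x y : W → ℝ} (h : ∀ u ∈ S, x u = y u) (w : W) :
    RR p S x w = RR p S y w := by
  unfold RR
  exact Finset.sum_congr rfl fun u hu => by rw [h u hu]

lemma QF_shift {p : W → W → ℝ} (hs : ∀ u v, p u v = p v u) (hd : ∀ u, p u u = -2)
    {S : Finset W} (x : W → ℝ) (hx : ∀ u, 0 ≤ x u) {u v : W} (hu : u ∈ S) (hv : v ∈ S)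
    (huv : u ≠ v) (hp : p u v = -2)
    (hr : RR p ((S.erase v).erase u) x v ≤ RR p ((S.erase v).erase u) x u) :
    QF p S x ≤ QF p (S.erase v) (Function.update x u (x u + x v)) := by
  have hu' : u ∈ S.erase v := Finset.mem_erase.2 ⟨huv, hu⟩
  have hc : ∀ w ∈ (S.erase v).erase u, Function.update x u (x u + x v) w = x w := by
    intro w hw
    exact Function.update_of_ne (Finset.mem_erase.1 hw).1 _ _
  rw [QF_erase hs hd x hv, QF_erase hs hd x hu', QF_erase hs hd _ hu', QF_congr p hc,
    RR_congr p hc, RR_erase p x v hu', hs v u, hp, Function.update_self]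
  nlinarith [hx u, hx v, mul_le_mul_of_nonneg_left hr (hx v)]

lemma QF_three {p : W → W → ℝ} (hs : ∀ u v, p u v = p v u) (hd : ∀ u, p u u = -2)
    (hle : ∀ u v, p u v ≤ 1)
    {S : Finset W} (x : W → ℝ) (hx : ∀ u, 0 ≤ x u) {u v t : W} (hu : u ∈ S) (hv : v ∈ S)
    (ht : t ∈ S) (huv : u ≠ v) (hut : u ≠ t) (hvt : v ≠ t)
    (h : ∀ w ∈ ((S.erase u).erase v).erase t, p u w ≤ 0 ∧ p v w ≤ 0 ∧ p t w ≤ 0) :
    QF p S x ≤ QF p (((S.erase u).erase v).erase t) x := by
  have hv1 : v ∈ S.erase u := Finset.mem_erase.2 ⟨huv.symm, hv⟩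
  have ht1 : t ∈ S.erase u := Finset.mem_erase.2 ⟨hut.symm, ht⟩
  have ht2 : t ∈ (S.erase u).erase v := Finset.mem_erase.2 ⟨hvt.symm, ht1⟩
  rw [QF_erase hs hd x hu, QF_erase hs hd x hv1, QF_erase hs hd x ht2, RR_erase p x u hv1,
    RR_erase p x u ht2, RR_erase p x v ht2]
  have r1 : RR p (((S.erase u).erase v).erase t) x u ≤ 0 :=
    Finset.sum_nonpos fun w hw => mul_nonpos_of_nonneg_of_nonpos (hx w) (h w hw).1
  have r2 : RR p (((S.erase u).erase v).erase t) x v ≤ 0 :=
    Finset.sum_nonpos fun w hw => mul_nonpos_of_nonneg_of_nonpos (hx w) (h w hw).2.1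
  have r3 : RR p (((S.erase u).erase v).erase t) x t ≤ 0 :=
    Finset.sum_nonpos fun w hw => mul_nonpos_of_nonneg_of_nonpos (hx w) (h w hw).2.2
  have a1 := mul_nonneg (hx u) (neg_nonneg.2 r1)
  have a2 := mul_nonneg (hx v) (neg_nonneg.2 r2)
  have a3 := mul_nonneg (hx t) (neg_nonneg.2 r3)
  have b1 := mul_nonneg (mul_nonneg (hx u) (hx v)) (sub_nonneg.2 (hle u v))
  have b2 := mul_nonneg (mul_nonneg (hx u) (hx t)) (sub_nonneg.2 (hle u t))
  have b3 := mul_nonneg (mul_nonneg (hx v) (hx t)) (sub_nonneg.2 (hle v t))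
  nlinarith [sq_nonneg (x u - x v), sq_nonneg (x u - x t), sq_nonneg (x v - x t)]

lemma QF_nonpos {p : W → W → ℝ} (hs : ∀ u v, p u v = p v u) (hd : ∀ u, p u u = -2)
    (hle : ∀ u v, p u v ≤ 1) (hint : ∀ u v, -1 < p u v → 0 ≤ p u v)
    (H : ∀ u v t w, u ≠ v → u ≠ t → u ≠ w → v ≠ t → v ≠ w → t ≠ w →
      p u w ≠ -2 → p v w ≠ -2 → p t w ≠ -2 → 0 < p u v → 0 < p u t → 0 ≤ p v t →
      p u w ≤ 0 ∧ p v w ≤ 0 ∧ p t w ≤ 0)
    (N : ℕ) : ∀ (S : Finset W), S.card ≤ N → ∀ x : W → ℝ, (∀ u, 0 ≤ x u) → QF p S x ≤ 0 := by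
  induction N with
  | zero =>
    intro S hS x _
    have : S = ∅ := Finset.card_eq_zero.1 (Nat.le_zero.1 hS)
    subst this
    simp [QF]
  | succ N ih =>
    intro S hS x hx
    have her : ∀ v ∈ S, (S.erase v).card ≤ N := by
      intro v hv
      rw [Finset.card_erase_of_mem hv]
      omega
    by_cases h1 : ∃ u ∈ S, ∃ v ∈ S, u ≠ v ∧ p u v = -2
    · obtain ⟨u, hu, v, hv, huv, hp⟩ := h1
      have hnn : ∀ a b : W, ∀ w, 0 ≤ Function.update x a (x a + x b) w := by
        intro a b w
        by_cases hw : w = a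
        · subst hw
          rw [Function.update_self]
          exact add_nonneg (hx _) (hx _)
        · rw [Function.update_of_ne hw]
          exact hx w
      rcases le_total (RR p ((S.erase v).erase u) x v) (RR p ((S.erase v).erase u) x u)
        with hr | hr
      · exact (QF_shift hs hd x hx hu hv huv hp hr).trans (ih _ (her v hv) _ (hnn u v))
      · rw [Finset.erase_right_comm] at hr
        exact (QF_shift hs hd x hx hv hu huv.symm (by rw [hs, hp]) hr).trans
          (ih _ (her u hu) _ (hnn v u))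
    by_cases h2 : ∃ u ∈ S, RR p (S.erase u) x u ≤ x u
    · obtain ⟨u, hu, hr⟩ := h2
      rw [QF_erase hs hd x hu]
      have := ih _ (her u hu) x hx
      nlinarith [mul_le_mul_of_nonneg_left hr (hx u)]
    push Not at h1 h2
    rcases S.eq_empty_or_nonempty with rfl | ⟨u, hu⟩
    · simp [QF]
    have hv : ∃ v ∈ S.erase u, 0 < p u v := by
      by_contra hc
      push Not at hc
      have : RR p (S.erase u) x u ≤ 0 :=
        Finset.sum_nonpos fun w hw => mul_nonpos_of_nonneg_of_nonpos (hx w) (hc w hw)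
      linarith [h2 u hu, hx u]
    obtain ⟨v, hv', hpuv⟩ := hv
    obtain ⟨hvu, hv⟩ := Finset.mem_erase.1 hv'
    have hu' : u ∈ S.erase v := Finset.mem_erase.2 ⟨hvu.symm, hu⟩
    have ht : ∃ t ∈ (S.erase u).erase v, 0 < p u t + p v t := by
      by_contra hc
      push Not at hc
      have e1 := h2 u hu
      have e2 := h2 v hv
      rw [RR_erase p x u hv'] at e1
      rw [RR_erase p x v hu', Finset.erase_right_comm] at e2
      have e3 : RR p ((S.erase u).erase v) x u + RR p ((S.erase u).erase v) x v ≤ 0 := by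
        unfold RR
        rw [← Finset.sum_add_distrib]
        refine Finset.sum_nonpos fun w hw => ?_
        rw [← mul_add]
        exact mul_nonpos_of_nonneg_of_nonpos (hx w) (hc w hw)
      nlinarith [mul_le_mul_of_nonneg_left (hle u v) (hx v),
        mul_le_mul_of_nonneg_left (hle v u) (hx u)]
    obtain ⟨t, ht', hpt⟩ := ht
    obtain ⟨htv, ht1⟩ := Finset.mem_erase.1 ht'
    obtain ⟨htu, ht⟩ := Finset.mem_erase.1 ht1
    have hcard : (((S.erase u).erase v).erase t).card ≤ N := by
      refine le_trans ?_ (her u hu)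
      exact (Finset.card_erase_le).trans Finset.card_erase_le
    refine le_trans (QF_three hs hd hle x hx hu hv ht hvu.symm htu.symm htv.symm ?_)
      (ih _ hcard x hx)
    intro w hw
    obtain ⟨hwt, hw2⟩ := Finset.mem_erase.1 hw
    obtain ⟨hwv, hw1⟩ := Finset.mem_erase.1 hw2
    obtain ⟨hwu, hw0⟩ := Finset.mem_erase.1 hw1
    have n1 := h1 u hu w hw0 hwu.symm
    have n2 := h1 v hv w hw0 hwv.symm
    have n3 := h1 t ht w hw0 hwt.symm
    by_cases hc : 0 < p u t ∧ 0 ≤ p v t
    · exact H u v t w hvu.symm htu.symm hwu.symm htv.symm hwv.symm hwt.symm n1 n2 n3 hpuv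
        hc.1 hc.2
    · have c1 : 0 < p v t := by
        by_contra c1
        push Not at c1
        apply hc
        refine ⟨by linarith, hint _ _ ?_⟩
        by_contra c2
        push Not at c2
        linarith [hle u t]
      have c2 : 0 ≤ p u t := by
        by_contra c2
        push Not at c2
        have := hint u t (by linarith [hle v t])
        linarith
      obtain ⟨d1, d2, d3⟩ := H v u t w hvu htv.symm hwv.symm htu.symm hwu.symm hwt.symm n2 n1 n3
        (by rw [hs]; exact hpuv) c1 c2
      exact ⟨d2, d1, d3⟩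

end abstract

open Classical in
/-- indicator of a proposition -/
noncomputable def ind (p : Prop) : ℝ := if p then 1 else 0

lemma ind_pos {p : Prop} (h : p) : ind p = 1 := by simp [ind, h]
lemma ind_neg {p : Prop} (h : ¬ p) : ind p = 0 := by simp [ind, h]
lemma ind_nonneg (p : Prop) : 0 ≤ ind p := by
  unfold ind
  split_ifs <;> norm_num
lemma ind_le_one (p : Prop) : ind p ≤ 1 := by
  unfold ind
  split_ifs <;> norm_num
lemma ind_mono {p q : Prop} (h : p → q) : ind p ≤ ind q := by
  by_cases hp : p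
  · rw [ind_pos hp, ind_pos (h hp)]
  · rw [ind_neg hp]
    exact ind_nonneg _
lemma ind_congr {p q : Prop} (h : p ↔ q) : ind p = ind q := by rw [propext h]
lemma ind_and (p q : Prop) : ind (p ∧ q) = ind p * ind q := by
  by_cases hp : p <;> by_cases hq : q <;> simp [ind, hp, hq]
lemma ind_or_le (p q : Prop) : ind (p ∨ q) ≤ ind p + ind q := by
  by_cases hp : p <;> by_cases hq : q <;> simp [ind, hp, hq]
lemma ind_not (p : Prop) : ind (¬ p) = 1 - ind p := by
  by_cases hp : p <;> simp [ind, hp]
lemma card_filter_ind {β : Type*} (s : Finset β) (p : β → Prop) [DecidablePred p] :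
    ((s.filter p).card : ℝ) = ∑ x ∈ s, ind (p x) := by
  rw [Finset.card_filter]
  push_cast
  refine Finset.sum_congr rfl fun x _ => ?_
  by_cases h : p x <;> simp [ind, h]
lemma sum_ind_mem {β : Type*} [Fintype β] (A : Finset β) : ∑ x, ind (x ∈ A) = A.card := by
  classical
  rw [← card_filter_ind]
  simp
lemma sum_ind_eq {β : Type*} [Fintype β] (a : β) : ∑ x, ind (x = a) = 1 := by
  classical
  rw [Finset.sum_eq_single a]
  · exact ind_pos rfl
  · intro b _ hb
    exact ind_neg hb
  · simp

/-- the six pairs on four vertices -/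
def six {V : Type*} (a b x y : V) : Fin 6 → Sym2 V :=
  ![s(a, b), s(a, x), s(a, y), s(b, x), s(b, y), s(x, y)]

/-- the lists on the six pairs have a system of distinct representatives -/
def SDR {V α : Type*} (L : Sym2 V → Finset α) (a b x y : V) : Prop :=
  ∃ col : Fin 6 → α, Function.Injective col ∧ ∀ i, col i ∈ L (six a b x y i)

lemma sdr_of_rank {α : Type*} {k : ℕ} (M : Fin k → Finset α) (r : Fin k → ℕ)
    (hr : ∀ s : Finset (Fin k), s.Nonempty → ∃ i ∈ s, s.card ≤ r i)
    (h : ∀ i, r i ≤ (M i).card) :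
    ∃ col : Fin k → α, Function.Injective col ∧ ∀ i, col i ∈ M i := by
  classical
  rw [← Finset.all_card_le_biUnion_card_iff_exists_injective]
  intro s
  rcases s.eq_empty_or_nonempty with rfl | hs
  · simp
  obtain ⟨i, hi, hc⟩ := hr s hs
  exact hc.trans ((h i).trans (Finset.card_le_card (Finset.subset_biUnion_of_mem M hi)))

/-- the weight of a list of a given size -/
noncomputable def tau (m : ℕ) : ℝ := if m ≤ 1 then 0 else if m = 2 then 1 else if m ≤ 5 then 2 else 3

lemma tau_nonneg (m : ℕ) : 0 ≤ tau m := by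
  unfold tau
  split_ifs <;> norm_num
lemma tau_le (m : ℕ) : tau m ≤ 3 := by
  unfold tau
  split_ifs <;> norm_num
lemma tau_int {m : ℕ} (h : 1 < tau m) : 2 ≤ tau m := by
  unfold tau at *
  split_ifs at * <;> linarith
lemma two_le_of_tau {m : ℕ} (h : tau m ≠ 0) : 2 ≤ m := by
  by_contra hc
  apply h
  unfold tau
  rw [if_pos (by omega)]
lemma three_le_of_tau {m : ℕ} (h : 2 ≤ tau m) : 3 ≤ m := by
  by_contra hc
  unfold tau at h
  split_ifs at h <;> first | linarith | omega
lemma six_le_of_tau {m : ℕ} (h : 2 < tau m) : 6 ≤ m := by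
  by_contra hc
  unfold tau at h
  split_ifs at h <;> first | linarith | omega

lemma lagr {W α : Type*} [Fintype W] [DecidableEq W] (L : Sym2 W → Finset α)
    (h : ∀ a b x y, a ≠ b → a ≠ x → a ≠ y → b ≠ x → b ≠ y → x ≠ y → ¬ SDR L a b x y) :
    ∑ u, ∑ v, ind (u ≠ v) * tau (L s(u, v)).card ≤ 2 * (Fintype.card W : ℝ) ^ 2 := by
  set p : W → W → ℝ := fun u v => ind (u ≠ v) * tau (L s(u, v)).card - 2 with hp
  have hne : ∀ u v, u ≠ v → p u v = tau (L s(u, v)).card - 2 := by
    intro u v huv
    simp only [hp, ind_pos huv, one_mul]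
  have hd : ∀ u, p u u = -2 := by
    intro u
    simp only [hp]
    rw [ind_neg (by simp)]
    ring
  have key := QF_nonpos (p := p)
    (by
      intro u v
      simp only [hp]
      rw [Sym2.eq_swap, ind_congr ne_comm])
    hd
    (by
      intro u v
      by_cases huv : u = v
      · subst huv
        rw [hd]
        norm_num
      · rw [hne u v huv]
        linarith [tau_le (L s(u, v)).card])
    (by
      intro u v h1
      by_cases huv : u = v
      · subst huv
        rw [hd] at h1
        linarith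
      · rw [hne u v huv] at h1 ⊢
        linarith [tau_int (m := (L s(u, v)).card) (by linarith)])
    (by
      intro u v t w huv hut huw hvt hvw htw n1 n2 n3 q1 q2 q3
      rw [hne _ _ huw] at n1 ⊢
      rw [hne _ _ hvw] at n2 ⊢
      rw [hne _ _ htw] at n3 ⊢
      rw [hne _ _ huv] at q1
      rw [hne _ _ hut] at q2
      rw [hne _ _ hvt] at q3
      have m1 := two_le_of_tau (m := (L s(u, w)).card) (fun h => n1 (by rw [h]; ring))
      have m2 := two_le_of_tau (m := (L s(v, w)).card) (fun h => n2 (by rw [h]; ring))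
      have m3 := two_le_of_tau (m := (L s(t, w)).card) (fun h => n3 (by rw [h]; ring))
      have m4 := six_le_of_tau (m := (L s(u, v)).card) (by linarith)
      have m5 := six_le_of_tau (m := (L s(u, t)).card) (by linarith)
      have m6 := three_le_of_tau (m := (L s(v, t)).card) (by linarith)
      have hn := h u v t w huv hut huw hvt hvw htw
      refine ⟨?_, ?_, ?_⟩
      · by_contra hc
        have m7 := six_le_of_tau (m := (L s(u, w)).card) (by linarith)
        refine hn (sdr_of_rank (fun i => L (six u v t w i)) ![6, 6, 6, 3, 2, 2] (by decide) ?_)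
        intro i
        fin_cases i <;> simpa [six]
      · by_contra hc
        have m7 := six_le_of_tau (m := (L s(v, w)).card) (by linarith)
        refine hn (sdr_of_rank (fun i => L (six u v t w i)) ![6, 6, 2, 3, 6, 2] (by decide) ?_)
        intro i
        fin_cases i <;> simpa [six]
      · by_contra hc
        have m7 := six_le_of_tau (m := (L s(t, w)).card) (by linarith)
        refine hn (sdr_of_rank (fun i => L (six u v t w i)) ![6, 6, 2, 3, 2, 6] (by decide) ?_)
        intro i
        fin_cases i <;> simpa [six])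
    (Fintype.card W) univ (by simp) (fun _ => 1) (fun _ => zero_le_one)
  simp only [QF, hp, one_mul, Finset.sum_sub_distrib, Finset.sum_const, Finset.card_univ,
    nsmul_eq_mul] at key
  nlinarith

end Pool.Agent.P.MP_ea05a2_co
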