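import Pool.Agent.P.MP_ea05a2_co.Stab

/-!
At least twelve colours: the maximum cut and the local hypotheses.
-/

namespace Pool.Agent.P.MP_ea05a2_co

open Finset

open Classical in
/-- all colours on the edges of `H` -/
noncomputable def TG {V : Type*} (α : Type*) [Fintype α] (H : SimpleGraph V) (e : Sym2 V) :
    Finset (Option α) :=
  if e ∈ H.edgeSet then (univ : Finset α).map Function.Embedding.some else {none}

/-- the complete multipartite graph of a partition -/
def KP {V : Type*} (π : V → Fin 3) : SimpleGraph V := (⊤ : SimpleGraph (Fin 3)).comap π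

lemma KP_adj {V : Type*} {π : V → Fin 3} {u v : V} : (KP π).Adj u v ↔ π u ≠ π v := Iff.rfl

lemma mem_TG {V α : Type*} [Fintype α] {H : SimpleGraph V} {e : Sym2 V} {o : Option α} :
    o ∈ TG α H e ↔ (o = none ↔ e ∉ H.edgeSet) := by
  unfold TG
  split_ifs with h
  · cases o <;> simp [h]
  · simp [h]

lemma some_mem_TG {V α : Type*} [Fintype α] {H : SimpleGraph V} {u v : V} {c : α}
    (h : H.Adj u v) : some c ∈ TG α H s(u, v) := by
  rw [mem_TG]
  simp [h]

lemma log_TG {V α : Type*} [Fintype α] (H : SimpleGraph V) (e : Sym2 V) :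
    Real.log (TG α H e).card = ind (e ∈ H.edgeSet) * Real.log (Fintype.card α) := by
  unfold TG
  split_ifs with h
  · rw [ind_pos h]
    simp
  · rw [ind_neg h]
    simp

lemma TG_nonempty {V α : Type*} [Fintype α] [Nonempty α] (H : SimpleGraph V) (e : Sym2 V) :
    (TG α H e).Nonempty := by
  unfold TG
  split_ifs <;> simp

lemma TG_card_mono {V α : Type*} [Fintype α] [Nonempty α] {H H' : SimpleGraph V} (h : H ≤ H')
    (e : Sym2 V) : (TG α H e).card ≤ (TG α H' e).card := by
  by_cases h1 : e ∈ H.edgeSet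
  · rw [TG, TG, if_pos h1, if_pos (SimpleGraph.edgeSet_mono h h1)]
  · rw [TG, if_neg h1, Finset.card_singleton]
    exact (TG_nonempty H' e).card_pos

/-- number of ordered edges inside the parts -/
noncomputable def inside {V : Type*} [Fintype V] (G : SimpleGraph V) (π : V → Fin 3) : ℝ :=
  ∑ u, ∑ v, ind (G.Adj u v ∧ π u = π v)

/-- degree of `v` into part `i` -/
noncomputable def dg {V : Type*} [Fintype V] (G : SimpleGraph V) (π : V → Fin 3) (v : V)
    (i : Fin 3) : ℝ :=
  ∑ u, ind (π u = i ∧ G.Adj v u)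

lemma inside_split {V : Type*} [Fintype V] (G : SimpleGraph V) (π : V → Fin 3) (v : V) :
    inside G π = ∑ u, ∑ w, ind (u ≠ v ∧ w ≠ v ∧ G.Adj u w ∧ π u = π w)
      + 2 * dg G π v (π v) := by
  have : ∀ u w, ind (G.Adj u w ∧ π u = π w) = ind (u ≠ v ∧ w ≠ v ∧ G.Adj u w ∧ π u = π w)
      + ind (π w = π v ∧ G.Adj v w) * ind (u = v) + ind (π u = π v ∧ G.Adj v u) * ind (w = v) := by
    intro u w
    by_cases hu : u = v <;> by_cases hw : w = v
    · subst hu
      subst hw
      simp [ind]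
    · subst hu
      rw [ind_neg (p := u ≠ u ∧ _) (by simp), ind_pos rfl, ind_neg hw]
      simp only [zero_add, mul_one, mul_zero, add_zero]
      exact ind_congr ⟨fun h => ⟨h.2.symm, h.1⟩, fun h => ⟨h.2, h.1.symm⟩⟩
    · subst hw
      rw [ind_neg (p := u ≠ w ∧ _) (by simp), ind_pos rfl, ind_neg hu]
      simp only [zero_add, mul_one, mul_zero, add_zero]
      exact ind_congr ⟨fun h => ⟨h.2, h.1.symm⟩, fun h => ⟨h.2.symm, h.1⟩⟩
    · rw [ind_neg hu, ind_neg hw]
      simp only [mul_zero, add_zero]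
      exact ind_congr ⟨fun h => ⟨hu, hw, h⟩, fun h => h.2.2⟩
  unfold inside dg
  simp only [this, Finset.sum_add_distrib]
  rw [Finset.sum_comm (f := fun u w => ind (π w = π v ∧ G.Adj v w) * ind (u = v))]
  simp only [← Finset.mul_sum, sum_ind_eq, mul_one]
  ring

lemma exists_maxcut {V : Type*} [Fintype V] [DecidableEq V] (G : SimpleGraph V) :
    ∃ π : V → Fin 3, (∀ π', inside G π ≤ inside G π') ∧ ∀ v i, dg G π v (π v) ≤ dg G π v i := by
  obtain ⟨π, -, hπ⟩ := Finset.exists_min_image univ (inside G) Finset.univ_nonempty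
  refine ⟨π, fun π' => hπ π' (Finset.mem_univ _), fun v i => ?_⟩
  have h := hπ (Function.update π v i) (Finset.mem_univ _)
  rw [inside_split G π v, inside_split G _ v, Function.update_self] at h
  have e1 : ∑ u, ∑ w, ind (u ≠ v ∧ w ≠ v ∧ G.Adj u w ∧
      Function.update π v i u = Function.update π v i w)
      = ∑ u, ∑ w, ind (u ≠ v ∧ w ≠ v ∧ G.Adj u w ∧ π u = π w) := by
    refine Finset.sum_congr rfl fun u _ => Finset.sum_congr rfl fun w _ => ind_congr ?_
    refine and_congr_right fun hu => and_congr_right fun hw => ?_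
    rw [Function.update_of_ne hu, Function.update_of_ne hw]
  have e2 : dg G (Function.update π v i) v i = dg G π v i := by
    refine Finset.sum_congr rfl fun u _ => ind_congr ?_
    refine and_congr_left fun hu => ?_
    rw [Function.update_of_ne (G.ne_of_adj hu).symm]
  rw [e1, e2] at h
  linarith

/-- size of a part -/
noncomputable def psz {V : Type*} [Fintype V] (π : V → Fin 3) (i : Fin 3) : ℝ :=
  ∑ u, ind (π u = i)

lemma sum_parts {V : Type*} [Fintype V] (π : V → Fin 3) (f : Fin 3 → ℝ) :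
    ∑ u, f (π u) = ∑ i, psz π i * f i := by
  simp only [psz, Finset.sum_mul]
  rw [Finset.sum_comm]
  refine Finset.sum_congr rfl fun u _ => ?_
  rw [← sum_mul_ind_eq f (π u)]
  exact Finset.sum_congr rfl fun i _ => by rw [mul_comm, ind_congr eq_comm]

lemma psz_sum {V : Type*} [Fintype V] (π : V → Fin 3) :
    psz π 0 + psz π 1 + psz π 2 = Fintype.card V := by
  have := sum_parts π (fun _ => 1)
  simpa [Fin.sum_univ_three] using this.symm

lemma cross_row {V : Type*} [Fintype V] (π : V → Fin 3) (v : V) :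
    ∑ u, ind (π v ≠ π u) = Fintype.card V - psz π (π v) := by
  simp only [ne_eq, ind_not, Finset.sum_sub_distrib, psz]
  rw [Finset.sum_congr rfl fun u _ => ind_congr (eq_comm (a := π v) (b := π u))]
  simp

lemma balance {V : Type*} [Fintype V] (G : SimpleGraph V) (π : V → Fin 3) (δ : ℝ)
    (hδ : δ ≤ 1 / 2000) (h1 : inside G π ≤ δ * (Fintype.card V : ℝ) ^ 2)
    (h2 : (2 / 3 - δ) * (Fintype.card V : ℝ) ^ 2 ≤ ∑ u, ∑ v, ind (G.Adj u v)) :
    (∀ i, 3 / 10 * (Fintype.card V : ℝ) ≤ psz π i ∧ psz π i ≤ 4 / 10 * (Fintype.card V : ℝ)) ∧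
      ∑ u, ∑ v, ind (¬ G.Adj u v ∧ π u ≠ π v) ≤ 2 * δ * (Fintype.card V : ℝ) ^ 2 := by
  set n : ℝ := (Fintype.card V : ℝ) with hndef
  have hn0 : 0 ≤ n := by positivity
  have hs := psz_sum π
  rw [← hndef] at hs
  have c1 : ∑ u, ∑ v, ind (π u ≠ π v) = n ^ 2 - (psz π 0 ^ 2 + psz π 1 ^ 2 + psz π 2 ^ 2) := by
    simp only [cross_row, Finset.sum_sub_distrib, sum_parts π (psz π), Fin.sum_univ_three,
      Finset.sum_const, Finset.card_univ, nsmul_eq_mul, ← hndef]
    ring
  have c2 : ∑ u, ∑ v, ind (¬ G.Adj u v ∧ π u ≠ π v) + ∑ u, ∑ v, ind (G.Adj u v)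
      = ∑ u, ∑ v, ind (π u ≠ π v) + inside G π := by
    unfold inside
    simp only [← Finset.sum_add_distrib]
    refine Finset.sum_congr rfl fun u _ => Finset.sum_congr rfl fun v _ => ?_
    by_cases a : G.Adj u v <;> by_cases b : π u = π v <;> simp [ind, a, b]
  have c3 : 0 ≤ ∑ u, ∑ v, ind (¬ G.Adj u v ∧ π u ≠ π v) :=
    Finset.sum_nonneg fun _ _ => Finset.sum_nonneg fun _ _ => ind_nonneg _
  have c4 := mul_le_mul_of_nonneg_right hδ (sq_nonneg n)
  set a := psz π 0
  set b := psz π 1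
  set c := psz π 2
  have key : ∀ x y z : ℝ, x + y + z = n → x ^ 2 + y ^ 2 + z ^ 2 ≤ (1 / 3 + 1 / 1000) * n ^ 2 →
      3 / 10 * n ≤ x := by
    intro x y z h h'
    by_contra hc
    push Not at hc
    have e : y + z = n - x := by linarith
    have e2 : (n - x) ^ 2 ≤ 2 * (y ^ 2 + z ^ 2) := by
      rw [← e]
      nlinarith [sq_nonneg (y - z)]
    nlinarith [mul_pos (sub_pos.2 hc) (sub_pos.2 hc), mul_nonneg hn0 (sub_pos.2 hc).le,
      sq_nonneg n]
  have hq : a ^ 2 + b ^ 2 + c ^ 2 ≤ (1 / 3 + 1 / 1000) * n ^ 2 := by nlinarith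
  have ka := key a b c hs hq
  have kb := key b a c (by linarith) (by linarith)
  have kc := key c a b (by linarith) (by linarith)
  refine ⟨fun i => ?_, ?_⟩
  · fin_cases i
    · exact ⟨ka, show a ≤ _ by linarith⟩
    · exact ⟨kb, show b ≤ _ by linarith⟩
    · exact ⟨kc, show c ≤ _ by linarith⟩
  · have : n ^ 2 ≤ 3 * (a ^ 2 + b ^ 2 + c ^ 2) := by
      rw [← hs]
      nlinarith [sq_nonneg (a - b), sq_nonneg (a - c), sq_nonneg (b - c)]
    linarith

lemma dfc_KP {V α : Type*} [Fintype V] [Fintype α] {G : SimpleGraph V} (π : V → Fin 3)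
    {χ : Sym2 V → Option α} (hG : OnG G χ) :
    dfc χ (TG α (KP π)) ≤ inside G π + ∑ u, ∑ v, ind (¬ G.Adj u v ∧ π u ≠ π v) := by
  unfold dfc inside
  simp only [← Finset.sum_add_distrib]
  refine Finset.sum_le_sum fun u _ => Finset.sum_le_sum fun v _ =>
    le_trans (ind_mono fun h => ?_) (ind_or_le _ _)
  rw [mem_TG, hG, SimpleGraph.mem_edgeSet, SimpleGraph.mem_edgeSet, KP_adj] at h
  tauto

lemma three_lists {α : Type*} [Fintype α] (hs : 8 ≤ Fintype.card α) (Λ : Fin 3 → Finset α)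
    (hne : ∀ i, (Λ i).Nonempty)
    (h : ¬ ∃ col : Fin 3 → α, Function.Injective col ∧ ∀ i, col i ∈ Λ i) :
    (Λ 0).card * (Λ 1).card * (Λ 2).card ≤ Fintype.card α := by
  classical
  rw [← Finset.all_card_le_biUnion_card_iff_exists_injective] at h
  push Not at h
  obtain ⟨s, hs'⟩ := h
  have a : ∀ i ∈ s, (Λ i).card < s.card := fun i hi =>
    lt_of_le_of_lt (Finset.card_le_card (Finset.subset_biUnion_of_mem Λ hi)) hs'
  have p0 := (hne 0).card_pos
  have p1 := (hne 1).card_pos
  have p2 := (hne 2).card_pos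
  have q0 := Finset.card_le_univ (Λ 0)
  have q1 := Finset.card_le_univ (Λ 1)
  have q2 := Finset.card_le_univ (Λ 2)
  have hcases : ∀ s : Finset (Fin 3), s = ∅ ∨ (∃ i ∈ s, s.card = 1) ∨
      (s.card = 2 ∧ ((0 ∈ s ∧ 1 ∈ s) ∨ (0 ∈ s ∧ 2 ∈ s) ∨ (1 ∈ s ∧ 2 ∈ s))) ∨
      (s.card = 3 ∧ 0 ∈ s ∧ 1 ∈ s ∧ 2 ∈ s) := by decide
  rcases hcases s with rfl | ⟨i, hi, h1⟩ | ⟨h2, h | h | h⟩ | ⟨h3, h0, h1, h2⟩
  · simp at hs'
  · have := a i hi
    have := (hne i).card_pos
    omega
  · have e0 : (Λ 0).card = 1 := by have := a 0 h.1; omega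
    have e1 : (Λ 1).card = 1 := by have := a 1 h.2; omega
    rw [e0, e1]
    omega
  · have e0 : (Λ 0).card = 1 := by have := a 0 h.1; omega
    have e1 : (Λ 2).card = 1 := by have := a 2 h.2; omega
    rw [e0, e1]
    omega
  · have e0 : (Λ 1).card = 1 := by have := a 1 h.1; omega
    have e1 : (Λ 2).card = 1 := by have := a 2 h.2; omega
    rw [e0, e1]
    omega
  · have b0 : (Λ 0).card ≤ 2 := by have := a 0 h0; omega
    have b1 : (Λ 1).card ≤ 2 := by have := a 1 h1; omega
    have b2 : (Λ 2).card ≤ 2 := by have := a 2 h2; omega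
    calc _ ≤ 2 * 2 * 2 := by gcongr
      _ ≤ _ := by omega

lemma large_edge {V α : Type*} [Fintype V] [Fintype α] (hs : 6 ≤ Fintype.card α)
    {G : SimpleGraph V} (π : V → Fin 3) {m m' : ℝ} (hm : m ≤ m') {χ : Sym2 V → Option α}
    (hQ : QT (TG α (KP π)) m χ) (hR : RF χ) (hG : OnG G χ) (m3 : ∀ j, m ≤ psz π j) (a b : V)
    (h : χ s(a, b) ∉ TG α (G ⊓ KP π) s(a, b)) :
    a ≠ b ∧ ∃ w, EdgeOK (TG α (KP π)) (fun j => univ.filter fun u => π u = j) m' χ a (b, w) := by
  classical
  rw [mem_TG, hG, SimpleGraph.mem_edgeSet, SimpleGraph.mem_edgeSet, SimpleGraph.inf_adj,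
    KP_adj] at h
  have he : G.Adj a b := by tauto
  have hab : π a = π b := by tauto
  obtain ⟨c, hc⟩ := Option.ne_none_iff_exists'.1 (fun hn => (hG s(a, b)).1 hn he)
  obtain ⟨p1, h1, p2, h2, p3, h3, p4, h4, p5, h5, hn⟩ := exists_five (univ.erase c) (by
    rw [Finset.card_erase_of_mem (Finset.mem_univ _), Finset.card_univ]
    omega)
  have hj : ∀ j : Fin 3, j + 1 ≠ j + 2 ∧ j + 1 ≠ j ∧ j + 2 ≠ j := by decide
  obtain ⟨j1, j2, j3⟩ := hj (π a)
  have hd : ∀ {i j : Fin 3}, i ≠ j →
      Disjoint (univ.filter fun u => π u = i) (univ.filter fun u => π u = j) := by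
    intro i j hij
    refine Finset.disjoint_left.2 fun x hx hy => hij ?_
    rw [← (Finset.mem_filter.1 hx).2, ← (Finset.mem_filter.1 hy).2]
  have hne : ∀ {i j : Fin 3}, i ≠ j → ∀ x ∈ (univ.filter fun u => π u = i),
      ∀ y ∈ (univ.filter fun u => π u = j), some p5 ∈ TG α (KP π) s(x, y) := by
    intro i j hij x hx y hy
    refine some_mem_TG ?_
    rwa [KP_adj, (Finset.mem_filter.1 hx).2, (Finset.mem_filter.1 hy).2]
  have hal : ∀ {i : Fin 3}, i ≠ π a → ∀ p q : α, ∀ x ∈ (univ.filter fun u => π u = i),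
      x ≠ a → x ≠ b → some p ∈ TG α (KP π) s(a, x) ∧ some q ∈ TG α (KP π) s(b, x) := by
    intro i hi p q x hx _ _
    refine ⟨some_mem_TG ?_, some_mem_TG ?_⟩
    · rw [KP_adj, (Finset.mem_filter.1 hx).2]
      exact hi.symm
    · rw [KP_adj, (Finset.mem_filter.1 hx).2, ← hab]
      exact hi.symm
  refine ⟨G.ne_of_adj he, edge_ok hm hQ hR (fun j => univ.filter fun u => π u = j) a b
    (π a + 1) (π a + 2) (π a) (hd j1) (hd j2) (hd j3) ?_ (c0 := c)
    (List.nodup_cons.2 ⟨?_, hn⟩) hc (hal j2 _ _) (hal j3 _ _) (hne j1) (hne j2) (hne j3)⟩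
  · rw [card_filter_ind]
    exact m3 _
  · simp only [List.mem_cons, List.not_mem_nil, or_false]
    rintro (rfl | rfl | rfl | rfl | rfl) <;> simp_all

open Classical in
/-- lists at a vertex of a given type -/
noncomputable def TvL {V α : Type*} [Fintype α] (G : SimpleGraph V) (π : V → Fin 3)
    (τ : Option (Fin 3 → Finset α)) (v u : V) : Finset (Option α) :=
  τ.elim (TG α (G ⊓ KP π) s(v, u))
    fun Λ => if G.Adj v u then (Λ (π u)).map Function.Embedding.some else {none}

lemma large_vert {V α : Type*} [Fintype V] [Fintype α] (hs : 8 ≤ Fintype.card α)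
    {G : SimpleGraph V} (π : V → Fin 3) (hcut : ∀ v i, dg G π v (π v) ≤ dg G π v i)
    (hbal : ∀ i, psz π i ≤ 4 / 10 * (Fintype.card V : ℝ))
    {m m' γ : ℝ} (hm0 : 0 ≤ m) (hm : 3 * (Fintype.card α * m) ≤ m')
    (hm2 : Fintype.card α * m ≤ γ * Fintype.card V / 2) (hγ : γ ≤ 1 / 100)
    {χ : Sym2 V → Option α} (hQ : QT (TG α (KP π)) m χ)
    (hR : RF χ) (hG : OnG G χ) (v : V) (hv : γ * Fintype.card V ≤ ddeg χ (TG α (KP π)) v) :
    ∃ τ, VertOK (TG α (KP π)) (TvL G π τ v) m' (γ * Fintype.card V / 2) χ v := by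
  classical
  set n : ℝ := (Fintype.card V : ℝ) with hndef
  have hn0 : 0 ≤ n := by positivity
  set Λ : Fin 3 → Finset α := fun i =>
    univ.filter fun c => m ≤ ∑ u, ind (π u = i ∧ χ s(v, u) = some c) with hΛ
  have hrare := fun i => rare_le (fun u => χ s(v, u)) (fun u => π u = i) m hm0 (Λ i) (by
    intro c hc
    have : ¬ m ≤ ∑ u, ind (π u = i ∧ χ s(v, u) = some c) := by simpa [hΛ] using hc
    exact (not_le.1 this).le)
  have hadj : ∀ u, G.Adj v u → ∃ c, χ s(v, u) = some c := fun u h =>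
    Option.ne_none_iff_exists'.1 (fun hn => (hG _).1 hn h)
  have hl1 : 1 ≤ Real.log (Fintype.card α) := by
    have h1 := log_card_mono (show 4 ≤ Fintype.card α by omega)
    have h2 : Real.log (2 ^ 2) = 2 * Real.log 2 := by
      rw [Real.log_pow]
      norm_num
    have h3 := Real.log_two_gt_d9
    norm_num at h1 h2
    linarith
  have hsm : 0 ≤ (Fintype.card α : ℝ) * m := by positivity
  by_cases hemp : ∃ i, Λ i = ∅
  · obtain ⟨i, hi⟩ := hemp
    have a0 : dg G π v (π v) ≤ Fintype.card α * m := by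
      refine (hcut v i).trans (le_trans (Finset.sum_le_sum fun u _ => ind_mono ?_) (hrare i))
      rintro ⟨h1, h2⟩
      obtain ⟨c, hc⟩ := hadj u h2
      exact ⟨h1, c, hc, by simp [hi]⟩
    refine ⟨none, ?_, ?_⟩
    · refine le_trans (Finset.sum_le_sum fun u _ => ind_mono fun h => ?_)
        (a0.trans (by linarith))
      simp only [TvL, Option.elim_none] at h
      rw [mem_TG, hG, SimpleGraph.mem_edgeSet, SimpleGraph.mem_edgeSet, SimpleGraph.inf_adj,
        KP_adj] at h
      tauto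
    · have a1 : ∀ u, Real.log (TvL G π (none : Option (Fin 3 → Finset α)) v u).card
          ≤ Real.log (TG α (KP π) s(v, u)).card - ind (¬ G.Adj v u ∧ π v ≠ π u) := by
        intro u
        simp only [TvL, Option.elim_none, log_TG, SimpleGraph.mem_edgeSet, SimpleGraph.inf_adj,
          KP_adj]
        by_cases b1 : G.Adj v u <;> by_cases b2 : π v = π u <;> simp [ind, b1, b2, hl1]
      have a2 : ddeg χ (TG α (KP π)) v ≤ dg G π v (π v)
          + ∑ u, ind (¬ G.Adj v u ∧ π v ≠ π u) := by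
        unfold ddeg dg
        rw [← Finset.sum_add_distrib]
        refine Finset.sum_le_sum fun u _ => le_trans (ind_mono fun h => ?_) (ind_or_le _ _)
        rw [mem_TG, hG, SimpleGraph.mem_edgeSet, SimpleGraph.mem_edgeSet, KP_adj] at h
        tauto
      refine (Finset.sum_le_sum fun u _ => a1 u).trans ?_
      rw [Finset.sum_sub_distrib]
      linarith
  have hne : ∀ i, (Λ i).Nonempty := fun i =>
    Finset.nonempty_iff_ne_empty.2 fun h => hemp ⟨i, h⟩
  have hprod := three_lists hs Λ hne (by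
    rintro ⟨col, hc1, hc2⟩
    obtain ⟨d1, hd1, d2, hd2, d3, hd3, hnd⟩ := exists_three
      (((univ.erase (col 0)).erase (col 1)).erase (col 2)) (by
        have b0 := Finset.pred_card_le_card_erase (s := univ) (a := col 0)
        have b1 := Finset.pred_card_le_card_erase (s := univ.erase (col 0)) (a := col 1)
        have b2 := Finset.pred_card_le_card_erase (s := (univ.erase (col 0)).erase (col 1))
          (a := col 2)
        rw [Finset.card_univ] at b0
        omega)
    simp only [Finset.mem_erase] at hd1 hd2 hd3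
    have hcard : ∀ i, m ≤ ((univ.filter fun u => π u = i ∧ χ s(v, u) = some (col i)).card : ℝ) := by
      intro i
      rw [card_filter_ind]
      simpa [hΛ] using hc2 i
    have hal : ∀ {i j : Fin 3}, i ≠ j → ∀ d : α,
        ∀ x ∈ (univ.filter fun u => π u = i ∧ χ s(v, u) = some (col i)),
        ∀ y ∈ (univ.filter fun u => π u = j ∧ χ s(v, u) = some (col j)), x ≠ y →
          some d ∈ TG α (KP π) s(x, y) := by
      intro i j hij d x hx y hy _
      refine some_mem_TG ?_
      rwa [KP_adj, (Finset.mem_filter.1 hx).2.1, (Finset.mem_filter.1 hy).2.1]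
    refine rainbow_of_Q hQ hR v _ _ _ (d1 := d1) (d2 := d2) (d3 := d3) ?_ (hcard 0)
      (hcard 1) (hcard 2) (fun x hx => (Finset.mem_filter.1 hx).2.2)
      (fun x hx => (Finset.mem_filter.1 hx).2.2) (fun x hx => (Finset.mem_filter.1 hx).2.2)
      (hal (by decide) _) (hal (by decide) _) (hal (by decide) _)
    refine List.nodup_cons.2 ⟨?_, List.nodup_cons.2 ⟨?_, List.nodup_cons.2 ⟨?_, hnd⟩⟩⟩
    · simp only [List.mem_cons, List.not_mem_nil, or_false, hc1.eq_iff]
      rintro (h | h | h | h | h)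
      exacts [absurd h (by decide), absurd h (by decide), hd1.2.2.1 h.symm, hd2.2.2.1 h.symm,
        hd3.2.2.1 h.symm]
    · simp only [List.mem_cons, List.not_mem_nil, or_false, hc1.eq_iff]
      rintro (h | h | h | h)
      exacts [absurd h (by decide), hd1.2.1 h.symm, hd2.2.1 h.symm, hd3.2.1 h.symm]
    · simp only [List.mem_cons, List.not_mem_nil, or_false]
      rintro (h | h | h)
      exacts [hd1.1 h.symm, hd2.1 h.symm, hd3.1 h.symm])
  refine ⟨some Λ, ?_, ?_⟩
  · have a1 : ∑ u, ind (χ s(v, u) ∉ TvL G π (some Λ) v u)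
        ≤ ∑ u, ∑ i, ind (π u = i ∧ ∃ c, χ s(v, u) = some c ∧ c ∉ Λ i) := by
      refine Finset.sum_le_sum fun u _ => le_trans (ind_mono fun h => ?_) (ind_exists_le _)
      simp only [TvL, Option.elim_some] at h
      by_cases ha : G.Adj v u
      · obtain ⟨c, hc⟩ := hadj u ha
        refine ⟨π u, rfl, c, hc, fun hm => h ?_⟩
        rw [hc, if_pos ha]
        exact Finset.mem_map_of_mem _ hm
      · exfalso
        apply h
        rw [(hG _).2 ha, if_neg ha]
        simp
    rw [Finset.sum_comm, Fin.sum_univ_three] at a1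
    linarith [hrare 0, hrare 1, hrare 2]
  · have a1 : ∀ u, Real.log (TvL G π (some Λ) v u).card ≤ Real.log (Λ (π u)).card := by
      intro u
      simp only [TvL, Option.elim_some]
      split_ifs
      · rw [Finset.card_map]
      · simpa using log_card_nonneg (Λ (π u))
    refine (Finset.sum_le_sum fun u _ => a1 u).trans ?_
    rw [sum_parts π (fun i => Real.log (Λ i).card), Fin.sum_univ_three]
    simp only [log_TG, SimpleGraph.mem_edgeSet, KP_adj, ← Finset.sum_mul, cross_row, ← hndef]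
    have b0 := mul_le_mul_of_nonneg_right (hbal 0) (log_card_nonneg (Λ 0))
    have b1 := mul_le_mul_of_nonneg_right (hbal 1) (log_card_nonneg (Λ 1))
    have b2 := mul_le_mul_of_nonneg_right (hbal 2) (log_card_nonneg (Λ 2))
    have b3 := log_card_mono hprod
    have p0 : (0 : ℝ) < (Λ 0).card := by exact_mod_cast (hne 0).card_pos
    have p1 : (0 : ℝ) < (Λ 1).card := by exact_mod_cast (hne 1).card_pos
    have p2 : (0 : ℝ) < (Λ 2).card := by exact_mod_cast (hne 2).card_pos
    push_cast at b3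
    rw [Real.log_mul (by positivity) p2.ne', Real.log_mul p0.ne' p1.ne'] at b3
    have b4 := mul_le_mul_of_nonneg_left b3 hn0
    have b5 := mul_le_mul_of_nonneg_right (hbal (π v))
      (show 0 ≤ Real.log (Fintype.card α) by linarith)
    have b6 := mul_le_mul_of_nonneg_left hl1 hn0
    have b7 := mul_le_mul_of_nonneg_right hγ hn0
    nlinarith

end Pool.Agent.P.MP_ea05a2_co
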