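import Pool.Agent.P.MP_ea05a2_co.LargeA

/-!
At least twelve colours: graphs containing a complete graph on four vertices lose against the
Turan graph.
-/

namespace Pool.Agent.P.MP_ea05a2_co

open Finset

/-- four mutually adjacent vertices -/
def HasK4 {V : Type*} (G : SimpleGraph V) : Prop :=
  ∃ a b x y, G.Adj a b ∧ G.Adj a x ∧ G.Adj a y ∧ G.Adj b x ∧ G.Adj b y ∧ G.Adj x y

lemma cliqueFree_iff_not_hasK4 {V : Type*} (G : SimpleGraph V) : G.CliqueFree 4 ↔ ¬ HasK4 G := by
  classical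
  constructor
  · rintro h ⟨a, b, x, y, h1, h2, h3, h4, h5, h6⟩
    refine h {a, b, x, y} ⟨?_, ?_⟩
    · simp [h1, h2, h3, h4, h5, h6]
    · rw [Finset.card_insert_of_notMem, Finset.card_insert_of_notMem,
        Finset.card_pair h6.ne]
      · simp [h4.ne, h5.ne]
      · simp [h1.ne, h2.ne, h3.ne]
  · intro h t ht
    obtain ⟨z, hz, hzt⟩ := exists_enum t ht.2.ge
    have : ∀ i j, i ≠ j → G.Adj (z i) (z j) := fun i j hij =>
      ht.1 (hzt i) (hzt j) (hz.ne hij)
    exact h ⟨z 0, z 1, z 2, z 3, this _ _ (by decide), this _ _ (by decide),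
      this _ _ (by decide), this _ _ (by decide), this _ _ (by decide), this _ _ (by decide)⟩

lemma HasK4.inside {V : Type*} {G : SimpleGraph V} (h : HasK4 G) (π : V → Fin 3) :
    ∃ u v, G.Adj u v ∧ π u = π v := by
  obtain ⟨a, b, x, y, h1, h2, h3, h4, h5, h6⟩ := h
  have : ∀ i j k l : Fin 3, i = j ∨ i = k ∨ i = l ∨ j = k ∨ j = l ∨ k = l := by decide
  rcases this (π a) (π b) (π x) (π y) with h | h | h | h | h | h
  exacts [⟨_, _, h1, h⟩, ⟨_, _, h2, h⟩, ⟨_, _, h3, h⟩, ⟨_, _, h4, h⟩, ⟨_, _, h5, h⟩,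
    ⟨_, _, h6, h⟩]

lemma not_hasK4_KP {V : Type*} (π : V → Fin 3) : ¬ HasK4 (KP π) := by
  intro h
  obtain ⟨u, v, h1, h2⟩ := h.inside π
  exact KP_adj.1 h1 h2

lemma card_pi_TG {V : Type*} [Fintype V] [DecidableEq V] (α : Type*) [Fintype α]
    (H : SimpleGraph V) :
    (Fintype.piFinset (TG α H)).card = Fintype.card α ^ H.edgeSet.ncard := by
  classical
  rw [Fintype.card_piFinset]
  have : ∀ e, (TG α H e).card = if e ∈ H.edgeSet then Fintype.card α else 1 := by
    intro e
    unfold TG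
    split_ifs <;> simp
  simp only [this]
  rw [Finset.prod_ite, Finset.prod_const, Finset.prod_const_one, mul_one]
  congr 1
  rw [← Set.ncard_coe_finset]
  congr 1
  ext e
  simp

lemma RFS_card_of_free {V : Type} [Fintype V] [DecidableEq V] (α : Type) [Fintype α]
    {H : SimpleGraph V} (h : ¬ HasK4 H) :
    (RFS α H).card = Fintype.card α ^ H.edgeSet.ncard := by
  rw [← card_pi_TG]
  congr 1
  ext χ
  rw [mem_RFS, Fintype.mem_piFinset]
  simp only [mem_TG]
  refine ⟨fun h => h.2, fun hG => ⟨fun a b x y col _ hall => h ?_, hG⟩⟩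
  have : ∀ i, six a b x y i ∈ H.edgeSet := by
    intro i
    by_contra hc
    have := (hG _).2 hc
    rw [hall i] at this
    cases this
  exact ⟨a, b, x, y, this 0, this 1, this 2, this 3, this 4, this 5⟩

theorem large_main (α : Type) [Fintype α] [DecidableEq α] (hs : 12 ≤ Fintype.card α) :
    ∃ n0 : ℕ, ∀ (V : Type) [Fintype V] [DecidableEq V], n0 ≤ Fintype.card V →
      ∀ (G : SimpleGraph V) (t : ℕ), HasK4 G → (∀ π : V → Fin 3, (KP π).edgeSet.ncard ≤ t) →
        (Fintype.card V : ℝ) ^ 2 / 3 - Fintype.card V ≤ t →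
        (RFS α G).card < Fintype.card α ^ t := by
  classical
  have : Nonempty α := Fintype.card_pos_iff.1 (by omega)
  obtain ⟨γ, μ, δ1, hγ0, hμ0, hδ10, hγ1, n1, hloc⟩ :=
    local_bound (Option α) (Option (Fin 3 → Finset α)) (1 / 4) (by norm_num)
  set s : ℝ := (Fintype.card α : ℝ) with hsdef
  have hs1 : 1 ≤ s := by
    rw [hsdef]
    exact_mod_cast (by omega : 1 ≤ Fintype.card α)
  have hls : 0 ≤ Real.log s := Real.log_nonneg hs1
  set μ' : ℝ := min (μ / 3) (γ / 2) / s with hμ'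
  have hμ'0 : 0 < μ' := by positivity
  have hsμ : s * μ' = min (μ / 3) (γ / 2) := by
    rw [hμ']
    field_simp
  have hμ1 : s * μ' ≤ μ / 3 := hsμ ▸ min_le_left _ _
  have hμ2 : s * μ' ≤ γ / 2 := hsμ ▸ min_le_right _ _
  have hμ3 : μ' ≤ s * μ' := le_mul_of_one_le_left hμ'0.le hs1
  obtain ⟨δ2, hδ20, n2, htyp⟩ := typ_bound (Option α) μ' (1 / 4) hμ'0 (by norm_num)
  set δ : ℝ := min (min δ1 δ2 / 3) (1 / 2000) with hδ
  have hδ0 : 0 < δ := lt_min (by positivity) (by norm_num)
  have hδ1 : 3 * δ ≤ δ1 := by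
    have a := min_le_left (min δ1 δ2 / 3) (1 / 2000)
    have b := min_le_left δ1 δ2
    linarith
  have hδ2 : 3 * δ ≤ δ2 := by
    have a := min_le_left (min δ1 δ2 / 3) (1 / 2000)
    have b := min_le_right δ1 δ2
    linarith
  have hδ3 : δ ≤ 1 / 2000 := min_le_right _ _
  obtain ⟨ε1, δ0, hε1, hδ00, n3, hstab⟩ := large_stab α hs (δ / 2) (by positivity)
  obtain ⟨n4, hfar⟩ := far_bound α (δ0 / 4) (min ε1 (δ / 2)) (by positivity) (by positivity)
  obtain ⟨n5, hn5⟩ := quad_large (δ0 / 4) (Real.log s) (1 / (1 / 4)) (by positivity) hls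
    (by positivity)
  refine ⟨max (max n1 n2) (max n3 (max n4 n5)), fun V _ _ hn G t hK ht1 ht2 => ?_⟩
  have hn1 : n1 ≤ Fintype.card V := (le_max_left _ _).trans ((le_max_left _ _).trans hn)
  have hn2 : n2 ≤ Fintype.card V := (le_max_right _ _).trans ((le_max_left _ _).trans hn)
  have hn3 : n3 ≤ Fintype.card V := (le_max_left _ _).trans ((le_max_right _ _).trans hn)
  have hn4 : n4 ≤ Fintype.card V := (le_max_left _ _).trans
    ((le_max_right _ _).trans ((le_max_right _ _).trans hn))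
  have hn5' : n5 ≤ Fintype.card V := (le_max_right _ _).trans
    ((le_max_right _ _).trans ((le_max_right _ _).trans hn))
  set n : ℝ := (Fintype.card V : ℝ) with hndef
  have hn0 : 0 ≤ n := by positivity
  have hM : 0 < s ^ t := by positivity
  suffices h : ((RFS α G).card : ℝ) ≤ 1 / 2 * s ^ t by
    have : ((RFS α G).card : ℝ) < s ^ t := by linarith
    rw [hsdef] at this
    exact_mod_cast this
  by_cases hc : ∀ χ ∈ RFS α G, ∀ L, Approx (min ε1 (δ / 2)) G χ L →
      ∑ u, ∑ v, Real.log (L s(u, v)).card ≤ (2 / 3 * Real.log s - δ0) * n ^ 2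
  · refine (hfar V hn4 G _ _ (fun χ hχ => mem_RFS.1 hχ) hc).trans ?_
    have e1 := hn5 _ hn5'
    rw [← hndef] at e1
    have e2 : s ^ t = Real.exp (t * Real.log s) := by
      rw [Real.exp_nat_mul, Real.exp_log (by linarith)]
    have e3 := mul_le_mul_of_nonneg_right ht2 hls
    calc _ ≤ Real.exp (-(δ0 / 4 * n ^ 2 - Real.log s * n)) * Real.exp (t * Real.log s) := by
          rw [← Real.exp_add]
          apply Real.exp_le_exp.2
          nlinarith
      _ ≤ 1 / 4 * s ^ t := by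
          rw [e2]
          exact mul_le_mul_of_nonneg_right (exp_neg_le (by norm_num) (by linarith))
            (Real.exp_pos _).le
      _ ≤ _ := by linarith
  push Not at hc
  obtain ⟨χ0, hχ0, L, ⟨hL1, hL2, hL3⟩, hlog⟩ := hc
  obtain ⟨hN, π0, hπ0⟩ := hstab V hn3 L
    (hL3.trans (mul_le_mul_of_nonneg_right (min_le_left _ _) (by positivity))) hlog.le
  obtain ⟨π, hπ1, hπ2⟩ := exists_maxcut G
  have hin : inside G π ≤ δ * n ^ 2 := by
    refine (hπ1 π0).trans ?_
    have a1 : inside G π0 ≤ ∑ u, ∑ v, ind (L s(u, v) ≠ ∅ ∧ π0 u = π0 v) + exc χ0 L := by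
      unfold inside exc
      simp only [← Finset.sum_add_distrib]
      refine Finset.sum_le_sum fun u _ => Finset.sum_le_sum fun v _ =>
        le_trans (ind_mono fun h => ?_) (ind_or_le _ _)
      by_cases h0 : L s(u, v) = ∅
      · obtain ⟨c, hc⟩ := Option.ne_none_iff_exists'.1
          (fun hn => ((mem_RFS.1 hχ0).2 s(u, v)).1 hn h.1)
        exact Or.inr ⟨c, hc, by simp [h0]⟩
      · exact Or.inl ⟨h0, h.2⟩
    have a2 := mul_le_mul_of_nonneg_right (min_le_right ε1 (δ / 2)) (sq_nonneg n)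
    rw [← hndef] at hπ0 hL2
    linarith
  have hadj : (2 / 3 - δ) * n ^ 2 ≤ ∑ u, ∑ v, ind (G.Adj u v) := by
    refine le_trans (mul_le_mul_of_nonneg_right (by linarith) (sq_nonneg n)) (hN.trans ?_)
    refine Finset.sum_le_sum fun u _ => Finset.sum_le_sum fun v _ => ind_mono fun h => ?_
    by_contra hna
    rw [hL1 _ hna] at h
    exact Finset.univ_nonempty.ne_empty h.symm
  obtain ⟨hbal, hcross⟩ := balance G π δ hδ3 hin hadj
  rw [← hndef] at hbal hcross
  have hdfc : ∀ χ ∈ RFS α G, dfc χ (TG α (KP π)) ≤ 3 * δ * n ^ 2 := by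
    intro χ hχ
    have := dfc_KP π (mem_RFS.1 hχ).2
    linarith
  have hZ : Real.exp (lZ (TG α (KP π))) ≤ s ^ t := by
    rw [exp_lZ _ (TG_nonempty _), card_pi_TG]
    push_cast
    exact pow_le_pow_right₀ hs1 (ht1 π)
  have ba := htyp V hn2 (TG α (KP π)) ((RFS α G).filter fun χ => ¬ QT (TG α (KP π)) (μ' * n) χ)
    (fun χ hχ => ⟨(hdfc χ (Finset.mem_filter.1 hχ).1).trans
      (mul_le_mul_of_nonneg_right hδ2 (sq_nonneg n)), (Finset.mem_filter.1 hχ).2⟩)
  have bl := hloc V hn1 (TG α (KP π)) (TG α (G ⊓ KP π)) (fun j => univ.filter fun u => π u = j)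
    (TvL G π) ((RFS α G).filter fun χ => QT (TG α (KP π)) (μ' * n) χ)
    (TG_card_mono inf_le_right) (by
      intro j
      rw [card_filter_ind]
      have := (hbal j).1
      unfold psz at this
      linarith) (by
      intro χ hχ
      obtain ⟨h0, h2⟩ := Finset.mem_filter.1 hχ
      obtain ⟨hR, hO⟩ := mem_RFS.1 h0
      refine ⟨?_, ?_, (hdfc χ h0).trans (mul_le_mul_of_nonneg_right hδ1 (sq_nonneg n)),
        fun v hv => ?_, fun a b hab => ?_⟩
      · obtain ⟨u, v, h1, h3⟩ := hK.inside π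
        refine ⟨s(u, v), ?_⟩
        rw [mem_TG, hO, SimpleGraph.mem_edgeSet, SimpleGraph.mem_edgeSet, SimpleGraph.inf_adj,
          KP_adj]
        tauto
      · intro e he hm
        apply he
        ext o
        rw [mem_TG, hO] at hm
        rw [mem_TG, mem_TG, SimpleGraph.edgeSet_inf, Set.mem_inter_iff]
        tauto
      · refine large_vert (by omega) π hπ2 (fun i => (hbal i).2) (by positivity) ?_ ?_ hγ1 h2 hR
          hO v hv
        · nlinarith [mul_le_mul_of_nonneg_right hμ1 hn0]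
        · nlinarith [mul_le_mul_of_nonneg_right hμ2 hn0]
      · refine large_edge (by omega) π ?_ h2 hR hO (fun j => le_trans ?_ (hbal j).1) a b hab
        · exact mul_le_mul_of_nonneg_right (by linarith) hn0
        · exact mul_le_mul_of_nonneg_right (by linarith) hn0)
  have hsum := Finset.card_filter_add_card_filter_not (s := RFS α G)
    (fun χ => QT (TG α (KP π)) (μ' * n) χ)
  have hsum' : (((RFS α G).filter fun χ => QT (TG α (KP π)) (μ' * n) χ).card : ℝ)
      + (((RFS α G).filter fun χ => ¬ QT (TG α (KP π)) (μ' * n) χ).card : ℝ)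
      = (RFS α G).card := by exact_mod_cast hsum
  linarith

end Pool.Agent.P.MP_ea05a2_co
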