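import Pool.Agent.P.MP_ea05a2_co.Typ

/-!
The count of one class in the local analysis.
-/

namespace Pool.Agent.P.MP_ea05a2_co

open Finset

lemma card_sym2_le_rel {V : Type*} [Fintype V] [DecidableEq V] (P : Sym2 V → Prop)
    [DecidablePred P] (R : V → V → Prop) (h : ∀ u v, P s(u, v) → R u v ∨ R v u) :
    ((univ.filter P).card : ℝ) ≤ ∑ u, ∑ v, ind (R u v) := by
  classical
  have : (univ.filter P).card ≤ (univ.filter fun x : V × V => R x.1 x.2).card := by
    refine le_trans (Finset.card_le_card ?_) (Finset.card_image_le (f := fun x => s(x.1, x.2)))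
    intro e he
    induction e using Sym2.ind with
    | _ a b =>
      rcases h a b (Finset.mem_filter.1 he).2 with h1 | h1
      · exact Finset.mem_image.2 ⟨(a, b), by simpa using h1, rfl⟩
      · exact Finset.mem_image.2 ⟨(b, a), by simpa using h1, Sym2.eq_swap⟩
  refine le_trans (Nat.cast_le.2 this) (le_of_eq ?_)
  rw [card_filter_ind, Fintype.sum_prod_type]

lemma sum_ind_mem_mul {β : Type*} [Fintype β] (A : Finset β) (f : β → ℝ) :
    ∑ x, ind (x ∈ A) * f x = ∑ x ∈ A, f x := by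
  rw [← Finset.sum_subset (Finset.subset_univ A)]
  · exact Finset.sum_congr rfl fun x hx => by rw [ind_pos hx, one_mul]
  · intro x _ hx
    rw [ind_neg hx, zero_mul]

lemma log_card_nonneg {C : Type*} (A : Finset C) : 0 ≤ Real.log (A.card : ℝ) :=
  Real.log_natCast_nonneg _

lemma log_card_mono {a b : ℕ} (h : a ≤ b) : Real.log (a : ℝ) ≤ Real.log (b : ℝ) := by
  rcases Nat.eq_zero_or_pos a with rfl | ha
  · simpa using Real.log_natCast_nonneg b
  · exact Real.log_le_log (by exact_mod_cast ha) (by exact_mod_cast h)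

lemma log_card_le {C : Type*} [Fintype C] (A : Finset C) :
    Real.log (A.card : ℝ) ≤ Fintype.card C :=
  (log_card_mono (Finset.card_le_univ A)).trans (Real.log_le_self (by positivity))

/-- the lists used for one class -/
def classList {V C : Type*} [DecidableEq V] [Fintype C] (D : Finset V) (Lv : V → V → Finset C)
    (T0 : Sym2 V → Finset C) : Sym2 V → Finset C :=
  Sym2.lift ⟨fun u v => if u ∈ D then (if v ∈ D then univ else Lv u v)
    else if v ∈ D then Lv v u else T0 s(u, v), by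
      intro u v
      by_cases hu : u ∈ D <;> by_cases hv : v ∈ D <;> simp [hu, hv, Sym2.eq_swap]⟩

lemma classList_mk {V C : Type*} [DecidableEq V] [Fintype C] (D : Finset V)
    (Lv : V → V → Finset C) (T0 : Sym2 V → Finset C) (u v : V) :
    classList D Lv T0 s(u, v) = if u ∈ D then (if v ∈ D then univ else Lv u v)
      else if v ∈ D then Lv v u else T0 s(u, v) := rfl

lemma classList_log {V C : Type*} [Fintype V] [DecidableEq V] [Fintype C] (D : Finset V)
    (Lv : V → V → Finset C) (T T0 : Sym2 V → Finset C)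
    (hT0 : ∀ e, (T0 e).card ≤ (T e).card) (y : ℝ)
    (hD : ∀ v ∈ D, ∑ u, Real.log (Lv v u).card ≤ ∑ u, Real.log (T s(v, u)).card - y) :
    ∑ e, Real.log (classList D Lv T0 e).card
      ≤ lZ T - y * D.card + 2 * Fintype.card C * (D.card : ℝ) ^ 2 := by
  set K : ℝ := (Fintype.card C : ℝ) with hK
  have hK0 : 0 ≤ K := by positivity
  set ρ : Sym2 V → ℝ := fun e => Real.log (classList D Lv T0 e).card - Real.log (T e).card
    with hρ
  set r : V → V → ℝ := fun u v => Real.log (Lv u v).card - Real.log (T s(u, v)).card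
    + K * ind (v ∈ D) with hr
  have hr0 : ∀ u v, v ∈ D → 0 ≤ r u v := by
    intro u v hv
    simp only [hr, ind_pos hv]
    linarith [log_card_nonneg (Lv u v), log_card_le (T s(u, v))]
  have h1 : ∀ u v, ρ s(u, v) ≤ K * (ind (u ∈ D) * ind (v ∈ D)) + ind (u ∈ D) * r u v
      + ind (v ∈ D) * r v u := by
    intro u v
    simp only [hρ, classList_mk]
    by_cases hu : u ∈ D <;> by_cases hv : v ∈ D
    · rw [if_pos hu, if_pos hv, ind_pos hu, ind_pos hv]
      linarith [hr0 u v hv, hr0 v u hu, log_card_le (univ : Finset C),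
        log_card_nonneg (T s(u, v))]
    · rw [if_pos hu, if_neg hv, ind_pos hu, ind_neg hv]
      simp only [hr, ind_neg hv]
      linarith
    · rw [if_neg hu, if_pos hv, ind_neg hu, ind_pos hv]
      simp only [hr, ind_neg hu, Sym2.eq_swap (a := v)]
      linarith
    · rw [if_neg hu, if_neg hv, ind_neg hu, ind_neg hv]
      linarith [log_card_mono (hT0 s(u, v))]
  have h2 : ∀ v, ρ s(v, v) ≤ K * ind (v ∈ D) := by
    intro v
    simp only [hρ, classList_mk]
    by_cases hv : v ∈ D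
    · rw [if_pos hv, if_pos hv, ind_pos hv]
      linarith [log_card_le (univ : Finset C), log_card_nonneg (T s(v, v))]
    · rw [if_neg hv, if_neg hv, ind_neg hv]
      linarith [log_card_mono (hT0 s(v, v))]
  have h3 : ∑ u, ∑ v, ind (u ∈ D) * r u v ≤ (-y + K * D.card) * D.card := by
    simp only [← Finset.mul_sum]
    rw [sum_ind_mem_mul]
    calc ∑ u ∈ D, ∑ v, r u v ≤ ∑ _u ∈ D, (-y + K * D.card) := by
          refine Finset.sum_le_sum fun u hu => ?_
          simp only [hr, Finset.sum_add_distrib, Finset.sum_sub_distrib, ← Finset.mul_sum,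
            sum_ind_mem]
          linarith [hD u hu]
      _ = _ := by
          simp
          ring
  have h4 : ∑ u, ∑ v, ρ s(u, v) ≤ K * (D.card : ℝ) ^ 2 + 2 * ((-y + K * D.card) * D.card) := by
    refine (Finset.sum_le_sum fun u _ => Finset.sum_le_sum fun v _ => h1 u v).trans ?_
    simp only [Finset.sum_add_distrib]
    rw [Finset.sum_comm (f := fun u v => ind (v ∈ D) * r v u)]
    have : ∑ u, ∑ v, K * (ind (u ∈ D) * ind (v ∈ D)) = K * (D.card : ℝ) ^ 2 := by
      simp only [← Finset.mul_sum, sum_ind_mem]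
      rw [← Finset.sum_mul, sum_ind_mem, sq]
    linarith
  have h5 : ∑ v, ρ s(v, v) ≤ K * (D.card : ℝ) ^ 2 := by
    refine (Finset.sum_le_sum fun v _ => h2 v).trans ?_
    rw [← Finset.mul_sum, sum_ind_mem]
    refine mul_le_mul_of_nonneg_left ?_ hK0
    exact_mod_cast Nat.le_self_pow (by norm_num) _
  have h6 := sum_sym2 ρ
  have h7 : ∑ e, ρ e = ∑ e, Real.log (classList D Lv T0 e).card - lZ T := by
    simp only [hρ, Finset.sum_sub_distrib, lZ]
  nlinarith

lemma exists_sub {V : Type*} (A : Finset V) (n : ℕ) (hn : 20 ≤ n) (hA : A.card ≤ n) :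
    ∃ A' ⊆ A, (A'.card : ℝ) ≤ n / 20 ∧ (A.card : ℝ) ≤ 40 * A'.card := by
  obtain ⟨A', h1, h2⟩ := Finset.exists_subset_card_eq (s := A) (n := min A.card (n / 20))
    (min_le_left _ _)
  refine ⟨A', h1, ?_, ?_⟩
  · have : 20 * A'.card ≤ n := by omega
    have h3 : (20 : ℝ) * A'.card ≤ n := by exact_mod_cast this
    linarith
  · have : A.card ≤ 40 * A'.card := by omega
    exact_mod_cast this

lemma class_local {V C : Type} [Fintype V] [DecidableEq V] [Fintype C] [DecidableEq C]
    [Nonempty C]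
    (T T0 : Sym2 V → Finset C) (hT0 : ∀ e, (T0 e).card ≤ (T e).card)
    (γ μ t : ℝ) (ht0 : 0 < t) (ht : t ≤ 1 / 2) (hγ0 : 0 ≤ γ) (hγ : γ ≤ 1 / 100) (hμ : 0 ≤ μ)
    (hn : 20 ≤ Fintype.card V)
    (D A : Finset V) (Lv : V → V → Finset C) (mb : V → V) (Wa : V → Finset V) (dp dq : V → C)
    (hD : ∀ v ∈ D, ∑ u, Real.log (Lv v u).card
      ≤ ∑ u, Real.log (T s(v, u)).card - γ * Fintype.card V / 2)
    (hd : (D.card : ℝ) ≤ Fintype.card V / 50)
    (hA1 : ∀ a ∈ A, a ∉ D ∧ mb a ∉ D ∧ mb a ∉ A) (hA2 : Set.InjOn mb A)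
    (hA3 : ∀ a ∈ A, (Fintype.card V : ℝ) / 4 ≤ (Wa a).card ∧
      ∀ x ∈ Wa a, x ≠ a → x ≠ mb a → dp a ∈ T s(a, x) ∧ dq a ∈ T s(mb a, x))
    (hA4 : ∀ u, u ∉ D → ∑ x, ind (T0 s(u, x) ≠ T s(u, x)) ≤ γ * Fintype.card V)
    (X : Finset (Sym2 V → C))
    (hX1 : ∀ χ ∈ X, ∀ v ∈ D, ∑ u, ind (χ s(v, u) ∉ Lv v u) ≤ μ * Fintype.card V)
    (hX2 : ∀ χ ∈ X, ∀ a ∈ A,
      ∑ x ∈ Wa a, ind (χ s(a, x) = dp a ∧ χ s(mb a, x) = dq a) ≤ μ * Fintype.card V)
    (hX3 : ∀ χ ∈ X, ∀ u, u ∉ D → ∑ x, ind (χ s(u, x) ∉ T0 s(u, x)) ≤ γ * Fintype.card V)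
    (hX4 : ∀ χ ∈ X, ∀ u v, u ∉ D → v ∉ D → χ s(u, v) ∉ T0 s(u, v) →
      u ∈ A ∪ A.image mb ∨ v ∈ A ∪ A.image mb) :
    (X.card : ℝ) ≤ Real.exp (
      (μ * Fintype.card V * D.card + γ * Fintype.card V * (2 * A.card)
        + μ * Fintype.card V * A.card) * Real.log (1 / t)
      + t * Fintype.card C * ((D.card + 2 * A.card) * Fintype.card V)
      - A.card * Fintype.card V / (800 * (Fintype.card C : ℝ) ^ 2)
      + (lZ T - γ * Fintype.card V / 2 * D.card + 2 * Fintype.card C * (D.card : ℝ) ^ 2)) := by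
  classical
  set n : ℝ := (Fintype.card V : ℝ) with hndef
  have hn0 : 0 ≤ n := by positivity
  set K : ℝ := (Fintype.card C : ℝ) with hK
  have hK1 : 1 ≤ K := by
    rw [hK]
    exact_mod_cast Fintype.card_pos
  obtain ⟨A', hA'A, hA'1, hA'2⟩ := exists_sub A (Fintype.card V) hn (Finset.card_le_univ A)
  set M : Finset V := A ∪ A.image mb with hM
  have hMD : ∀ u ∈ M, u ∉ D := by
    intro u hu
    rcases Finset.mem_union.1 hu with h | h
    · exact (hA1 u h).1
    · obtain ⟨a, ha, rfl⟩ := Finset.mem_image.1 h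
      exact (hA1 a ha).2.1
  have hMc : (M.card : ℝ) ≤ 2 * A.card := by
    have : M.card ≤ 2 * A.card := by
      have h1 := Finset.card_union_le A (A.image mb)
      have h2 := Finset.card_image_le (s := A) (f := mb)
      rw [hM]
      omega
    exact_mod_cast this
  set good : V → V → Prop := fun a x => x ∈ Wa a ∧ x ∉ D ∧ x ∉ A' ∧ x ∉ A'.image mb ∧
    T0 s(a, x) = T s(a, x) ∧ T0 s(mb a, x) = T s(mb a, x) with hgood
  set I : Finset (V × V) := univ.filter fun p => p.1 ∈ A' ∧ good p.1 p.2 with hI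
  set Φ : Finset (Sym2 V) := univ.filter fun e => ∃ w ∈ e, w ∈ D ∨ w ∈ M with hΦ
  have hΦc : (Φ.card : ℝ) ≤ (D.card + 2 * A.card) * n := by
    refine (card_sym2_le_rel _ (fun u _ => u ∈ D ∨ u ∈ M) ?_).trans ?_
    · rintro u v ⟨w, hw, h⟩
      rcases Sym2.mem_iff.1 hw with rfl | rfl
      · exact Or.inl h
      · exact Or.inr h
    · simp only [Finset.sum_const, Finset.card_univ, nsmul_eq_mul, ← Finset.mul_sum]
      rw [mul_comm]
      refine mul_le_mul_of_nonneg_right ?_ hn0
      refine (Finset.sum_le_sum fun u _ => ind_or_le _ _).trans ?_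
      rw [Finset.sum_add_distrib, sum_ind_mem, sum_ind_mem]
      linarith
  have hIc : A'.card * (n / 10) ≤ (I.card : ℝ) := by
    rw [hI, card_filter_ind, Fintype.sum_prod_type]
    simp only [ind_and (_ ∈ A'), ← Finset.mul_sum]
    rw [sum_ind_mem_mul]
    calc A'.card * (n / 10) = ∑ _a ∈ A', n / 10 := by simp
      _ ≤ _ := by
        refine Finset.sum_le_sum fun a ha => ?_
        have ha' := hA'A ha
        have b1 : ∀ x, ind (x ∈ Wa a) - ind (x ∈ D) - ind (x ∈ A') - ind (x ∈ A'.image mb)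
            - ind (T0 s(a, x) ≠ T s(a, x)) - ind (T0 s(mb a, x) ≠ T s(mb a, x))
            ≤ ind (good a x) := by
          intro x
          have n1 := ind_nonneg (x ∈ D)
          have n2 := ind_nonneg (x ∈ A')
          have n3 := ind_nonneg (x ∈ A'.image mb)
          have n4 := ind_nonneg (T0 s(a, x) ≠ T s(a, x))
          have n5 := ind_nonneg (T0 s(mb a, x) ≠ T s(mb a, x))
          have n6 := ind_le_one (x ∈ Wa a)
          have n7 := ind_nonneg (good a x)
          by_cases g1 : x ∈ Wa a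
          swap
          · linarith [ind_neg g1]
          by_cases g2 : x ∈ D
          · linarith [ind_pos g2]
          by_cases g3 : x ∈ A'
          · linarith [ind_pos g3]
          by_cases g4 : x ∈ A'.image mb
          · linarith [ind_pos g4]
          by_cases g5 : T0 s(a, x) ≠ T s(a, x)
          · linarith [ind_pos g5]
          by_cases g6 : T0 s(mb a, x) ≠ T s(mb a, x)
          · linarith [ind_pos g6]
          linarith [ind_pos (show good a x from ⟨g1, g2, g3, g4, not_not.1 g5, not_not.1 g6⟩)]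
        have b2 := Finset.sum_le_sum fun x (_ : x ∈ (univ : Finset V)) => b1 x
        simp only [Finset.sum_sub_distrib, sum_ind_mem] at b2
        have b3 := hA4 a (hA1 a ha').1
        have b4 := hA4 (mb a) (hA1 a ha').2.1
        have b5 := (hA3 a ha').1
        have b6 : ((A'.image mb).card : ℝ) ≤ A'.card := by
          exact_mod_cast Finset.card_image_le
        have b7 : γ * n ≤ 1 / 100 * n := mul_le_mul_of_nonneg_right hγ hn0
        linarith
  have key := count_bound (ι := V × V) (κ := Fin 2) (classList D Lv T0) Φ t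
    (μ * n * D.card + γ * n * (2 * A.card)) (μ * n * A.card) ht0 ht I
    (fun p => ![s(p.1, p.2), s(mb p.1, p.2)]) (fun p => ![dp p.1, dq p.1]) ?_ ?_ X ?_ ?_ ?_
  · refine key.trans (Real.exp_le_exp.2 ?_)
    have a1 := classList_log D Lv T T0 hT0 (γ * n / 2) hD
    have a2 := mul_le_mul_of_nonneg_left hΦc (show 0 ≤ t * K by positivity)
    have a3 : A.card * n / (800 * K ^ 2) ≤ I.card / (2 * K ^ 2) := by
      rw [div_le_div_iff₀ (by positivity) (by positivity)]
      have := mul_le_mul_of_nonneg_right hA'2 hn0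
      have h2 : A.card * n ≤ 400 * (I.card : ℝ) := by linarith
      nlinarith [mul_le_mul_of_nonneg_right h2 (sq_nonneg K)]
    simp only [Fintype.card_fin]
    linarith
  · rintro ⟨a, x⟩ hax ⟨a', x'⟩ hax' k k' h
    obtain ⟨ha, -, -, g3, g4, -⟩ := (Finset.mem_filter.1 hax).2
    obtain ⟨ha', -, -, g3', g4', -⟩ := (Finset.mem_filter.1 hax').2
    simp only at ha ha' g3 g4 g3' g4'
    have n1 : a ≠ x' := fun h => g3' (h ▸ ha)
    have n2 : a' ≠ x := fun h => g3 (h ▸ ha')
    have n3 : mb a ≠ x' := fun h => g4' (h ▸ Finset.mem_image_of_mem mb ha)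
    have n4 : mb a' ≠ x := fun h => g4 (h ▸ Finset.mem_image_of_mem mb ha')
    have n5 : a ≠ mb a' := fun h => (hA1 a' (hA'A ha')).2.2 (h ▸ hA'A ha)
    have n6 : mb a ≠ a' := fun h => (hA1 a (hA'A ha)).2.2 (h ▸ hA'A ha')
    fin_cases k <;> fin_cases k' <;> simp [n1, n3, n5, n6] at h ⊢
    · exact h
    · exact ⟨hA2 (hA'A ha) (hA'A ha') h.1, h.2⟩
  · rintro ⟨a, x⟩ hax k
    obtain ⟨ha, g1, g2, g3, g4, g5, g6⟩ := (Finset.mem_filter.1 hax).2
    simp only at ha g1 g2 g3 g4 g5 g6
    obtain ⟨b1, b2, -⟩ := hA1 a (hA'A ha)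
    obtain ⟨c1, c2⟩ := (hA3 a (hA'A ha)).2 x g1 (fun h => g3 (h ▸ ha))
      (fun h => g4 (h ▸ Finset.mem_image_of_mem mb ha))
    fin_cases k
    · simpa [classList_mk, b1, g2, g5] using c1
    · simpa [classList_mk, b2, g2, g6] using c2
  · intro χ hχ e he
    induction e using Sym2.ind with
    | _ u v =>
      refine Finset.mem_filter.2 ⟨Finset.mem_univ _, ?_⟩
      by_cases hu : u ∈ D
      · exact ⟨u, by simp, Or.inl hu⟩
      by_cases hv : v ∈ D
      · exact ⟨v, by simp, Or.inl hv⟩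
      rw [classList_mk, if_neg hu, if_neg hv] at he
      rcases hX4 χ hχ u v hu hv he with h | h
      · exact ⟨u, by simp, Or.inr h⟩
      · exact ⟨v, by simp, Or.inr h⟩
  · intro χ hχ
    refine (card_sym2_le_rel _ (fun u v => (u ∈ D ∧ χ s(u, v) ∉ Lv u v) ∨
      (u ∈ M ∧ χ s(u, v) ∉ T0 s(u, v))) ?_).trans ?_
    · intro u v he
      rw [classList_mk] at he
      by_cases hu : u ∈ D <;> by_cases hv : v ∈ D
      · simp [hu, hv] at he
      · rw [if_pos hu, if_neg hv] at he
        exact Or.inl (Or.inl ⟨hu, he⟩)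
      · rw [if_neg hu, if_pos hv, Sym2.eq_swap] at he
        exact Or.inr (Or.inl ⟨hv, he⟩)
      · rw [if_neg hu, if_neg hv] at he
        rcases hX4 χ hχ u v hu hv he with h | h
        · exact Or.inl (Or.inr ⟨h, he⟩)
        · rw [Sym2.eq_swap] at he
          exact Or.inr (Or.inr ⟨h, he⟩)
    · refine (Finset.sum_le_sum fun u _ => Finset.sum_le_sum fun v _ => ind_or_le _ _).trans ?_
      simp only [Finset.sum_add_distrib, ind_and, ← Finset.mul_sum, sum_ind_mem_mul]
      have a1 : ∑ u ∈ D, ∑ v, ind (χ s(u, v) ∉ Lv u v) ≤ μ * n * D.card := by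
        refine (Finset.sum_le_sum fun u hu => hX1 χ hχ u hu).trans (le_of_eq ?_)
        simp [mul_comm]
      have a2 : ∑ u ∈ M, ∑ v, ind (χ s(u, v) ∉ T0 s(u, v)) ≤ γ * n * (2 * A.card) := by
        refine (Finset.sum_le_sum fun u hu => hX3 χ hχ u (hMD u hu)).trans ?_
        rw [Finset.sum_const, nsmul_eq_mul, mul_comm]
        exact mul_le_mul_of_nonneg_left hMc (by positivity)
      linarith
  · intro χ hχ
    rw [card_filter_ind, hI, Finset.sum_filter, Fintype.sum_prod_type]
    calc _ ≤ ∑ a, ∑ x, ind (a ∈ A) * (ind (x ∈ Wa a) *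
            ind (χ s(a, x) = dp a ∧ χ s(mb a, x) = dq a)) := by
          refine Finset.sum_le_sum fun a _ => Finset.sum_le_sum fun x _ => ?_
          split_ifs with h
          · rw [ind_pos (hA'A h.1), ind_pos h.2.1, one_mul, one_mul]
            exact ind_mono fun h => ⟨h 0, h 1⟩
          · exact mul_nonneg (ind_nonneg _) (mul_nonneg (ind_nonneg _) (ind_nonneg _))
      _ = ∑ a ∈ A, ∑ x ∈ Wa a, ind (χ s(a, x) = dp a ∧ χ s(mb a, x) = dq a) := by
          simp only [← Finset.mul_sum, sum_ind_mem_mul]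
      _ ≤ ∑ _a ∈ A, μ * n := Finset.sum_le_sum fun a ha => hX2 χ hχ a ha
      _ = _ := by simp [mul_comm]

end Pool.Agent.P.MP_ea05a2_co
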