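import Pool.Agent.P.MP_ea05a2_co.LocalA

/-!
The local analysis: colourings close to the target that use a pair outside the base lists
form a negligible set.
-/

namespace Pool.Agent.P.MP_ea05a2_co

open Finset

/-- number of pairs at `v` whose colour is outside the target list -/
noncomputable def ddeg {V C : Type*} [Fintype V] (χ : Sym2 V → C) (T : Sym2 V → Finset C)
    (v : V) : ℝ :=
  ∑ u, ind (χ s(v, u) ∉ T s(v, u))

/-- data attached to a pair coloured outside the base lists -/
def EdgeOK {V C : Type*} (T : Sym2 V → Finset C) (W : Fin 3 → Finset V) (m : ℝ)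
    (χ : Sym2 V → C) (a : V) (z : V × Fin 3 × C × C) : Prop :=
  (∀ x ∈ W z.2.1, x ≠ a → x ≠ z.1 → z.2.2.1 ∈ T s(a, x) ∧ z.2.2.2 ∈ T s(z.1, x)) ∧
    ∑ x ∈ W z.2.1, ind (χ s(a, x) = z.2.2.1 ∧ χ s(z.1, x) = z.2.2.2) ≤ m

/-- data attached to a vertex with many defects -/
def VertOK {V C : Type*} [Fintype V] (T : Sym2 V → Finset C) (Lv : V → Finset C) (m y : ℝ)
    (χ : Sym2 V → C) (v : V) : Prop :=
  ∑ u, ind (χ s(v, u) ∉ Lv u) ≤ m ∧
    ∑ u, Real.log (Lv u).card ≤ ∑ u, Real.log (T s(v, u)).card - y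

/-- a matching with data -/
def Match {V : Type*} {Z : Type*} (free : V → Prop) (ok : V → V × Z → Prop)
    (σ : V → Option (V × Z)) : Prop :=
  ∀ a z, σ a = some z → free a ∧ free z.1 ∧ σ z.1 = none ∧
    (∀ a' z', σ a' = some z' → z'.1 = z.1 → a' = a) ∧ ok a z

lemma exists_match {V Z : Type*} [Fintype V] [Fintype Z] (free : V → Prop)
    (ok : V → V × Z → Prop) (B : V → V → Prop)
    (hB : ∀ a b, B a b → a ≠ b ∧ ∃ w, ok a (b, w)) :
    ∃ σ : V → Option (V × Z), Match free ok σ ∧ ∀ u v, free u → free v → B u v →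
      (σ u ≠ none ∨ ∃ a z, σ a = some z ∧ z.1 = u) ∨
      (σ v ≠ none ∨ ∃ a z, σ a = some z ∧ z.1 = v) := by
  classical
  obtain ⟨σ, hσ, hmax⟩ := Finset.exists_max_image
    (univ.filter fun σ : V → Option (V × Z) => Match free ok σ)
    (fun σ => (univ.filter fun a => σ a ≠ none).card)
    ⟨fun _ => none, Finset.mem_filter.2 ⟨Finset.mem_univ _, fun a z h => by cases h⟩⟩
  have hσ' := (Finset.mem_filter.1 hσ).2
  refine ⟨σ, hσ', fun u v hu hv huv => ?_⟩
  by_contra hc
  push Not at hc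
  obtain ⟨⟨c1, c2⟩, c3, c4⟩ := hc
  obtain ⟨hne, w, hw⟩ := hB u v huv
  have hnew : Match free ok (Function.update σ u (some (v, w))) := by
    intro a z h
    by_cases ha : a = u
    · subst ha
      rw [Function.update_self] at h
      obtain rfl := Option.some.inj h
      refine ⟨hu, hv, ?_, ?_, hw⟩
      · rw [Function.update_of_ne hne.symm]
        exact c3
      · intro a' z' h' hz
        by_contra ha'
        rw [Function.update_of_ne ha'] at h'
        exact c4 a' z' h' hz
    · rw [Function.update_of_ne ha] at h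
      obtain ⟨d1, d2, d3, d4, d5⟩ := hσ' a z h
      refine ⟨d1, d2, ?_, ?_, d5⟩
      · rw [Function.update_of_ne (c2 a z h)]
        exact d3
      · intro a' z' h' hz
        by_cases ha' : a' = u
        · subst ha'
          rw [Function.update_self] at h'
          obtain rfl := Option.some.inj h'
          exact absurd hz.symm (c4 a z h)
        · rw [Function.update_of_ne ha'] at h'
          exact d4 a' z' h' hz
  have hle := hmax _ (Finset.mem_filter.2 ⟨Finset.mem_univ _, hnew⟩)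
  have hlt : (univ.filter fun a => σ a ≠ none)
      ⊂ (univ.filter fun a => Function.update σ u (some (v, w)) a ≠ none) := by
    refine Finset.ssubset_iff_subset_ne.2 ⟨?_, ?_⟩
    · intro a ha
      have ha' := (Finset.mem_filter.1 ha).2
      refine Finset.mem_filter.2 ⟨Finset.mem_univ _, ?_⟩
      by_cases hau : a = u
      · subst hau
        simp
      · rwa [Function.update_of_ne hau]
    · intro h
      have : u ∈ (univ.filter fun a => σ a ≠ none) := by
        rw [h]
        simp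
      exact (Finset.mem_filter.1 this).2 c1
  exact absurd (Finset.card_lt_card hlt) (not_lt.2 hle)

lemma sum_prod_opt {V Z : Type*} [Fintype V] [DecidableEq V] [Fintype Z] [DecidableEq Z] (x : ℝ) :
    ∑ σ : V → Option Z, x ^ (univ.filter fun a => σ a ≠ none).card
      = (1 + Fintype.card Z * x) ^ Fintype.card V := by
  simp only [← prod_ite_pow]
  rw [← Fintype.piFinset_univ,
    ← Finset.prod_univ_sum (fun _ => univ) (fun _ (o : Option Z) => if o ≠ none then x else 1)]
  simp [Fintype.sum_option]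

lemma log_inv_sq_le {r : ℝ} (hr : 0 < r) : Real.log (1 / r ^ 2) ≤ 2 / r := by
  rw [← one_div_pow, Real.log_pow]
  have := Real.log_le_self (show 0 ≤ 1 / r by positivity)
  push_cast
  calc 2 * Real.log (1 / r) ≤ 2 * (1 / r) := by linarith
    _ = 2 / r := by ring

lemma tail_small (a b κ ε : ℝ) (ha : 0 ≤ a) (hb : 0 ≤ b) (hκ : 0 < κ) (hε : 0 < ε) :
    ∃ n0 : ℕ, ∀ n : ℕ, n0 ≤ n → (1 + a * Real.exp (-(κ * n))) ^ n
      * (1 + n * b * Real.exp (-(κ * n))) ^ n - 1 ≤ ε := by
  have hε0 : 0 < Real.log (1 + ε) := Real.log_pos (by linarith)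
  obtain ⟨n0, hn0⟩ := exists_nat_ge (6 * (a + b) / (κ ^ 3 * Real.log (1 + ε)) + 1)
  refine ⟨n0, fun n hn => ?_⟩
  have hnn : 6 * (a + b) / (κ ^ 3 * Real.log (1 + ε)) + 1 ≤ (n : ℝ) :=
    hn0.trans (by exact_mod_cast hn)
  have hn1 : (1 : ℝ) ≤ n := by
    have : 0 ≤ 6 * (a + b) / (κ ^ 3 * Real.log (1 + ε)) := by positivity
    linarith
  have hn2 : 6 * (a + b) ≤ n * (κ ^ 3 * Real.log (1 + ε)) := by
    have : 6 * (a + b) / (κ ^ 3 * Real.log (1 + ε)) ≤ (n : ℝ) := by linarith
    rwa [div_le_iff₀ (by positivity)] at this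
  set x := Real.exp (-(κ * n)) with hx
  have hx0 : 0 < x := Real.exp_pos _
  have hx1 : (κ * n) ^ 3 / 6 * x ≤ 1 := by
    have := Real.pow_div_factorial_le_exp (κ * n) (by positivity) 3
    norm_num [Nat.factorial] at this
    rw [hx, Real.exp_neg, ← div_eq_mul_inv, div_le_one (Real.exp_pos _)]
    exact this
  have h1 : (1 + a * x) ^ n ≤ Real.exp (n * (a * x)) := by
    rw [Real.exp_nat_mul]
    gcongr
    linarith [Real.add_one_le_exp (a * x)]
  have h2 : (1 + n * b * x) ^ n ≤ Real.exp (n * (n * b * x)) := by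
    rw [Real.exp_nat_mul]
    gcongr
    linarith [Real.add_one_le_exp (n * b * x)]
  have h3 : n * (a * x) + n * (n * b * x) ≤ Real.log (1 + ε) := by
    have e1 : n * (a * x) ≤ n * (n * a * x) := by
      have : a * x ≤ n * (a * x) := le_mul_of_one_le_left (by positivity) hn1
      nlinarith
    have e2 : 6 * (a + b) * ((n : ℝ) ^ 2 * x)
        ≤ n * (κ ^ 3 * Real.log (1 + ε)) * ((n : ℝ) ^ 2 * x) :=
      mul_le_mul_of_nonneg_right hn2 (by positivity)
    have e3 := mul_le_mul_of_nonneg_right hx1 hε0.le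
    nlinarith
  calc _ ≤ Real.exp (n * (a * x)) * Real.exp (n * (n * b * x)) - 1 := by gcongr
    _ ≤ Real.exp (Real.log (1 + ε)) - 1 := by
        rw [← Real.exp_add]
        gcongr
    _ = ε := by
        rw [Real.exp_log (by linarith)]
        ring

lemma local_bound (C 𝒯 : Type) [Fintype C] [DecidableEq C] [Nonempty C] [Fintype 𝒯]
    (ε : ℝ) (hε : 0 < ε) : ∃ γ μ δ : ℝ, 0 < γ ∧ 0 < μ ∧ 0 < δ ∧ γ ≤ 1 / 100 ∧ ∃ n0 : ℕ,
      ∀ (V : Type) [Fintype V] [DecidableEq V], n0 ≤ Fintype.card V →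
      ∀ (T T0 : Sym2 V → Finset C) (W : Fin 3 → Finset V) (Tv : 𝒯 → V → V → Finset C)
        (X : Finset (Sym2 V → C)), (∀ e, (T0 e).card ≤ (T e).card) →
        (∀ j, (Fintype.card V : ℝ) / 4 ≤ (W j).card) →
        (∀ χ ∈ X, (∃ e, χ e ∉ T0 e) ∧ (∀ e, T0 e ≠ T e → χ e ∉ T e) ∧
          dfc χ T ≤ δ * (Fintype.card V : ℝ) ^ 2 ∧
          (∀ v, γ * Fintype.card V ≤ ddeg χ T v →
            ∃ τ, VertOK T (Tv τ v) (μ * Fintype.card V) (γ * Fintype.card V / 2) χ v) ∧
          (∀ a b, χ s(a, b) ∉ T0 s(a, b) → a ≠ b ∧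
            ∃ w, EdgeOK T W (μ * Fintype.card V) χ a (b, w))) →
        (X.card : ℝ) ≤ ε * Real.exp (lZ T) := by
  classical
  set K : ℝ := (Fintype.card C : ℝ) with hK
  have hK1 : 1 ≤ K := by
    rw [hK]
    exact_mod_cast Fintype.card_pos
  set g : ℝ := 1 / (800 * K ^ 2) with hg
  have hg0 : 0 < g := by positivity
  have hg1 : g ≤ 1 / 800 := by
    rw [hg]
    apply one_div_le_one_div_of_le (by norm_num)
    nlinarith
  set r : ℝ := g / (124 * K) with hr
  have hr0 : 0 < r := by positivity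
  have hKr : K * r = g / 124 := by
    rw [hr]
    field_simp
  have hr1 : r ≤ 1 / 1000 := by nlinarith
  set γ : ℝ := 10 * K * r ^ 2 with hγ
  have hγ0 : 0 < γ := by positivity
  have hγr : γ = 10 * (K * r) * r := by rw [hγ]; ring
  have hγ1 : γ ≤ 1 / 100 := by
    rw [hγr, hKr]
    nlinarith
  obtain ⟨n1, hn1⟩ := tail_small (Fintype.card 𝒯) (3 * K ^ 2) (γ / 5) ε (by positivity)
    (by positivity) (by positivity) hε
  refine ⟨γ, γ * r / 20, γ ^ 2 / (20 * K), hγ0, by positivity, by positivity, hγ1, max n1 20,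
    ?_⟩
  intro V _ _ hn T T0 W Tv X hT0 hW hX
  set μ : ℝ := γ * r / 20 with hμ
  set δ : ℝ := γ ^ 2 / (20 * K) with hδ
  set n : ℝ := (Fintype.card V : ℝ) with hndef
  have hn20 : 20 ≤ Fintype.card V := (le_max_right _ _).trans hn
  have hnpos : 0 < n := by
    rw [hndef]
    exact_mod_cast (by omega : 0 < Fintype.card V)
  obtain ⟨c0⟩ := (inferInstance : Nonempty C)
  set x : ℝ := Real.exp (-(γ / 5 * n)) with hx
  set Valid : (V → Option 𝒯) × (V → Option (V × Fin 3 × C × C)) → (Sym2 V → C) → Prop :=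
    fun σ χ => σ ≠ (fun _ => none, fun _ => none) ∧ (∀ v, σ.1 v ≠ none ↔ γ * n ≤ ddeg χ T v) ∧
      (∀ v τ, σ.1 v = some τ → VertOK T (Tv τ v) (μ * n) (γ * n / 2) χ v) ∧
      Match (fun v => σ.1 v = none) (EdgeOK T W (μ * n) χ) σ.2 ∧
      (∀ u v, σ.1 u = none → σ.1 v = none → χ s(u, v) ∉ T0 s(u, v) →
        (σ.2 u ≠ none ∨ ∃ a z, σ.2 a = some z ∧ z.1 = u) ∨
        (σ.2 v ≠ none ∨ ∃ a z, σ.2 a = some z ∧ z.1 = v)) with hValid
  have hcover := card_le_sum_cover X (fun σ => X.filter (Valid σ)) (by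
    intro χ hχ
    obtain ⟨⟨e, he⟩, -, -, h4, h5⟩ := hX χ hχ
    set σ1 : V → Option 𝒯 := fun v =>
      if h : γ * n ≤ ddeg χ T v then some (h4 v h).choose else none with hσ1
    obtain ⟨σ2, m1, m2⟩ := exists_match (fun v => σ1 v = none) (EdgeOK T W (μ * n) χ)
      (fun u v => χ s(u, v) ∉ T0 s(u, v)) h5
    refine ⟨(σ1, σ2), Finset.mem_filter.2 ⟨hχ, ?_, ?_, ?_, m1, m2⟩⟩
    · intro h0
      obtain ⟨z1, z2⟩ := Prod.mk.inj h0
      induction e using Sym2.ind with
      | _ u v =>
        have := m2 u v (congrFun z1 u) (congrFun z1 v) he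
        simp [z2] at this
    · intro v
      simp only [hσ1]
      split_ifs with h <;> simp [h]
    · intro v τ h
      simp only [hσ1] at h
      split_ifs at h with h'
      obtain rfl := Option.some.inj h
      exact (h4 v h').choose_spec)
  have hone : ∀ σ, ((X.filter (Valid σ)).card : ℝ) ≤ Real.exp (lZ T) *
      (x ^ (univ.filter fun a => σ.1 a ≠ none).card * x ^ (univ.filter fun a => σ.2 a ≠ none).card
        - ind (σ = (fun _ => none, fun _ => none))) := by
    intro σ
    rcases (X.filter (Valid σ)).eq_empty_or_nonempty with h | ⟨χ0, hχ0⟩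
    · rw [h]
      simp only [Finset.card_empty, Nat.cast_zero]
      refine mul_nonneg (Real.exp_pos _).le ?_
      by_cases h0 : σ = (fun _ => none, fun _ => none)
      · rw [ind_pos h0, h0]
        simp
      · rw [ind_neg h0, sub_zero]
        positivity
    obtain ⟨hχ0X, v0, v1, v2, v3, -⟩ := Finset.mem_filter.1 hχ0
    rw [ind_neg v0, sub_zero]
    set D := univ.filter fun a => σ.1 a ≠ none with hD
    set A := univ.filter fun a => σ.2 a ≠ none with hA
    set dat : V → V × Fin 3 × C × C := fun a => (σ.2 a).getD (a, 0, c0, c0) with hdat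
    have hDm : ∀ v, v ∉ D ↔ σ.1 v = none := by
      intro v
      simp [hD]
    have hAm : ∀ a, a ∉ A ↔ σ.2 a = none := by
      intro v
      simp [hA]
    have hdat' : ∀ a ∈ A, σ.2 a = some (dat a) := by
      intro a ha
      obtain ⟨z, hz⟩ := Option.ne_none_iff_exists'.1 (Finset.mem_filter.1 ha).2
      simp only [hdat, hz, Option.getD_some]
    have hLv : ∀ v ∈ D, ∃ τ, σ.1 v = some τ := fun v hv =>
      Option.ne_none_iff_exists'.1 (Finset.mem_filter.1 hv).2
    have hdle : γ * D.card ≤ δ * n := by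
      have a1 : ∑ v ∈ D, γ * n ≤ ∑ v ∈ D, ddeg χ0 T v :=
        Finset.sum_le_sum fun v hv => (v1 v).1 (Finset.mem_filter.1 hv).2
      have a2 : ∑ v ∈ D, ddeg χ0 T v ≤ ∑ v, ddeg χ0 T v :=
        Finset.sum_le_sum_of_subset_of_nonneg (Finset.subset_univ _) fun v _ _ =>
          Finset.sum_nonneg fun _ _ => ind_nonneg _
      have a3 : ∑ v, ddeg χ0 T v ≤ δ * n ^ 2 := (hX χ0 hχ0X).2.2.1
      rw [Finset.sum_const, nsmul_eq_mul] at a1
      have : n * (γ * D.card) ≤ n * (δ * n) := by nlinarith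
      exact le_of_mul_le_mul_left this hnpos
    have hd2 : 2 * K * D.card ≤ γ * n / 10 := by
      have : γ * (2 * K * D.card) ≤ γ * (γ * n / 10) := by
        have e : γ * (γ * n / 10) = 2 * K * (δ * n) := by
          rw [hδ]
          field_simp
          ring
        rw [e]
        nlinarith
      exact le_of_mul_le_mul_left this hγ0
    have hD0 : (0 : ℝ) ≤ D.card := by positivity
    have hA0 : (0 : ℝ) ≤ A.card := by positivity
    have hsub : ∀ χ ∈ X, ∀ e, χ e ∉ T0 e → χ e ∉ T e := by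
      intro χ hχ e he
      by_cases h : T0 e = T e
      · rwa [← h]
      · exact (hX χ hχ).2.1 e h
    have key := class_local T T0 hT0 γ μ (r ^ 2) (by positivity) (by nlinarith) hγ0.le hγ1
      (by positivity) hn20 D A (fun v => (σ.1 v).elim (fun _ => ∅) (fun τ => Tv τ v))
      (fun a => (dat a).1) (fun a => W (dat a).2.1) (fun a => (dat a).2.2.1)
      (fun a => (dat a).2.2.2) ?_ ?_ ?_ ?_ ?_ ?_ (X.filter (Valid σ)) ?_ ?_ ?_ ?_
    · refine key.trans ?_
      rw [hx, ← Real.exp_nat_mul, ← Real.exp_nat_mul, ← Real.exp_add, ← Real.exp_add]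
      apply Real.exp_le_exp.2
      rw [← hK, ← hndef]
      have l1 := log_inv_sq_le hr0
      set l := Real.log (1 / r ^ 2) with hl
      have l2 : μ * l ≤ γ / 10 := by
        calc μ * l ≤ μ * (2 / r) := mul_le_mul_of_nonneg_left l1 (by positivity)
          _ = γ / 10 := by
              rw [hμ]
              field_simp
              ring
      have l3 : γ * l ≤ 20 * (g / 124) := by
        calc γ * l ≤ γ * (2 / r) := mul_le_mul_of_nonneg_left l1 hγ0.le
          _ = 20 * (K * r) := by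
              rw [hγ]
              field_simp
              ring
          _ = _ := by rw [hKr]
      have l4 : r ^ 2 * K = γ / 10 := by rw [hγ]; ring
      have l5 : γ ≤ g / 100 := by
        rw [hγr, hKr]
        nlinarith
      have l6 : A.card * n / (800 * K ^ 2) = g * (n * A.card) := by
        rw [hg]
        ring
      have p1 := mul_le_mul_of_nonneg_right l2 (show 0 ≤ n * D.card by positivity)
      have p2 := mul_le_mul_of_nonneg_right l2 (show 0 ≤ n * A.card by positivity)
      have p3 := mul_le_mul_of_nonneg_right l3 (show 0 ≤ n * A.card by positivity)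
      have p4 := mul_le_mul_of_nonneg_right hd2 hD0
      have p5 := mul_le_mul_of_nonneg_right l5 (show 0 ≤ n * A.card by positivity)
      have p6 : 0 ≤ g * (n * A.card) := by positivity
      rw [l4, l6]
      nlinarith
    · intro v hv
      obtain ⟨τ, hτ⟩ := hLv v hv
      simp only [hτ, Option.elim_some]
      exact (v2 v τ hτ).2
    · nlinarith
    · intro a ha
      obtain ⟨d1, d2, d3, -⟩ := v3 a _ (hdat' a ha)
      exact ⟨(hDm _).2 d1, (hDm _).2 d2, (hAm _).2 d3⟩
    · intro a ha a' ha' h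
      exact (v3 a' _ (hdat' a' ha')).2.2.2.1 a _ (hdat' a ha) h
    · intro a ha
      exact ⟨hW _, (v3 a _ (hdat' a ha)).2.2.2.2.1⟩
    · intro u hu
      have a1 : ¬ γ * n ≤ ddeg χ0 T u := fun h => (v1 u).2 h ((hDm u).1 hu)
      refine le_trans (Finset.sum_le_sum fun x _ => ind_mono ?_) (not_le.1 a1).le
      exact (hX χ0 hχ0X).2.1 _
    · intro χ hχ v hv
      obtain ⟨τ, hτ⟩ := hLv v hv
      simp only [hτ, Option.elim_some]
      exact ((Finset.mem_filter.1 hχ).2.2.2.1 v τ hτ).1
    · intro χ hχ a ha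
      exact ((Finset.mem_filter.1 hχ).2.2.2.2.1 a _ (hdat' a ha)).2.2.2.2.2
    · intro χ hχ u hu
      obtain ⟨hχX, -, w1, -⟩ := Finset.mem_filter.1 hχ
      have a1 : ¬ γ * n ≤ ddeg χ T u := fun h => (w1 u).2 h ((hDm u).1 hu)
      refine le_trans (Finset.sum_le_sum fun x _ => ind_mono ?_) (not_le.1 a1).le
      exact hsub χ hχX _
    · intro χ hχ u v hu hv he
      have aux : ∀ u, (σ.2 u ≠ none ∨ ∃ a z, σ.2 a = some z ∧ z.1 = u) →
          u ∈ A ∪ A.image fun a => (dat a).1 := by
        rintro u (h | ⟨a, z, h1, h2⟩)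
        · exact Finset.mem_union_left _ (Finset.mem_filter.2 ⟨Finset.mem_univ _, h⟩)
        · have ha : a ∈ A := Finset.mem_filter.2 ⟨Finset.mem_univ _, by rw [h1]; simp⟩
          refine Finset.mem_union_right _ (Finset.mem_image.2 ⟨a, ha, ?_⟩)
          rw [hdat' a ha] at h1
          rw [Option.some.inj h1, h2]
      exact ((Finset.mem_filter.1 hχ).2.2.2.2.2 u v ((hDm u).1 hu) ((hDm v).1 hv) he).imp
        (aux u) (aux v)
  refine hcover.trans ((Finset.sum_le_sum fun σ _ => hone σ).trans ?_)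
  rw [← Finset.mul_sum, mul_comm]
  refine mul_le_mul_of_nonneg_right ?_ (Real.exp_pos _).le
  rw [Finset.sum_sub_distrib, sum_ind_eq, Fintype.sum_prod_type]
  simp only [← Finset.mul_sum]
  rw [← Finset.sum_mul, sum_prod_opt, sum_prod_opt]
  have := hn1 (Fintype.card V) ((le_max_left _ _).trans hn)
  refine le_trans (le_of_eq ?_) this
  simp only [Fintype.card_prod, Fintype.card_fin]
  push_cast
  rw [← hK, ← hndef, ← hx]
  ring

end Pool.Agent.P.MP_ea05a2_co
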