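import Pool.Agent.P.MP_ea05a2_co.SmallA

/-!
Between six and eleven colours the complete graph is the unique extremal graph.
-/

namespace Pool.Agent.P.MP_ea05a2_co

open Finset

lemma pi_TS_subset {V α : Type} [Fintype V] [DecidableEq V] [Fintype α] {S : Finset α}
    (hS : S.card = 5) : Fintype.piFinset (TS (V := V) S) ⊆ RFS α (⊤ : SimpleGraph V) := by
  intro χ hχ
  rw [Fintype.mem_piFinset] at hχ
  refine mem_RFS.2 ⟨RF_of_five S hS.le fun e c hc => ?_, fun e => ?_⟩
  · have := hχ e
    rw [hc, TS] at this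
    split_ifs at this
    all_goals simp at this
    all_goals exact this
  · have := hχ e
    rw [TS] at this
    induction e using Sym2.ind with
    | _ u v =>
      by_cases h : u = v
      · subst h
        simpa using this
      · simp only [Sym2.mk_isDiag_iff, h, if_false] at this
        obtain ⟨c, -, hc⟩ := Finset.mem_map.1 this
        rw [← hc]
        simp [h]

lemma pure_le {V α : Type} [Fintype V] [DecidableEq V] [Fintype α] {G : SimpleGraph V}
    (hG : G ≠ ⊤) (P : Finset (Sym2 V → Option α))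
    (hP : ∀ χ ∈ P, OnG G χ ∧ ∃ S : Finset α, S.card = 5 ∧ ∀ e, χ e ∈ T0S G S e) :
    5 * P.card ≤ (RFS α (⊤ : SimpleGraph V)).card := by
  classical
  obtain ⟨a, b, hab, hnab⟩ : ∃ a b, a ≠ b ∧ ¬ G.Adj a b := by
    by_contra hc
    push Not at hc
    exact hG (SimpleGraph.eq_top_iff_forall_ne_adj.2 hc)
  have hen : ∀ χ : P, ∃ S : Finset α, S.card = 5 ∧ (∀ e c, χ.1 e = some c → c ∈ S) ∧
      ∃ en : Fin 5 → α, Function.Injective en ∧ ∀ i, en i ∈ S := by
    rintro ⟨χ, hχ⟩
    obtain ⟨-, S, h1, h2⟩ := hP χ hχ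
    refine ⟨S, h1, fun e c hc => ?_, exists_enum S h1.ge⟩
    have := h2 e
    simp only at hc
    rw [hc, T0S] at this
    split_ifs at this
    all_goals simp at this
    all_goals exact this
  choose S hS5 hSc en hen1 hen2 using hen
  set ext : P × Fin 5 → Sym2 V → Option α := fun p e =>
    if e ∈ G.edgeSet then p.1.1 e else if e.IsDiag then none
      else if e = s(a, b) then some (en p.1 p.2) else some (en p.1 0) with hext
  have := Finset.card_le_card_of_injOn (s := (univ : Finset (P × Fin 5)))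
    (t := RFS α (⊤ : SimpleGraph V)) ext ?_ ?_
  · simpa [mul_comm] using this
  · rintro ⟨χ, i⟩ -
    refine mem_RFS.2 ⟨RF_of_five (S χ) (hS5 χ).le fun e c hc => ?_, fun e => ?_⟩
    · simp only [hext] at hc
      split_ifs at hc
      · exact hSc χ e c hc
      · rw [← Option.some.inj hc]
        exact hen2 _ _
      · rw [← Option.some.inj hc]
        exact hen2 _ _
    · induction e using Sym2.ind with
      | _ u v =>
        simp only [hext]
        split_ifs with h1 h2 h3
        · rw [(hP χ.1 χ.2).1]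
          simp [h1, G.ne_of_adj h1]
        · simpa using h2
        · simpa using h2
        · simpa using h2
  · rintro ⟨χ, i⟩ - ⟨χ', i'⟩ - h
    have h1 : χ = χ' := by
      refine Subtype.ext (funext fun e => ?_)
      by_cases he : e ∈ G.edgeSet
      · have := congrFun h e
        simpa only [hext, if_pos he] using this
      · rw [((hP χ.1 χ.2).1 e).2 he, ((hP χ'.1 χ'.2).1 e).2 he]
    subst h1
    have h2 := congrFun h s(a, b)
    simp only [hext, SimpleGraph.mem_edgeSet, hnab, if_false, Sym2.mk_isDiag_iff, hab,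
      if_true, Option.some.injEq] at h2
    rw [hen1 χ h2]

theorem small_main (α : Type) [Fintype α] [DecidableEq α] (h5 : 5 ≤ Fintype.card α)
    (h11 : Fintype.card α ≤ 11) : ∃ n0 : ℕ, ∀ (V : Type) [Fintype V] [DecidableEq V],
      n0 ≤ Fintype.card V → ∀ G : SimpleGraph V, G ≠ ⊤ →
        (RFS α G).card < (RFS α (⊤ : SimpleGraph V)).card := by
  classical
  set N : ℝ := (Fintype.card (Finset α) : ℝ) with hN
  have hN1 : 1 ≤ N := by
    rw [hN]
    exact_mod_cast Fintype.card_pos
  set ε : ℝ := 1 / (8 * N) with hε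
  have hε0 : 0 < ε := by positivity
  obtain ⟨γ, μ, δ1, hγ0, hμ0, hδ10, hγ1, n1, hloc⟩ := local_bound (Option α) (Finset α) ε hε0
  set s : ℝ := (Fintype.card α : ℝ) with hs
  have hs1 : 1 ≤ s := by
    rw [hs]
    exact_mod_cast (by omega : 1 ≤ Fintype.card α)
  set μ' : ℝ := min μ (γ / 2) / s with hμ'
  have hμ'0 : 0 < μ' := by positivity
  have hsμ : s * μ' = min μ (γ / 2) := by
    rw [hμ']
    field_simp
  have hμ1 : s * μ' ≤ μ := hsμ ▸ min_le_left _ _
  have hμ2 : s * μ' ≤ γ / 2 := hsμ ▸ min_le_right _ _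
  have hμ3 : μ' ≤ s * μ' := le_mul_of_one_le_left hμ'0.le hs1
  obtain ⟨δ2, hδ20, n2, htyp⟩ := typ_bound (Option α) μ' ε hμ'0 hε0
  obtain ⟨n3, hfar⟩ := small_far α h11 (min δ1 δ2) ε (lt_min hδ10 hδ20) hε0
  refine ⟨max (max n1 n2) (max n3 8), fun V _ _ hn G hG => ?_⟩
  have hn1 : n1 ≤ Fintype.card V := (le_max_left _ _).trans ((le_max_left _ _).trans hn)
  have hn2 : n2 ≤ Fintype.card V := (le_max_right _ _).trans ((le_max_left _ _).trans hn)
  have hn3 : n3 ≤ Fintype.card V := (le_max_left _ _).trans ((le_max_right _ _).trans hn)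
  have hn8 : 8 ≤ Fintype.card V := (le_max_right _ _).trans ((le_max_right _ _).trans hn)
  set n : ℝ := (Fintype.card V : ℝ) with hndef
  have hn0 : 0 ≤ n := by positivity
  set Z : ℝ := Real.exp ((n ^ 2 - n) / 2 * Real.log 5) with hZ
  have hZ0 : 0 < Z := Real.exp_pos _
  obtain ⟨W, hW, d01, d02, d12⟩ := exists_parts V hn8
  set Xf := (RFS α G).filter fun χ => ∀ S : Finset α, S.card = 5 →
    ¬ dfc χ (TS S) ≤ min δ1 δ2 * n ^ 2 with hXf
  set Xp := (RFS α G).filter fun χ => ∃ S : Finset α, S.card = 5 ∧ ∀ e, χ e ∈ T0S G S e with hXp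
  set Xa := fun S : Finset α => (RFS α G).filter fun χ => S.card = 5 ∧
    dfc χ (TS S) ≤ min δ1 δ2 * n ^ 2 ∧ ¬ QT (TS S) (μ' * n) χ with hXa
  set Xl := fun S : Finset α => (RFS α G).filter fun χ => S.card = 5 ∧
    dfc χ (TS S) ≤ min δ1 δ2 * n ^ 2 ∧ QT (TS S) (μ' * n) χ ∧ ∃ e, χ e ∉ T0S G S e with hXl
  have m1 : min δ1 δ2 * n ^ 2 ≤ δ1 * n ^ 2 :=
    mul_le_mul_of_nonneg_right (min_le_left _ _) (sq_nonneg _)
  have m2 : min δ1 δ2 * n ^ 2 ≤ δ2 * n ^ 2 :=
    mul_le_mul_of_nonneg_right (min_le_right _ _) (sq_nonneg _)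
  have bf : (Xf.card : ℝ) ≤ ε * Z := hfar V hn3 G Xf
    (fun χ hχ => mem_RFS.1 (Finset.mem_filter.1 hχ).1) (fun χ hχ => (Finset.mem_filter.1 hχ).2)
  have bp : 5 * Xp.card ≤ (RFS α (⊤ : SimpleGraph V)).card := pure_le hG Xp
    (fun χ hχ => ⟨(mem_RFS.1 (Finset.mem_filter.1 hχ).1).2, (Finset.mem_filter.1 hχ).2⟩)
  have ba : ∀ S, ((Xa S).card : ℝ) ≤ ε * Z := by
    intro S
    by_cases hS : S.card = 5
    · rw [hZ, ← lZ_TS hS]
      exact htyp V hn2 (TS S) (Xa S) fun χ hχ =>
        ⟨(Finset.mem_filter.1 hχ).2.2.1.trans m2, (Finset.mem_filter.1 hχ).2.2.2⟩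
    · rw [show Xa S = ∅ from Finset.filter_eq_empty_iff.2 fun χ _ h => hS h.1]
      simp only [Finset.card_empty, Nat.cast_zero]
      positivity
  have bl : ∀ S, ((Xl S).card : ℝ) ≤ ε * Z := by
    intro S
    by_cases hS : S.card = 5
    · rw [hZ, ← lZ_TS hS]
      refine hloc V hn1 (TS S) (T0S G S) W (TvS G) (Xl S) ?_ hW ?_
      · intro e
        induction e using Sym2.ind with
        | _ u v =>
          unfold T0S TS
          split_ifs with h1 h2 h2
          · exact absurd h2 (G.ne_of_adj h1)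
          · exact le_rfl
          · exact le_rfl
          · simp [hS]
      · intro χ hχ
        obtain ⟨h0, -, h1, h2, h3⟩ := Finset.mem_filter.1 hχ
        obtain ⟨hR, hO⟩ := mem_RFS.1 h0
        refine ⟨h3, ?_, h1.trans m1, fun v hv => ?_, fun a b hab => ?_⟩
        · intro e he hm
          apply he
          unfold T0S TS at *
          split_ifs at * with h4 h5 h5
          · induction e using Sym2.ind with
            | _ u v => exact absurd h5 (G.ne_of_adj h4)
          · rfl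
          · rfl
          · rw [(hO e).2 h4] at hm
            simp at hm
        · refine small_vert hS (by positivity) ?_ ?_ hγ1 hn8 h2 hR hO v hv
          · nlinarith [mul_le_mul_of_nonneg_right hμ1 hn0]
          · nlinarith [mul_le_mul_of_nonneg_right hμ2 hn0]
        · refine small_edge hS ?_ h2 hR hO W d01 d02 d12 (le_trans ?_ (hW 2)) a b hab
          · exact mul_le_mul_of_nonneg_right (hμ3.trans hμ1) hn0
          · nlinarith [mul_le_mul_of_nonneg_right (hμ3.trans hμ2) hn0]
    · rw [show Xl S = ∅ from Finset.filter_eq_empty_iff.2 fun χ _ h => hS h.1]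
      simp only [Finset.card_empty, Nat.cast_zero]
      positivity
  have bz : Z ≤ (RFS α (⊤ : SimpleGraph V)).card := by
    obtain ⟨S, -, hS⟩ := Finset.exists_subset_card_eq (s := (univ : Finset α)) (n := 5)
      (by simpa using h5)
    rw [hZ, ← lZ_TS hS, exp_lZ _ (TS_nonempty (Finset.card_pos.1 (by omega)))]
    exact_mod_cast Finset.card_le_card (pi_TS_subset hS)
  have hcov : RFS α G ⊆ Xf ∪ Xp ∪ univ.biUnion Xa ∪ univ.biUnion Xl := by
    intro χ hχ
    simp only [Finset.mem_union, Finset.mem_biUnion, Finset.mem_univ, true_and, hXf, hXp, hXa,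
      hXl, Finset.mem_filter, hχ]
    by_cases c1 : ∀ S : Finset α, S.card = 5 → ¬ dfc χ (TS S) ≤ min δ1 δ2 * n ^ 2
    · exact Or.inl (Or.inl (Or.inl c1))
    push Not at c1
    obtain ⟨S, hS, hd⟩ := c1
    by_cases c2 : QT (TS S) (μ' * n) χ
    · by_cases c3 : ∀ e, χ e ∈ T0S G S e
      · exact Or.inl (Or.inl (Or.inr ⟨S, hS, c3⟩))
      · exact Or.inr ⟨S, hS, hd, c2, not_forall.1 c3⟩
    · exact Or.inl (Or.inr ⟨S, hS, hd, c2⟩)
  have hc1 : (RFS α G).card ≤ Xf.card + Xp.card + ∑ S, (Xa S).card + ∑ S, (Xl S).card :=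
    (Finset.card_le_card hcov).trans ((Finset.card_union_le _ _).trans (add_le_add
      ((Finset.card_union_le _ _).trans (add_le_add (Finset.card_union_le _ _)
        Finset.card_biUnion_le)) Finset.card_biUnion_le))
  have hc2 : ((RFS α G).card : ℝ) ≤ Xf.card + Xp.card + ∑ S, ((Xa S).card : ℝ)
      + ∑ S, ((Xl S).card : ℝ) := by exact_mod_cast hc1
  have sa := Finset.sum_le_sum fun S (_ : S ∈ (univ : Finset (Finset α))) => ba S
  have sl := Finset.sum_le_sum fun S (_ : S ∈ (univ : Finset (Finset α))) => bl S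
  rw [Finset.sum_const, Finset.card_univ, nsmul_eq_mul, ← hN] at sa sl
  have e1 : N * (ε * Z) = Z / 8 := by
    rw [hε]
    field_simp
  have e2 : ε * Z ≤ N * (ε * Z) := le_mul_of_one_le_left (by positivity) hN1
  have bp' : (5 : ℝ) * Xp.card ≤ (RFS α (⊤ : SimpleGraph V)).card := by exact_mod_cast bp
  have : ((RFS α G).card : ℝ) < (RFS α (⊤ : SimpleGraph V)).card := by linarith
  exact_mod_cast this

end Pool.Agent.P.MP_ea05a2_co
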