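import Pool.Agent.P.MP_ea05a2_co.Defs
import Pool.Agent.P.MP_ea05a2_co.SmallB
import Pool.Agent.P.MP_ea05a2_co.LargeB

/-!
The extremal graphs for rainbow `K_4` free colourings.
-/

namespace Pool.Agent.P.MP_ea05a2_co

open Finset

lemma numCol_eq (s : ℕ) {V : Type} [Fintype V] [DecidableEq V] (G : SimpleGraph V) :
    numCol s G = (RFS (Fin s) G).card := by
  classical
  rw [numCol, ← Nat.card_eq_finsetCard]
  refine Nat.card_congr (Equiv.ofBijective
    (fun c => ⟨fun e => if h : e ∈ G.edgeSet then some (c.1 ⟨e, h⟩) else none, ?_⟩) ⟨?_, ?_⟩)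
  · refine mem_RFS.2 ⟨fun a b x y col hc hall => ?_, fun e => ?_⟩
    · have h1 : ∀ i, ∃ h : six a b x y i ∈ G.edgeSet, c.1 ⟨_, h⟩ = col i := by
        intro i
        have := hall i
        beta_reduce at this
        split_ifs at this with h
        exact ⟨h, Option.some.inj this⟩
      choose h1 h2 using h1
      refine c.2 a b x y (h1 0) (h1 1) (h1 2) (h1 3) (h1 4) (h1 5) ?_
      have h3 : [c.1 ⟨_, h1 0⟩, c.1 ⟨_, h1 1⟩, c.1 ⟨_, h1 2⟩, c.1 ⟨_, h1 3⟩, c.1 ⟨_, h1 4⟩,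
          c.1 ⟨_, h1 5⟩].Nodup := by
        simp [h2, hc.eq_iff]
      exact h3
    · by_cases h : e ∈ G.edgeSet <;> simp [h]
  · intro c c' h
    refine Subtype.ext (funext fun e => ?_)
    have := congrFun (congrArg Subtype.val h) e.1
    simpa [e.2] using this
  · rintro ⟨χ, hχ⟩
    obtain ⟨hR, hO⟩ := mem_RFS.1 hχ
    have h1 : ∀ e : G.edgeSet, ∃ c, χ e.1 = some c := fun e =>
      Option.ne_none_iff_exists'.1 fun hn => (hO _).1 hn e.2
    choose c hc using h1
    refine ⟨⟨c, fun a b x y h1 h2 h3 h4 h5 h6 hn => hR.elim hn (hc ⟨_, h1⟩) (hc ⟨_, h2⟩)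
      (hc ⟨_, h3⟩) (hc ⟨_, h4⟩) (hc ⟨_, h5⟩) (hc ⟨_, h6⟩)⟩, Subtype.ext (funext fun e => ?_)⟩
    by_cases h : e ∈ G.edgeSet
    · simp only [dif_pos h]
      exact (hc ⟨e, h⟩).symm
    · simp only [dif_neg h]
      exact ((hO e).2 h).symm

theorem main_small (s : ℕ) (h6 : 6 ≤ s) (h11 : s ≤ 11) : ∃ n0 : ℕ, ∀ n : ℕ, n0 ≤ n →
    ∀ G : SimpleGraph (Fin n), Extremal s G ↔ G = ⊤ := by
  obtain ⟨n0, h⟩ := small_main (Fin s) (by simp; omega) (by simpa using h11)
  refine ⟨n0, fun n hn G => ?_⟩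
  have key := h (Fin n) (by simpa using hn)
  simp only [Extremal, numCol_eq]
  constructor
  · intro hG
    by_contra hne
    exact absurd (key G hne) (not_lt.2 (hG ⊤))
  · rintro rfl H
    by_cases hH : H = ⊤
    · rw [hH]
    · exact (key H hH).le

lemma card_edgeFinset_eq {V : Type*} (G : SimpleGraph V) [Fintype G.edgeSet] :
    G.edgeFinset.card = G.edgeSet.ncard := by
  rw [← Set.ncard_coe_finset, SimpleGraph.coe_edgeFinset]

lemma turan_lower (n : ℕ) :
    (n : ℝ) ^ 2 / 3 - n ≤ ((SimpleGraph.turanGraph n 3).edgeSet.ncard : ℝ) := by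
  rw [← card_edgeFinset_eq, SimpleGraph.card_edgeFinset_turanGraph]
  have h1 : n % 3 < 3 := Nat.mod_lt _ (by norm_num)
  have h2 : n % 3 ≤ n := Nat.mod_le _ _
  have h3 : n ^ 2 ≤ 3 * ((n ^ 2 - (n % 3) ^ 2) * (3 - 1) / (2 * 3) + (n % 3).choose 2)
      + 3 * n := by
    have h4 : (n % 3) ^ 2 ≤ 2 * n := by
      rw [sq]
      exact Nat.mul_le_mul (by omega) h2
    have h5 : n ≤ n ^ 2 := Nat.le_self_pow (by norm_num) n
    rcases Nat.eq_zero_or_pos n with rfl | h0
    · simp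
    by_cases h7 : n = 1
    · subst h7
      simp
    generalize n ^ 2 = a at *
    generalize (n % 3) ^ 2 = b at *
    omega
  have h4 : (n : ℝ) ^ 2 ≤ 3 * (((n ^ 2 - (n % 3) ^ 2) * (3 - 1) / (2 * 3) + (n % 3).choose 2 : ℕ) : ℝ)
      + 3 * n := by exact_mod_cast h3
  linarith

theorem main_large (s : ℕ) (h12 : 12 ≤ s) : ∃ n0 : ℕ, ∀ n : ℕ, n0 ≤ n →
    ∀ G : SimpleGraph (Fin n), Extremal s G ↔ Nonempty (G ≃g SimpleGraph.turanGraph n 3) := by
  classical
  obtain ⟨n0, h⟩ := large_main (Fin s) (by simpa using h12)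
  refine ⟨n0, fun n hn G => ?_⟩
  set t := (SimpleGraph.turanGraph n 3).edgeSet.ncard with ht
  have hT := SimpleGraph.isTuranMaximal_turanGraph (n := n) (r := 3) (by norm_num)
  have hle : ∀ H : SimpleGraph (Fin n), ¬ HasK4 H → H.edgeSet.ncard ≤ t := by
    intro H hH
    have := hT.2 (G' := H) ((cliqueFree_iff_not_hasK4 H).2 hH)
    rwa [card_edgeFinset_eq, card_edgeFinset_eq] at this
  have key : ∀ H : SimpleGraph (Fin n), HasK4 H → (RFS (Fin s) H).card < s ^ t := by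
    intro H hH
    have := h (Fin n) (by simpa using hn) H t hH (fun π => hle _ (not_hasK4_KP π))
      (by simpa using turan_lower n)
    simpa using this
  have key2 : ∀ H : SimpleGraph (Fin n), ¬ HasK4 H →
      (RFS (Fin s) H).card = s ^ H.edgeSet.ncard := by
    intro H hH
    simpa using RFS_card_of_free (Fin s) hH
  have hall : ∀ H : SimpleGraph (Fin n), (RFS (Fin s) H).card ≤ s ^ t := by
    intro H
    by_cases hH : HasK4 H
    · exact (key H hH).le
    · rw [key2 H hH]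
      exact Nat.pow_le_pow_right (by omega) (hle H hH)
  have hiso := SimpleGraph.isTuranMaximal_iff_nonempty_iso_turanGraph (G := G) (r := 3)
    (by norm_num)
  rw [Fintype.card_fin] at hiso
  rw [← hiso]
  simp only [Extremal, numCol_eq]
  constructor
  · intro hG
    have h1 := hG (SimpleGraph.turanGraph n 3)
    rw [key2 _ ((cliqueFree_iff_not_hasK4 _).1 hT.1)] at h1
    have h2 : ¬ HasK4 G := fun hK => absurd (key G hK) (not_lt.2 h1)
    rw [key2 G h2] at h1
    have h3 : t ≤ G.edgeSet.ncard := (Nat.pow_le_pow_iff_right (by omega)).1 h1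
    refine ⟨(cliqueFree_iff_not_hasK4 G).2 h2, fun H _ hH => ?_⟩
    rw [card_edgeFinset_eq, card_edgeFinset_eq]
    exact (hle H ((cliqueFree_iff_not_hasK4 H).1 hH)).trans h3
  · intro hG H
    have h2 := (cliqueFree_iff_not_hasK4 G).1 hG.1
    have h3 := hG.2 hT.1
    rw [card_edgeFinset_eq, card_edgeFinset_eq] at h3
    rw [key2 G h2]
    exact (hall H).trans (Nat.pow_le_pow_right (by omega) h3)

end Pool.Agent.P.MP_ea05a2_co
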