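import Pool.Agent.P.MP_ea05a2_co.Sample

/-!
Weak regularity for several symmetric functions and the counting lemma on four vertices.
-/

namespace Pool.Agent.P.MP_ea05a2_co

open Finset

section cond

variable {Ω ι : Type*} [Fintype Ω]

/-- average of `f` over the cell with label `z` -/
noncomputable def cavg (κ : Ω → ι) (f : Ω → ℝ) (z : ι) : ℝ :=
  (∑ ω, ind (κ ω = z) * f ω) / ∑ ω, ind (κ ω = z)

lemma cell_pos (κ : Ω → ι) (ω : Ω) : 0 < ∑ ω', ind (κ ω' = κ ω) := by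
  have := Finset.single_le_sum (f := fun ω' => ind (κ ω' = κ ω))
    (fun ω' _ => ind_nonneg _) (Finset.mem_univ ω)
  rw [ind_pos rfl] at this
  linarith

lemma cavg_nonneg (κ : Ω → ι) {f : Ω → ℝ} (hf : ∀ ω, 0 ≤ f ω) (z : ι) : 0 ≤ cavg κ f z :=
  div_nonneg (Finset.sum_nonneg fun ω _ => mul_nonneg (ind_nonneg _) (hf ω))
    (Finset.sum_nonneg fun _ _ => ind_nonneg _)

lemma cavg_le_one (κ : Ω → ι) {f : Ω → ℝ} (hf : ∀ ω, f ω ≤ 1) (z : ι) : cavg κ f z ≤ 1 := by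
  refine div_le_one_of_le₀ (Finset.sum_le_sum fun ω _ => ?_)
    (Finset.sum_nonneg fun _ _ => ind_nonneg _)
  exact mul_le_of_le_one_right (ind_nonneg _) (hf ω)

lemma cavg_orth (κ : Ω → ι) (f h : Ω → ℝ) (hh : ∀ ω ω', κ ω = κ ω' → h ω = h ω') :
    ∑ ω, cavg κ f (κ ω) * h ω = ∑ ω, f ω * h ω := by
  have e1 : ∀ ω, cavg κ f (κ ω) * h ω
      = ∑ ω', ind (κ ω = κ ω') * (f ω' * h ω' / ∑ ω'', ind (κ ω'' = κ ω')) := by
    intro ω
    unfold cavg
    rw [Finset.sum_div, Finset.sum_mul]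
    refine Finset.sum_congr rfl fun ω' _ => ?_
    by_cases hk : κ ω = κ ω'
    · rw [hh ω ω' hk, hk, ind_pos rfl]
      ring
    · rw [ind_neg hk, ind_neg (Ne.symm hk)]
      simp
  simp only [e1]
  rw [Finset.sum_comm]
  refine Finset.sum_congr rfl fun ω' _ => ?_
  rw [← Finset.sum_mul]
  have := (cell_pos κ ω').ne'
  field_simp

/-- squared distance from the conditional average -/
noncomputable def defc (κ : Ω → ι) (f : Ω → ℝ) : ℝ := ∑ ω, (f ω - cavg κ f (κ ω)) ^ 2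

lemma defc_nonneg (κ : Ω → ι) (f : Ω → ℝ) : 0 ≤ defc κ f :=
  Finset.sum_nonneg fun _ _ => sq_nonneg _

lemma defc_le (κ : Ω → ι) (f g : Ω → ℝ) (hg : ∀ ω ω', κ ω = κ ω' → g ω = g ω') :
    defc κ f ≤ ∑ ω, (f ω - g ω) ^ 2 := by
  have h := cavg_orth κ f (fun ω => cavg κ f (κ ω) - g ω)
    (fun ω ω' hk => by simp only [hg ω ω' hk, hk])
  have e : ∑ ω, (f ω - g ω) ^ 2 = defc κ f + ∑ ω, (cavg κ f (κ ω) - g ω) ^ 2
      + 2 * (∑ ω, f ω * (cavg κ f (κ ω) - g ω)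
        - ∑ ω, cavg κ f (κ ω) * (cavg κ f (κ ω) - g ω)) := by
    unfold defc
    rw [← Finset.sum_sub_distrib, Finset.mul_sum, ← Finset.sum_add_distrib,
      ← Finset.sum_add_distrib]
    exact Finset.sum_congr rfl fun ω _ => by ring
  rw [e, h, sub_self, mul_zero, add_zero]
  have : 0 ≤ ∑ ω, (cavg κ f (κ ω) - g ω) ^ 2 := Finset.sum_nonneg fun _ _ => sq_nonneg _
  linarith

lemma defc_step {ι' : Type*} (κ : Ω → ι) (κ' : Ω → ι') (hκ : ∀ ω ω', κ' ω = κ' ω' → κ ω = κ ω')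
    (f h : Ω → ℝ) (hh : ∀ ω ω', κ' ω = κ' ω' → h ω = h ω') (d : ℝ) :
    defc κ' f ≤ defc κ f - 2 * d * ∑ ω, (cavg κ f (κ ω) - f ω) * h ω
      + d ^ 2 * ∑ ω, h ω ^ 2 := by
  refine (defc_le κ' f (fun ω => cavg κ f (κ ω) - d * h ω)
    (fun ω ω' hk => by simp only [hh ω ω' hk, hκ ω ω' hk])).trans (le_of_eq ?_)
  unfold defc
  rw [Finset.mul_sum, Finset.mul_sum, ← Finset.sum_sub_distrib, ← Finset.sum_add_distrib]
  exact Finset.sum_congr rfl fun ω _ => by ring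

end cond

section reg

variable {V : Type*} [Fintype V]

/-- the cell of an ordered pair -/
def cellOf {ι : Type*} (π : V → ι) (p : V × V) : Sym2 ι := s(π p.1, π p.2)

/-- a function on unordered pairs read on ordered pairs -/
def onPairs (f : Sym2 V → ℝ) (p : V × V) : ℝ := f s(p.1, p.2)

/-- the step function approximating `f` -/
noncomputable def stepf {ι : Type*} (π : V → ι) (f : Sym2 V → ℝ) (e : Sym2 V) : ℝ :=
  cavg (cellOf π) (onPairs f) (Sym2.map π e)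

/-- one sided smallness in cut norm -/
def CutLe (D : Sym2 V → ℝ) (η : ℝ) : Prop :=
  ∀ A B : Finset V, ∑ u, ∑ v, D s(u, v) * ind (u ∈ A) * ind (v ∈ B) ≤ η

lemma refine_aux {a b : ℕ} {p q p' q' : Prop} [Decidable p] [Decidable q] [Decidable p']
    [Decidable q']
    (h : 4 * a + 2 * (if p then 1 else 0) + (if q then 1 else 0)
      = 4 * b + 2 * (if p' then 1 else 0) + (if q' then 1 else 0)) :
    a = b ∧ (p ↔ p') ∧ (q ↔ q') := by
  by_cases h1 : p <;> by_cases h2 : q <;> by_cases h3 : p' <;> by_cases h4 : q' <;>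
    simp only [h1, h2, h3, h4, if_true, if_false] at h ⊢ <;> first | omega | (simp; omega)

lemma weak_reg_aux {α : Type*} [Fintype α] (f : α → Sym2 V → ℝ) (h0 : ∀ c e, 0 ≤ f c e)
    (h1 : ∀ c e, f c e ≤ 1) (ε : ℝ) (hε : 0 < ε) (j : ℕ) :
    ∃ π : V → ℕ, (∀ v, π v < 4 ^ j) ∧
      ((∀ c, CutLe (fun e => stepf π (f c) e - f c e) (ε * (Fintype.card V : ℝ) ^ 2)) ∨
        ∑ c, defc (cellOf π) (onPairs (f c))
          ≤ (Fintype.card α - j * ε ^ 2) * (Fintype.card V : ℝ) ^ 2) := by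
  classical
  induction j with
  | zero =>
    refine ⟨fun _ => 0, fun _ => by norm_num, Or.inr ?_⟩
    have : ∀ c, defc (cellOf (fun _ : V => (0 : ℕ))) (onPairs (f c))
        ≤ (Fintype.card V : ℝ) ^ 2 := by
      intro c
      refine (defc_le _ _ (fun _ => 0) (fun _ _ _ => rfl)).trans ?_
      calc ∑ ω : V × V, (onPairs (f c) ω - 0) ^ 2 ≤ ∑ _ω : V × V, (1 : ℝ) := by
            refine Finset.sum_le_sum fun ω _ => ?_
            have a := h0 c s(ω.1, ω.2)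
            have b := h1 c s(ω.1, ω.2)
            unfold onPairs
            nlinarith
        _ = _ := by simp [sq]
    refine (Finset.sum_le_sum fun c _ => this c).trans (le_of_eq ?_)
    simp
  | succ j ih =>
    obtain ⟨π, hπ, hor⟩ := ih
    by_cases hreg : ∀ c, CutLe (fun e => stepf π (f c) e - f c e)
        (ε * (Fintype.card V : ℝ) ^ 2)
    · exact ⟨π, fun v => (hπ v).trans_le (Nat.pow_le_pow_right (by norm_num) (by omega)),
        Or.inl hreg⟩
    have hD := hor.resolve_left hreg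
    simp only [CutLe, not_forall, not_le] at hreg
    obtain ⟨c0, A, B, hAB⟩ := hreg
    set π' : V → ℕ := fun v => 4 * π v + 2 * (if v ∈ A then 1 else 0) + (if v ∈ B then 1 else 0)
      with hπ'
    have hπ'eq : ∀ u v, π' u = π' v → π u = π v ∧ (u ∈ A ↔ v ∈ A) ∧ (u ∈ B ↔ v ∈ B) :=
      fun u v h => refine_aux h
    refine ⟨π', fun v => ?_, Or.inr ?_⟩
    · have := hπ v
      simp only [hπ', pow_succ]
      split_ifs <;> omega
    have hκ : ∀ ω ω' : V × V, cellOf π' ω = cellOf π' ω' → cellOf π ω = cellOf π ω' := by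
      intro ω ω' h
      unfold cellOf at h ⊢
      rcases Sym2.eq_iff.1 h with ⟨a, b⟩ | ⟨a, b⟩
      · rw [(hπ'eq _ _ a).1, (hπ'eq _ _ b).1]
      · rw [(hπ'eq _ _ a).1, (hπ'eq _ _ b).1, Sym2.eq_swap]
    set hh : V × V → ℝ := fun ω => ind (ω.1 ∈ A) * ind (ω.2 ∈ B) + ind (ω.2 ∈ A) * ind (ω.1 ∈ B)
      with hhh
    have hinv : ∀ ω ω' : V × V, cellOf π' ω = cellOf π' ω' → hh ω = hh ω' := by
      intro ω ω' h
      unfold cellOf at h
      simp only [hhh]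
      rcases Sym2.eq_iff.1 h with ⟨a, b⟩ | ⟨a, b⟩
      · rw [ind_congr (hπ'eq _ _ a).2.1, ind_congr (hπ'eq _ _ a).2.2,
          ind_congr (hπ'eq _ _ b).2.1, ind_congr (hπ'eq _ _ b).2.2]
      · rw [ind_congr (hπ'eq _ _ a).2.1, ind_congr (hπ'eq _ _ a).2.2,
          ind_congr (hπ'eq _ _ b).2.1, ind_congr (hπ'eq _ _ b).2.2]
        ring
    have hmono : ∀ c, defc (cellOf π') (onPairs (f c)) ≤ defc (cellOf π) (onPairs (f c)) := by
      intro c
      have := defc_step (cellOf π) (cellOf π') hκ (onPairs (f c)) hh hinv 0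
      simpa using this
    have hstep := defc_step (cellOf π) (cellOf π') hκ (onPairs (f c0)) hh hinv (ε / 2)
    have hsum : ∑ ω, (cavg (cellOf π) (onPairs (f c0)) (cellOf π ω) - onPairs (f c0) ω) * hh ω
        = 2 * ∑ u, ∑ v, (stepf π (f c0) s(u, v) - f c0 s(u, v)) * ind (u ∈ A) * ind (v ∈ B) := by
      have : ∀ ω : V × V,
          (cavg (cellOf π) (onPairs (f c0)) (cellOf π ω) - onPairs (f c0) ω) * hh ω
          = (stepf π (f c0) s(ω.1, ω.2) - f c0 s(ω.1, ω.2)) * ind (ω.1 ∈ A) * ind (ω.2 ∈ B)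
            + (stepf π (f c0) s(ω.2, ω.1) - f c0 s(ω.2, ω.1)) * ind (ω.2 ∈ A)
              * ind (ω.1 ∈ B) := by
        intro ω
        rw [Sym2.eq_swap (a := ω.2)]
        simp only [hhh, stepf, onPairs, cellOf, Sym2.map_mk]
        ring
      simp only [this, Finset.sum_add_distrib, Fintype.sum_prod_type]
      rw [Finset.sum_comm (f := fun u v => (stepf π (f c0) s(v, u) - f c0 s(v, u)) * ind (v ∈ A)
        * ind (u ∈ B))]
      ring
    have hsq : ∑ ω, hh ω ^ 2 ≤ 4 * (Fintype.card V : ℝ) ^ 2 := by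
      calc ∑ ω, hh ω ^ 2 ≤ ∑ _ω : V × V, (4 : ℝ) := by
            refine Finset.sum_le_sum fun ω _ => ?_
            have a1 : 0 ≤ hh ω := add_nonneg (mul_nonneg (ind_nonneg _) (ind_nonneg _))
              (mul_nonneg (ind_nonneg _) (ind_nonneg _))
            have a2 : hh ω ≤ 2 := by
              simp only [hhh, ← ind_and]
              linarith [ind_le_one (ω.1 ∈ A ∧ ω.2 ∈ B), ind_le_one (ω.2 ∈ A ∧ ω.1 ∈ B)]
            nlinarith
        _ = _ := by
            simp [sq]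
            ring
    rw [hsum] at hstep
    have hc0 : defc (cellOf π') (onPairs (f c0))
        ≤ defc (cellOf π) (onPairs (f c0)) - ε ^ 2 * (Fintype.card V : ℝ) ^ 2 := by
      have a1 := mul_le_mul_of_nonneg_left hsq (sq_nonneg (ε / 2))
      have a2 := mul_le_mul_of_nonneg_left hAB.le hε.le
      nlinarith
    rw [← Finset.add_sum_erase _ _ (Finset.mem_univ c0)] at hD ⊢
    have := Finset.sum_le_sum (s := univ.erase c0) fun c _ => hmono c
    push_cast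
    nlinarith

lemma weak_reg_cut {α : Type*} [Fintype α] (ε : ℝ) (hε : 0 < ε) : ∃ K' : ℕ,
    ∀ (V : Type) [Fintype V] (f : α → Sym2 V → ℝ), (∀ c e, 0 ≤ f c e) → (∀ c e, f c e ≤ 1) →
    ∃ π : V → ℕ, (∀ v, π v < K') ∧
      ∀ c, CutLe (fun e => stepf π (f c) e - f c e) (ε * (Fintype.card V : ℝ) ^ 2) := by
  obtain ⟨j, hj⟩ := exists_nat_gt ((Fintype.card α : ℝ) / ε ^ 2)
  refine ⟨4 ^ j, fun V _ f h0 h1 => ?_⟩
  obtain ⟨π, hπ, hor⟩ := weak_reg_aux f h0 h1 ε hε j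
  refine ⟨π, hπ, ?_⟩
  rcases hor with h | h
  · exact h
  rw [div_lt_iff₀ (by positivity)] at hj
  rcases isEmpty_or_nonempty V with hV | hV
  · intro c A B
    simp
  · exfalso
    have hn : (0 : ℝ) < Fintype.card V := by exact_mod_cast Fintype.card_pos
    have := Finset.sum_nonneg (s := univ) fun c _ => defc_nonneg (cellOf π) (onPairs (f c))
    have h2 : (Fintype.card α - j * ε ^ 2) * (Fintype.card V : ℝ) ^ 2 < 0 :=
      mul_neg_of_neg_of_pos (by linarith) (by positivity)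
    linarith

lemma frac1 (r a : V → ℝ) (h0 : ∀ u, 0 ≤ a u) (h1 : ∀ u, a u ≤ 1) :
    ∃ A : Finset V, ∑ u, r u * a u ≤ ∑ u, r u * ind (u ∈ A) := by
  classical
  refine ⟨univ.filter fun u => 0 < r u, Finset.sum_le_sum fun u _ => ?_⟩
  by_cases h : 0 < r u
  · rw [ind_pos (by simpa using h)]
    exact mul_le_mul_of_nonneg_left (h1 u) h.le
  · rw [ind_neg (by simpa using h), mul_zero]
    exact mul_nonpos_of_nonpos_of_nonneg (not_lt.1 h) (h0 u)

lemma CutLe.frac {D : Sym2 V → ℝ} {η : ℝ} (h : CutLe D η) (a b : V → ℝ) (a0 : ∀ u, 0 ≤ a u)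
    (a1 : ∀ u, a u ≤ 1) (b0 : ∀ u, 0 ≤ b u) (b1 : ∀ u, b u ≤ 1) :
    ∑ u, ∑ v, D s(u, v) * a u * b v ≤ η := by
  obtain ⟨A, hA⟩ := frac1 (fun u => ∑ v, D s(u, v) * b v) a a0 a1
  obtain ⟨B, hB⟩ := frac1 (fun v => ∑ u, D s(u, v) * ind (u ∈ A)) b b0 b1
  refine le_trans ?_ (h A B)
  calc ∑ u, ∑ v, D s(u, v) * a u * b v = ∑ u, (∑ v, D s(u, v) * b v) * a u := by
        refine Finset.sum_congr rfl fun u _ => ?_
        rw [Finset.sum_mul]
        exact Finset.sum_congr rfl fun v _ => by ring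
    _ ≤ _ := hA
    _ = ∑ v, (∑ u, D s(u, v) * ind (u ∈ A)) * b v := by
        simp only [Finset.sum_mul]
        rw [Finset.sum_comm]
        exact Finset.sum_congr rfl fun u _ => Finset.sum_congr rfl fun v _ => by ring
    _ ≤ _ := hB
    _ = _ := by
        simp only [Finset.sum_mul]
        rw [Finset.sum_comm]

/-- sum over quadruples -/
def S4 (F : V → V → V → V → ℝ) : ℝ := ∑ a, ∑ b, ∑ x, ∑ y, F a b x y

lemma S4_12 (F : V → V → V → V → ℝ) : S4 F = S4 fun a b x y => F b a x y := Finset.sum_comm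
lemma S4_23 (F : V → V → V → V → ℝ) : S4 F = S4 fun a b x y => F a x b y :=
  Finset.sum_congr rfl fun _ _ => Finset.sum_comm
lemma S4_34 (F : V → V → V → V → ℝ) : S4 F = S4 fun a b x y => F a b y x :=
  Finset.sum_congr rfl fun _ _ => Finset.sum_congr rfl fun _ _ => Finset.sum_comm
lemma S4_mono {F F' : V → V → V → V → ℝ} (h : ∀ a b x y, F a b x y ≤ F' a b x y) :
    S4 F ≤ S4 F' :=
  Finset.sum_le_sum fun _ _ => Finset.sum_le_sum fun _ _ => Finset.sum_le_sum fun _ _ =>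
    Finset.sum_le_sum fun _ _ => h _ _ _ _
lemma S4_add (F F' : V → V → V → V → ℝ) :
    S4 (fun a b x y => F a b x y + F' a b x y) = S4 F + S4 F' := by
  simp only [S4, Finset.sum_add_distrib]

/-- values in the unit interval -/
def U01 (x : ℝ) : Prop := 0 ≤ x ∧ x ≤ 1

lemma U01.mul {x y : ℝ} (hx : U01 x) (hy : U01 y) : U01 (x * y) :=
  ⟨mul_nonneg hx.1 hy.1, mul_le_one₀ hx.2 hy.1 hy.2⟩

lemma cut_xy {D : Sym2 V → ℝ} {η : ℝ} (h : CutLe D η) (P Q : V → V → V → ℝ)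
    (hP : ∀ a b c, U01 (P a b c)) (hQ : ∀ a b c, U01 (Q a b c)) :
    S4 (fun a b x y => D s(x, y) * P a b x * Q a b y) ≤ η * (Fintype.card V : ℝ) ^ 2 := by
  calc S4 (fun a b x y => D s(x, y) * P a b x * Q a b y) ≤ ∑ _a : V, ∑ _b : V, η :=
        Finset.sum_le_sum fun a _ => Finset.sum_le_sum fun b _ =>
          h.frac (P a b) (Q a b) (fun u => (hP a b u).1) (fun u => (hP a b u).2)
            (fun u => (hQ a b u).1) (fun u => (hQ a b u).2)
    _ = _ := by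
        simp
        ring

lemma counting {η : ℝ} (f g : Fin 6 → Sym2 V → ℝ) (hf : ∀ i e, U01 (f i e))
    (hg : ∀ i e, U01 (g i e)) (h : ∀ i, CutLe (fun e => g i e - f i e) η) :
    S4 (fun a b x y => ∏ i, g i (six a b x y i))
      ≤ S4 (fun a b x y => ∏ i, f i (six a b x y i)) + 6 * (η * (Fintype.card V : ℝ) ^ 2) := by
  have t0 : S4 (fun a b x y => (g 0 s(a, b) - f 0 s(a, b))
      * (g 1 s(a, x) * g 2 s(a, y) * g 5 s(x, y)) * (g 3 s(b, x) * g 4 s(b, y)))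
      ≤ η * (Fintype.card V : ℝ) ^ 2 := by
    rw [S4_23, S4_12, S4_34, S4_23]
    exact cut_xy (h 0) (fun x y a => g 1 s(a, x) * g 2 s(a, y) * g 5 s(x, y))
      (fun x y b => g 3 s(b, x) * g 4 s(b, y))
      (fun _ _ _ => ((hg _ _).mul (hg _ _)).mul (hg _ _)) (fun _ _ _ => (hg _ _).mul (hg _ _))
  have t1 : S4 (fun a b x y => (g 1 s(a, x) - f 1 s(a, x))
      * (f 0 s(a, b) * g 2 s(a, y) * g 4 s(b, y)) * (g 3 s(b, x) * g 5 s(x, y)))
      ≤ η * (Fintype.card V : ℝ) ^ 2 := by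
    rw [S4_12, S4_34, S4_23]
    exact cut_xy (h 1) (fun b y a => f 0 s(a, b) * g 2 s(a, y) * g 4 s(b, y))
      (fun b y x => g 3 s(b, x) * g 5 s(x, y))
      (fun _ _ _ => ((hf _ _).mul (hg _ _)).mul (hg _ _)) (fun _ _ _ => (hg _ _).mul (hg _ _))
  have t2 : S4 (fun a b x y => (g 2 s(a, y) - f 2 s(a, y))
      * (f 0 s(a, b) * f 1 s(a, x) * g 3 s(b, x)) * (g 4 s(b, y) * g 5 s(x, y)))
      ≤ η * (Fintype.card V : ℝ) ^ 2 := by
    rw [S4_12, S4_23]
    exact cut_xy (h 2) (fun b x a => f 0 s(a, b) * f 1 s(a, x) * g 3 s(b, x))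
      (fun b x y => g 4 s(b, y) * g 5 s(x, y))
      (fun _ _ _ => ((hf _ _).mul (hf _ _)).mul (hg _ _)) (fun _ _ _ => (hg _ _).mul (hg _ _))
  have t3 : S4 (fun a b x y => (g 3 s(b, x) - f 3 s(b, x))
      * (f 0 s(a, b) * f 2 s(a, y) * g 4 s(b, y)) * (f 1 s(a, x) * g 5 s(x, y)))
      ≤ η * (Fintype.card V : ℝ) ^ 2 := by
    rw [S4_34, S4_23]
    exact cut_xy (h 3) (fun a y b => f 0 s(a, b) * f 2 s(a, y) * g 4 s(b, y))
      (fun a y x => f 1 s(a, x) * g 5 s(x, y))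
      (fun _ _ _ => ((hf _ _).mul (hf _ _)).mul (hg _ _)) (fun _ _ _ => (hf _ _).mul (hg _ _))
  have t4 : S4 (fun a b x y => (g 4 s(b, y) - f 4 s(b, y))
      * (f 0 s(a, b) * f 1 s(a, x) * f 3 s(b, x)) * (f 2 s(a, y) * g 5 s(x, y)))
      ≤ η * (Fintype.card V : ℝ) ^ 2 := by
    rw [S4_23]
    exact cut_xy (h 4) (fun a x b => f 0 s(a, b) * f 1 s(a, x) * f 3 s(b, x))
      (fun a x y => f 2 s(a, y) * g 5 s(x, y))
      (fun _ _ _ => ((hf _ _).mul (hf _ _)).mul (hf _ _)) (fun _ _ _ => (hf _ _).mul (hg _ _))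
  have t5 : S4 (fun a b x y => (g 5 s(x, y) - f 5 s(x, y))
      * (f 0 s(a, b) * f 1 s(a, x) * f 3 s(b, x)) * (f 2 s(a, y) * f 4 s(b, y)))
      ≤ η * (Fintype.card V : ℝ) ^ 2 :=
    cut_xy (h 5) (fun a b x => f 0 s(a, b) * f 1 s(a, x) * f 3 s(b, x))
      (fun a b y => f 2 s(a, y) * f 4 s(b, y))
      (fun _ _ _ => ((hf _ _).mul (hf _ _)).mul (hf _ _)) (fun _ _ _ => (hf _ _).mul (hf _ _))
  have hsum := add_le_add (add_le_add (add_le_add (add_le_add (add_le_add (add_le_add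
    (le_refl (S4 (fun a b x y => ∏ i, f i (six a b x y i)))) t0) t1) t2) t3) t4) t5
  simp only [← S4_add] at hsum
  refine le_trans (S4_mono fun a b x y => le_of_eq ?_) (hsum.trans (le_of_eq (by ring)))
  simp only [Fin.prod_univ_six, six, Matrix.cons_val]
  ring

end reg

end Pool.Agent.P.MP_ea05a2_co
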