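import Pool.Agent.P.MP_ea05a2_co.Lagr

/-!
The robust form of the Lagrangian inequality, obtained by sampling.
-/

namespace Pool.Agent.P.MP_ea05a2_co

open Finset

lemma sum_mul_ind_eq {C : Type*} [Fintype C] (f : C → ℝ) (a : C) :
    ∑ c, f c * ind (c = a) = f a := by
  rw [Finset.sum_eq_single a]
  · rw [ind_pos rfl, mul_one]
  · intro b _ hb
    rw [ind_neg hb, mul_zero]
  · simp

lemma marg_fun {U C κ : Type*} [Fintype U] [DecidableEq U] [Fintype C] [Fintype κ]
    [DecidableEq κ]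
    (q : U → C → ℝ) (hq : ∀ u, ∑ c, q u c = 1) (β : κ → U) (hβ : Function.Injective β)
    (φ : (κ → C) → ℝ) :
    ∑ χ : U → C, (∏ u, q u (χ u)) * φ (fun k => χ (β k))
      = ∑ z : κ → C, (∏ k, q (β k) (z k)) * φ z := by
  have e1 : ∀ χ : U → C, φ (fun k => χ (β k))
      = ∑ z : κ → C, φ z * ∏ k, ind (χ (β k) = z k) := by
    intro χ
    rw [Finset.sum_eq_single (fun k => χ (β k))]
    · simp [ind_pos]
    · intro z _ hz
      obtain ⟨k, hk⟩ := Function.ne_iff.1 hz
      rw [Finset.prod_eq_zero (Finset.mem_univ k) (ind_neg (Ne.symm hk)), mul_zero]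
    · simp
  simp only [e1, Finset.mul_sum]
  rw [Finset.sum_comm]
  refine Finset.sum_congr rfl fun z _ => ?_
  have key := marg q hq univ β hβ.injOn (fun k c => ind (c = z k))
  simp only [sum_mul_ind_eq] at key
  rw [← key, Finset.sum_mul]
  exact Finset.sum_congr rfl fun χ _ => by ring

lemma sum_fin2 {C : Type*} [Fintype C] (f : C → C → ℝ) :
    ∑ z : Fin 2 → C, f (z 0) (z 1) = ∑ a, ∑ b, f a b := by
  rw [← Finset.sum_product', Finset.univ_product_univ]
  exact Fintype.sum_equiv (piFinTwoEquiv fun _ => C) _ _ fun z => rfl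

/-- functions on four points are quadruples -/
def fin4Equiv (C : Type*) : (Fin 4 → C) ≃ C × C × C × C where
  toFun z := (z 0, z 1, z 2, z 3)
  invFun p := ![p.1, p.2.1, p.2.2.1, p.2.2.2]
  left_inv z := by
    funext i
    fin_cases i <;> rfl
  right_inv _ := rfl

lemma sum_fin4 {C : Type*} [Fintype C] (f : C → C → C → C → ℝ) :
    ∑ z : Fin 4 → C, f (z 0) (z 1) (z 2) (z 3) = ∑ a, ∑ b, ∑ x, ∑ y, f a b x y := by
  rw [Fintype.sum_equiv (fin4Equiv C) (fun z => f (z 0) (z 1) (z 2) (z 3))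
    (fun p => f p.1 p.2.1 p.2.2.1 p.2.2.2) fun z => rfl]
  simp only [Fintype.sum_prod_type]

/-- the number of quadruples carrying a system of distinct representatives -/
noncomputable def nS {V α : Type*} [Fintype V] (L : Sym2 V → Finset α) : ℝ :=
  ∑ a, ∑ b, ∑ x, ∑ y, ind (SDR L a b x y)

lemma nS_nonneg {V α : Type*} [Fintype V] (L : Sym2 V → Finset α) : 0 ≤ nS L :=
  Finset.sum_nonneg fun _ _ => Finset.sum_nonneg fun _ _ => Finset.sum_nonneg fun _ _ =>
    Finset.sum_nonneg fun _ _ => ind_nonneg _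

lemma six_map {V W : Type*} (f : V → W) (a b x y : V) (i : Fin 6) :
    Sym2.map f (six a b x y i) = six (f a) (f b) (f x) (f y) i := by
  fin_cases i <;> rfl

lemma sample_pt {V α : Type*} (L : Sym2 V → Finset α) (m : ℕ) (y : Fin m → V) :
    ∑ i, ∑ j, ind (i ≠ j) * tau (L s(y i, y j)).card
      ≤ 2 * (m : ℝ) ^ 2 + 3 * (m : ℝ) ^ 2 *
        ∑ z : Fin 4 → Fin m, ind (Function.Injective z) *
          ind (SDR L (y (z 0)) (y (z 1)) (y (z 2)) (y (z 3))) := by
  have hnn : ∀ z : Fin 4 → Fin m, 0 ≤ ind (Function.Injective z) *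
      ind (SDR L (y (z 0)) (y (z 1)) (y (z 2)) (y (z 3))) :=
    fun z => mul_nonneg (ind_nonneg _) (ind_nonneg _)
  by_cases h : ∃ z : Fin 4 → Fin m, Function.Injective z ∧
      SDR L (y (z 0)) (y (z 1)) (y (z 2)) (y (z 3))
  · obtain ⟨z, hz1, hz2⟩ := h
    have h1 : (1 : ℝ) ≤ ∑ z : Fin 4 → Fin m, ind (Function.Injective z) *
        ind (SDR L (y (z 0)) (y (z 1)) (y (z 2)) (y (z 3))) := by
      refine le_trans ?_ (Finset.single_le_sum (fun z _ => hnn z) (Finset.mem_univ z))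
      rw [ind_pos hz1, ind_pos hz2, one_mul]
    have h2 : ∑ i, ∑ j, ind (i ≠ j) * tau (L s(y i, y j)).card ≤ ∑ _i : Fin m, ∑ _j : Fin m,
        (3 : ℝ) := by
      refine Finset.sum_le_sum fun i _ => Finset.sum_le_sum fun j _ => ?_
      nlinarith [ind_nonneg (i ≠ j), ind_le_one (i ≠ j), tau_nonneg (L s(y i, y j)).card,
        tau_le (L s(y i, y j)).card]
    simp only [Finset.sum_const, Finset.card_univ, Fintype.card_fin, nsmul_eq_mul] at h2
    nlinarith [sq_nonneg (m : ℝ)]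
  · have key := lagr (W := Fin m) (fun e => L (Sym2.map y e)) (by
      intro a b c d h1 h2 h3 h4 h5 h6 hs
      refine h ⟨![a, b, c, d], ?_, ?_⟩
      · intro i j
        fin_cases i <;> fin_cases j <;> simp_all [eq_comm]
      · obtain ⟨col, hc1, hc2⟩ := hs
        refine ⟨col, hc1, fun i => ?_⟩
        have := hc2 i
        beta_reduce at this
        rwa [six_map] at this)
    simp only [Sym2.map_mk, Fintype.card_fin] at key
    have := Finset.sum_nonneg (fun z (_ : z ∈ (univ : Finset (Fin 4 → Fin m))) => hnn z)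
    nlinarith [sq_nonneg (m : ℝ)]

lemma sum_ind_ne (m : ℕ) : ∑ i : Fin m, ∑ j : Fin m, ind (i ≠ j) = (m : ℝ) * (m - 1) := by
  have : ∀ i : Fin m, ∑ j : Fin m, ind (i ≠ j) = (m : ℝ) - 1 := by
    intro i
    simp only [ne_eq, ind_not, Finset.sum_sub_distrib]
    rw [Finset.sum_congr rfl (fun j _ => ind_congr (eq_comm (a := i) (b := j))), sum_ind_eq]
    simp
  rw [Finset.sum_congr rfl fun i _ => this i, Finset.sum_const, Finset.card_univ,
    Fintype.card_fin, nsmul_eq_mul]

lemma sample {V α : Type*} [Fintype V] (L : Sym2 V → Finset α) (m : ℕ) (A : Finset V)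
    (hA : A.Nonempty) :
    (m : ℝ) * (m - 1) * ((∑ a ∈ A, ∑ b ∈ A, tau (L s(a, b)).card) / (A.card : ℝ) ^ 2)
      ≤ 2 * (m : ℝ) ^ 2 + 3 * (m : ℝ) ^ 2 * ((m : ℝ) ^ 4 * (nS L / (A.card : ℝ) ^ 4)) := by
  classical
  have hApos : (0 : ℝ) < A.card := by exact_mod_cast hA.card_pos
  set q : Fin m → V → ℝ := fun _ c => ind (c ∈ A) / A.card with hq
  have hq1 : ∀ u, ∑ c, q u c = 1 := by
    intro u
    simp only [hq]
    rw [← Finset.sum_div, sum_ind_mem, div_self hApos.ne']
  have hq0 : ∀ u c, 0 ≤ q u c := fun u c => div_nonneg (ind_nonneg _) hApos.le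
  have hqle : ∀ u c, q u c ≤ 1 / A.card := fun u c =>
    div_le_div_of_nonneg_right (ind_le_one _) hApos.le
  have htot : ∑ y : Fin m → V, ∏ u, q u (y u) = 1 := by
    rw [← Fintype.piFinset_univ, ← Finset.prod_univ_sum]
    simp only [hq1, Finset.prod_const_one]
  have hQ0 : ∀ y : Fin m → V, 0 ≤ ∏ u, q u (y u) :=
    fun y => Finset.prod_nonneg fun u _ => hq0 u _
  have main := Finset.sum_le_sum (s := (univ : Finset (Fin m → V)))
    (fun y _ => mul_le_mul_of_nonneg_left (sample_pt L m y) (hQ0 y))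
  have lhs : ∑ y : Fin m → V, (∏ u, q u (y u)) *
      ∑ i, ∑ j, ind (i ≠ j) * tau (L s(y i, y j)).card
      = (m : ℝ) * (m - 1) * ((∑ a ∈ A, ∑ b ∈ A, tau (L s(a, b)).card) / (A.card : ℝ) ^ 2) := by
    rw [← sum_ind_ne, Finset.sum_mul]
    simp only [Finset.mul_sum]
    rw [Finset.sum_comm]
    refine Finset.sum_congr rfl fun i _ => ?_
    rw [Finset.sum_comm, Finset.sum_mul]
    refine Finset.sum_congr rfl fun j _ => ?_
    by_cases hij : i = j
    · rw [ind_neg (by simpa using hij)]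
      simp
    · rw [ind_pos hij]
      simp only [one_mul]
      have key := marg_fun q hq1 ![i, j] (by
        intro a b
        fin_cases a <;> fin_cases b <;> simp_all [eq_comm])
        (fun z => tau (L s(z 0, z 1)).card)
      simp only [Matrix.cons_val_zero, Matrix.cons_val_one, Fin.prod_univ_two] at key
      rw [key, sum_fin2 (fun a b => q i a * q j b * tau (L s(a, b)).card), Finset.sum_div]
      symm
      rw [← Finset.sum_subset (Finset.subset_univ A)]
      · refine Finset.sum_congr rfl fun a ha => ?_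
        rw [← Finset.sum_subset (Finset.subset_univ A), Finset.sum_div]
        · refine Finset.sum_congr rfl fun b hb => ?_
          simp only [hq, ind_pos ha, ind_pos hb]
          field_simp
        · intro b _ hb
          simp only [hq, ind_neg hb]
          simp
      · intro a _ ha
        simp only [hq, ind_neg ha]
        simp
  have rhs : ∀ z : Fin 4 → Fin m, ∑ y : Fin m → V, (∏ u, q u (y u)) *
      (ind (Function.Injective z) * ind (SDR L (y (z 0)) (y (z 1)) (y (z 2)) (y (z 3))))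
      ≤ nS L / (A.card : ℝ) ^ 4 := by
    intro z
    by_cases hz : Function.Injective z
    · rw [ind_pos hz]
      simp only [one_mul]
      have key := marg_fun q hq1 z hz (fun w => ind (SDR L (w 0) (w 1) (w 2) (w 3)))
      rw [key, nS, ← sum_fin4 (fun a b x y => ind (SDR L a b x y)), Finset.sum_div]
      refine Finset.sum_le_sum fun w _ => ?_
      have : ∏ k, q (z k) (w k) ≤ 1 / (A.card : ℝ) ^ 4 := by
        calc ∏ k, q (z k) (w k) ≤ ∏ _k : Fin 4, 1 / (A.card : ℝ) :=
              Finset.prod_le_prod (fun k _ => hq0 (z k) _) fun k _ => hqle (z k) _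
          _ = _ := by simp
      calc _ ≤ 1 / (A.card : ℝ) ^ 4 * ind (SDR L (w 0) (w 1) (w 2) (w 3)) :=
            mul_le_mul_of_nonneg_right this (ind_nonneg _)
        _ = _ := by ring
    · rw [ind_neg hz]
      simp only [zero_mul, mul_zero, Finset.sum_const_zero]
      exact div_nonneg (nS_nonneg L) (by positivity)
  rw [lhs] at main
  refine main.trans ?_
  simp only [mul_add, Finset.sum_add_distrib]
  rw [← Finset.sum_mul, htot, one_mul]
  gcongr
  have : ∀ y : Fin m → V, (∏ u, q u (y u)) * (3 * (m : ℝ) ^ 2 *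
      ∑ z : Fin 4 → Fin m, ind (Function.Injective z) *
          ind (SDR L (y (z 0)) (y (z 1)) (y (z 2)) (y (z 3))))
      = 3 * (m : ℝ) ^ 2 * ∑ z : Fin 4 → Fin m, (∏ u, q u (y u)) * (ind (Function.Injective z) *
          ind (SDR L (y (z 0)) (y (z 1)) (y (z 2)) (y (z 3)))) := by
    intro y
    rw [← Finset.mul_sum]
    ring
  rw [Finset.sum_congr rfl fun y _ => this y, ← Finset.mul_sum, Finset.sum_comm]
  refine mul_le_mul_of_nonneg_left ?_ (by positivity)
  refine (Finset.sum_le_sum fun z _ => rhs z).trans (le_of_eq ?_)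
  simp

/-- robust Lagrangian inequality -/
lemma lagr_robust (ε' : ℝ) (hε' : 0 < ε') : ∃ ε : ℝ, 0 < ε ∧
    ∀ (V α : Type) [Fintype V] (L : Sym2 V → Finset α), nS L ≤ ε * (Fintype.card V : ℝ) ^ 4 →
      ∀ A : Finset V, (Fintype.card V : ℝ) ≤ 2 * A.card →
        ∑ a ∈ A, ∑ b ∈ A, tau (L s(a, b)).card
          ≤ 2 * (A.card : ℝ) ^ 2 + ε' * (Fintype.card V : ℝ) ^ 2 := by
  obtain ⟨k, hk⟩ := exists_nat_ge (4 / ε' + 1)
  have hk1 : (1 : ℝ) ≤ k := by
    have : 0 < 4 / ε' := by positivity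
    linarith
  have hk2 : 4 ≤ k * ε' := by
    have : 4 / ε' ≤ k := by linarith
    rwa [div_le_iff₀ hε'] at this
  refine ⟨ε' / (24 * ((k : ℝ) + 1) ^ 5), by positivity, ?_⟩
  intro V α _ L hL A hA
  rcases A.eq_empty_or_nonempty with rfl | hne
  · simp only [Finset.sum_empty, Finset.card_empty, Nat.cast_zero]
    positivity
  have key := sample L (k + 1) A hne
  push_cast at key
  set n : ℝ := (Fintype.card V : ℝ) with hn
  set a : ℝ := (A.card : ℝ) with ha
  set T : ℝ := ∑ a ∈ A, ∑ b ∈ A, tau (L s(a, b)).card with hT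
  have hapos : 0 < a := by
    rw [ha]
    exact_mod_cast hne.card_pos
  have han : a ≤ n := by
    rw [ha, hn]
    exact_mod_cast Finset.card_le_univ A
  have hn0 : 0 ≤ n := by linarith
  set M : ℝ := (k : ℝ) + 1 with hM
  have hMpos : 0 < M := by linarith
  have e1 : nS L / a ^ 4 ≤ (ε' / (24 * M ^ 5)) * (4 * n ^ 2 / a ^ 2) := by
    rw [div_le_iff₀ (by positivity)]
    refine hL.trans ?_
    rw [mul_assoc]
    refine mul_le_mul_of_nonneg_left ?_ (by positivity)
    have : 4 * n ^ 2 / a ^ 2 * a ^ 4 = n ^ 2 * (2 * a) ^ 2 := by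
      field_simp
      ring
    rw [this]
    have h2 : n ^ 2 ≤ (2 * a) ^ 2 := by gcongr
    nlinarith [sq_nonneg n]
  have e2 : M * (M - 1) * (T / a ^ 2) ≤ 2 * M ^ 2 + M * (ε' * n ^ 2 / (2 * a ^ 2)) := by
    refine key.trans ?_
    have : 3 * M ^ 2 * (M ^ 4 * (nS L / a ^ 4))
        ≤ 3 * M ^ 2 * (M ^ 4 * ((ε' / (24 * M ^ 5)) * (4 * n ^ 2 / a ^ 2))) := by gcongr
    have h2 : 3 * M ^ 2 * (M ^ 4 * ((ε' / (24 * M ^ 5)) * (4 * n ^ 2 / a ^ 2)))
        = M * (ε' * n ^ 2 / (2 * a ^ 2)) := by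
      field_simp
      ring
    linarith
  have e3 : (k : ℝ) * T ≤ 2 * M * a ^ 2 + ε' * n ^ 2 / 2 := by
    have h1 : M * ((k : ℝ) * (T / a ^ 2)) ≤ M * (2 * M + ε' * n ^ 2 / (2 * a ^ 2)) := by
      have : M - 1 = k := by rw [hM]; ring
      rw [this] at e2
      nlinarith
    have h2 := le_of_mul_le_mul_left h1 hMpos
    have h3 := mul_le_mul_of_nonneg_right h2 (sq_nonneg a)
    have h4 : (k : ℝ) * (T / a ^ 2) * a ^ 2 = k * T := by field_simp
    have h5 : (2 * M + ε' * n ^ 2 / (2 * a ^ 2)) * a ^ 2 = 2 * M * a ^ 2 + ε' * n ^ 2 / 2 := by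
      field_simp
    linarith
  have e4 : (k : ℝ) * T ≤ k * (2 * a ^ 2 + ε' * n ^ 2) := by
    have h1 : a ^ 2 ≤ n ^ 2 := by gcongr
    have h2 : 4 * n ^ 2 ≤ k * ε' * n ^ 2 := mul_le_mul_of_nonneg_right hk2 (sq_nonneg n)
    have h3 : ε' * n ^ 2 ≤ k * (ε' * n ^ 2) := le_mul_of_one_le_left (by positivity) hk1
    rw [hM] at e3
    nlinarith
  exact le_of_mul_le_mul_left e4 (by linarith)

end Pool.Agent.P.MP_ea05a2_co
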