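import Pool.Agent.P.MP_ea05a2_co.Common

/-!
Between six and eleven colours: stability and the local hypotheses.
-/

namespace Pool.Agent.P.MP_ea05a2_co

open Finset

/-- target lists: the colours of `S` on every genuine pair -/
def TS {V α : Type*} [DecidableEq V] (S : Finset α) (e : Sym2 V) : Finset (Option α) :=
  if e.IsDiag then {none} else S.map Function.Embedding.some

open Classical in
/-- base lists: the colours of `S` on the edges of `G` -/
noncomputable def T0S {V α : Type*} (G : SimpleGraph V) (S : Finset α) (e : Sym2 V) :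
    Finset (Option α) :=
  if e ∈ G.edgeSet then S.map Function.Embedding.some else {none}

open Classical in
/-- lists at a vertex of a given type -/
noncomputable def TvS {V α : Type*} (G : SimpleGraph V) (τ : Finset α) (v u : V) :
    Finset (Option α) :=
  if G.Adj v u then τ.map Function.Embedding.some else {none}

lemma some_mem_TS {V α : Type*} [DecidableEq V] {S : Finset α} {u v : V} (h : u ≠ v) {c : α} :
    some c ∈ TS S s(u, v) ↔ c ∈ S := by
  simp [TS, h]

lemma TS_nonempty {V α : Type*} [DecidableEq V] {S : Finset α} (hS : S.Nonempty) (e : Sym2 V) :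
    (TS S e).Nonempty := by
  unfold TS
  split_ifs
  · simp
  · simpa using hS

lemma log_TS {V α : Type*} [DecidableEq V] {S : Finset α} (hS : S.card = 5) (u v : V) :
    Real.log (TS S s(u, v)).card = ind (u ≠ v) * Real.log 5 := by
  by_cases h : u = v
  · subst h
    simp [TS, ind_neg]
  · rw [ind_pos h]
    simp [TS, h, hS]

lemma sum_ind_ne' {V : Type*} [Fintype V] (v : V) :
    ∑ u, ind (v ≠ u) = (Fintype.card V : ℝ) - 1 := by
  simp only [ne_eq, ind_not, Finset.sum_sub_distrib]
  rw [Finset.sum_congr rfl (fun j _ => ind_congr (eq_comm (a := v) (b := j))), sum_ind_eq]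
  simp

lemma lZ_TS {V α : Type*} [Fintype V] [DecidableEq V] {S : Finset α} (hS : S.card = 5) :
    lZ (TS (V := V) S) = ((Fintype.card V : ℝ) ^ 2 - Fintype.card V) / 2 * Real.log 5 := by
  have h := sum_sym2 (fun e : Sym2 V => Real.log (TS S e).card)
  simp only [log_TS hS, ← Finset.sum_mul, sum_ind_ne'] at h
  rw [Finset.sum_eq_zero (f := fun v : V => ind (v ≠ v)) (fun v _ => ind_neg (by simp))] at h
  simp only [Finset.sum_const, Finset.card_univ, nsmul_eq_mul] at h
  unfold lZ
  linarith

lemma log_le_small {m : ℕ} (hm : m ≤ 11) : Real.log m ≤ Real.log 11 / 3 * tau m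
    + (Real.log 5 - 2 * Real.log 11 / 3) * ind (m = 5) := by
  have h8 : 3 * Real.log 2 ≤ Real.log 11 := by
    have : Real.log (2 ^ 3) ≤ Real.log 11 := Real.log_le_log (by norm_num) (by norm_num)
    rwa [Real.log_pow] at this
  have h64 : 3 * Real.log 4 ≤ 2 * Real.log 11 := by
    have : Real.log (4 ^ 3) ≤ Real.log (11 ^ 2) := Real.log_le_log (by norm_num) (by norm_num)
    rwa [Real.log_pow, Real.log_pow] at this
  unfold tau
  by_cases h5 : m = 5
  · subst h5
    rw [ind_pos rfl]
    norm_num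
    linarith
  rw [ind_neg h5, mul_zero, add_zero]
  split_ifs with h1 h2 h3
  · have : m = 0 ∨ m = 1 := by omega
    rcases this with rfl | rfl <;> simp
  · subst h2
    push_cast
    linarith
  · have := log_card_mono (show m ≤ 4 by omega)
    push_cast at this
    linarith
  · have := log_card_mono hm
    push_cast at this
    linarith

lemma eta_small_pos : 0 < Real.log 5 - 2 * Real.log 11 / 3 := by
  have : Real.log (11 ^ 2) < Real.log (5 ^ 3) := Real.log_lt_log (by norm_num) (by norm_num)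
  rw [Real.log_pow, Real.log_pow] at this
  push_cast at this
  linarith

lemma eq_of_no_sdr {α : Type*} (M : Fin 6 → Finset α) (h5 : ∀ i, (M i).card = 5)
    (h : ¬ ∃ col : Fin 6 → α, Function.Injective col ∧ ∀ i, col i ∈ M i) : M 0 = M 5 := by
  classical
  by_contra hne
  apply h
  rw [← Finset.all_card_le_biUnion_card_iff_exists_injective]
  intro s
  rcases s.eq_empty_or_nonempty with rfl | ⟨i, hi⟩
  · simp
  by_cases hs : s.card ≤ 5
  · exact hs.trans ((h5 i).ge.trans (Finset.card_le_card (Finset.subset_biUnion_of_mem M hi)))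
  · have hs6 : s.card ≤ 6 := by simpa using Finset.card_le_univ s
    have hsu : s = univ := Finset.eq_univ_of_card s (by simp; omega)
    subst hsu
    have h1 : M 0 ⊂ M 0 ∪ M 5 := by
      refine Finset.ssubset_iff_subset_ne.2 ⟨Finset.subset_union_left, fun h2 => hne ?_⟩
      have : M 5 ⊆ M 0 := h2 ▸ Finset.subset_union_right
      exact (Finset.eq_of_subset_of_card_le this (by rw [h5, h5])).symm
    have h2 := Finset.card_lt_card h1
    have h3 : M 0 ∪ M 5 ⊆ univ.biUnion M :=
      Finset.union_subset (Finset.subset_biUnion_of_mem M (Finset.mem_univ _))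
        (Finset.subset_biUnion_of_mem M (Finset.mem_univ _))
    have h4 := Finset.card_le_card h3
    rw [h5] at h2
    omega

lemma common_set {V α : Type*} [Fintype V] [Nonempty V] (L : Sym2 V → Finset α) (ε δ : ℝ)
    (hεδ : ε + 6 * δ < 1) (h1 : nS L ≤ ε * (Fintype.card V : ℝ) ^ 4)
    (h2 : ∑ u, ∑ v, ind ((L s(u, v)).card ≠ 5) ≤ δ * (Fintype.card V : ℝ) ^ 2) :
    ∃ S : Finset α, S.card = 5 ∧
      ∑ u, ∑ v, ind (L s(u, v) ≠ S) ≤ (ε + 6 * δ) * (Fintype.card V : ℝ) ^ 2 := by
  set n : ℝ := (Fintype.card V : ℝ) with hn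
  have hn0 : 0 < n := by
    rw [hn]
    exact_mod_cast Fintype.card_pos
  set φ : V → V → ℝ := fun u v => ind ((L s(u, v)).card ≠ 5) with hφ
  have hφ0 : ∀ u v, 0 ≤ φ u v := fun u v => ind_nonneg _
  set bad : V → V → V → V → ℝ := fun a b x y => ind (SDR L a b x y) + φ a b + φ a x + φ a y
    + φ b x + φ b y + φ x y with hbad
  have hS : S4 bad ≤ (ε + 6 * δ) * n ^ 2 * n ^ 2 := by
    simp only [hbad, S4_add, S4_ab, S4_ax, S4_ay, S4_bx, S4_by, S4_xy]
    have := mul_le_mul_of_nonneg_left h2 (sq_nonneg n)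
    have h3 : S4 (fun a b x y => ind (SDR L a b x y)) = nS L := rfl
    rw [h3, ← hn]
    nlinarith
  rw [S4_23, S4_12, S4_34, S4_23] at hS
  obtain ⟨x, y, hxy⟩ := exists_le_avg2 (fun x y => ∑ a, ∑ b, bad a b x y) _ hS
  refine ⟨L s(x, y), ?_, le_trans ?_ hxy⟩
  · by_contra h5
    have : ∑ _a : V, ∑ _b : V, (1 : ℝ) ≤ ∑ a, ∑ b, bad a b x y := by
      refine Finset.sum_le_sum fun a _ => Finset.sum_le_sum fun b _ => ?_
      have : φ x y = 1 := ind_pos h5
      simp only [hbad]
      linarith [ind_nonneg (SDR L a b x y), hφ0 a b, hφ0 a x, hφ0 a y, hφ0 b x, hφ0 b y]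
    simp only [Finset.sum_const, Finset.card_univ, nsmul_eq_mul, ← hn] at this
    nlinarith [mul_pos hn0 hn0]
  · refine Finset.sum_le_sum fun a _ => Finset.sum_le_sum fun b _ => ?_
    have n0 := ind_nonneg (SDR L a b x y)
    have n1 := hφ0 a b
    have n2 := hφ0 a x
    have n3 := hφ0 a y
    have n4 := hφ0 b x
    have n5 := hφ0 b y
    have n6 := hφ0 x y
    have n7 := ind_le_one (L s(a, b) ≠ L s(x, y))
    simp only [hbad]
    by_cases g0 : SDR L a b x y
    · linarith [ind_pos g0]
    by_cases g1 : (L s(a, b)).card ≠ 5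
    · linarith [show φ a b = 1 from ind_pos g1]
    by_cases g2 : (L s(a, x)).card ≠ 5
    · linarith [show φ a x = 1 from ind_pos g2]
    by_cases g3 : (L s(a, y)).card ≠ 5
    · linarith [show φ a y = 1 from ind_pos g3]
    by_cases g4 : (L s(b, x)).card ≠ 5
    · linarith [show φ b x = 1 from ind_pos g4]
    by_cases g5 : (L s(b, y)).card ≠ 5
    · linarith [show φ b y = 1 from ind_pos g5]
    by_cases g6 : (L s(x, y)).card ≠ 5
    · linarith [show φ x y = 1 from ind_pos g6]
    have := eq_of_no_sdr (fun i => L (six a b x y i)) (by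
      intro i
      fin_cases i
      exacts [not_not.1 g1, not_not.1 g2, not_not.1 g3, not_not.1 g4, not_not.1 g5,
        not_not.1 g6]) g0
    have h7 : ind (L s(a, b) ≠ L s(x, y)) = 0 := ind_neg (not_not.2 this)
    linarith

/-- colourings that are far from every five colour target are negligible -/
lemma small_far (α : Type) [Fintype α] [DecidableEq α] (hs : Fintype.card α ≤ 11) (δ ε : ℝ)
    (hδ : 0 < δ) (hε : 0 < ε) : ∃ n0 : ℕ, ∀ (V : Type) [Fintype V] [DecidableEq V],
      n0 ≤ Fintype.card V → ∀ (G : SimpleGraph V) (X : Finset (Sym2 V → Option α)),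
        (∀ χ ∈ X, RF χ ∧ OnG G χ) →
        (∀ χ ∈ X, ∀ S : Finset α, S.card = 5 →
          ¬ dfc χ (TS S) ≤ δ * (Fintype.card V : ℝ) ^ 2) →
        (X.card : ℝ) ≤ ε * Real.exp (((Fintype.card V : ℝ) ^ 2 - Fintype.card V) / 2
          * Real.log 5) := by
  set η : ℝ := Real.log 5 - 2 * Real.log 11 / 3 with hη
  have hη0 : 0 < η := eta_small_pos
  set δ1 : ℝ := min δ 1 / 10 with hδ1
  have hδ10 : 0 < δ1 := by positivity
  have hδ11 : 10 * δ1 ≤ δ := by
    have := min_le_left δ 1
    linarith
  have hδ12 : 10 * δ1 ≤ 1 := by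
    have := min_le_right δ 1
    linarith
  have hl11 : Real.log 11 ≤ 12 := by
    have := Real.log_le_self (show (0 : ℝ) ≤ 11 by norm_num)
    linarith
  have hl110 : 0 ≤ Real.log 11 := Real.log_nonneg (by norm_num)
  have hl5 : 0 ≤ Real.log 5 := Real.log_nonneg (by norm_num)
  obtain ⟨ε2, hε2, hrob⟩ := lagr_robust (η * δ1 / 16) (by positivity)
  obtain ⟨n1, hn1⟩ := far_bound α (η * δ1 / 8) (min ε2 δ1) (by positivity) (by positivity)
  obtain ⟨n2, hn2⟩ := quad_large (η * δ1 / 4) (Real.log 5 / 2) (1 / ε) (by positivity)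
    (by positivity) (by positivity)
  refine ⟨max (max n1 n2) 1, fun V _ _ hn G X hX hfar => ?_⟩
  have hV : Nonempty V := Fintype.card_pos_iff.1 (lt_of_lt_of_le one_pos
    ((le_max_right _ _).trans hn))
  set n : ℝ := (Fintype.card V : ℝ) with hndef
  have key := hn1 V ((le_max_left _ _).trans ((le_max_left _ _).trans hn)) G X
    ((Real.log 5 - 3 / 4 * (η * δ1)) * n ^ 2) hX (by
      intro χ hχ L hL
      obtain ⟨hL1, hL2, hL3⟩ := hL
      have m1 : min ε2 δ1 ≤ ε2 := min_le_left _ _
      have m2 : min ε2 δ1 ≤ δ1 := min_le_right _ _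
      have r1 := hrob V α L (hL3.trans (mul_le_mul_of_nonneg_right m1 (by positivity))) univ
        (by rw [Finset.card_univ]; linarith [Nat.cast_nonneg (α := ℝ) (Fintype.card V)])
      rw [Finset.card_univ, ← hndef] at r1
      have r2 : δ1 * n ^ 2 ≤ ∑ u, ∑ v, ind ((L s(u, v)).card ≠ 5) := by
        by_contra hc
        obtain ⟨S, hS5, hS⟩ := common_set L δ1 δ1 (by linarith)
          (hL3.trans (mul_le_mul_of_nonneg_right m2 (by positivity))) (not_le.1 hc).le
        apply hfar χ hχ S hS5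
        have r3 : dfc χ (TS S) ≤ ∑ u, ∑ v, ind (L s(u, v) ≠ S) + exc χ L := by
          unfold dfc exc
          simp only [← Finset.sum_add_distrib]
          refine Finset.sum_le_sum fun u _ => Finset.sum_le_sum fun v _ => ?_
          refine le_trans (ind_mono fun h => ?_) (ind_or_le _ _)
          by_cases hLS : L s(u, v) = S
          · right
            have he : s(u, v) ∈ G.edgeSet := by
              by_contra he
              rw [hL1 _ he] at hLS
              rw [← hLS] at hS5
              simp at hS5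
            obtain ⟨c, hc⟩ := Option.ne_none_iff_exists'.1 (fun hn => ((hX χ hχ).2 _).1 hn he)
            refine ⟨c, hc, fun hm => h ?_⟩
            rw [hc, some_mem_TS (G.ne_of_adj he), ← hLS]
            exact hm
          · exact Or.inl hLS
        have r4 := mul_le_mul_of_nonneg_right m2 (sq_nonneg n)
        have r5 := mul_le_mul_of_nonneg_right hδ11 (sq_nonneg n)
        have r6 : 0 ≤ δ1 * n ^ 2 := by positivity
        rw [← hndef] at hS hL2
        linarith
      have r3 : ∑ u, ∑ v, Real.log (L s(u, v)).card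
          ≤ ∑ u, ∑ v, (Real.log 11 / 3 * tau (L s(u, v)).card
            + η * (1 - ind ((L s(u, v)).card ≠ 5))) := by
        refine Finset.sum_le_sum fun u _ => Finset.sum_le_sum fun v _ => ?_
        have := log_le_small ((Finset.card_le_univ (L s(u, v))).trans hs)
        rw [ne_eq, ind_not, sub_sub_cancel]
        exact this
      simp only [Finset.sum_add_distrib, ← Finset.mul_sum, Finset.sum_sub_distrib,
        Finset.sum_const, Finset.card_univ, nsmul_eq_mul, ← hndef] at r3
      have r4 := mul_le_mul_of_nonneg_left r1 (show 0 ≤ Real.log 11 / 3 by positivity)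
      have r5 := mul_le_mul_of_nonneg_left r2 hη0.le
      have r6 : Real.log 11 / 3 * (η * δ1 / 16 * n ^ 2) ≤ 4 * (η * δ1 / 16 * n ^ 2) :=
        mul_le_mul_of_nonneg_right (by linarith) (by positivity)
      have r7 : Real.log 5 * n ^ 2 = (η + 2 * Real.log 11 / 3) * n ^ 2 := by
        rw [hη]
        ring
      nlinarith)
  refine key.trans ?_
  have e1 := hn2 (Fintype.card V) ((le_max_right _ _).trans ((le_max_left _ _).trans hn))
  rw [← hndef] at e1
  calc _ = Real.exp (-(η * δ1 / 4 * n ^ 2 - Real.log 5 / 2 * n))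
        * Real.exp ((n ^ 2 - n) / 2 * Real.log 5) := by
        rw [← Real.exp_add]
        congr 1
        ring
    _ ≤ _ := mul_le_mul_of_nonneg_right (exp_neg_le hε (by linarith)) (Real.exp_pos _).le

lemma exists_parts (V : Type*) [Fintype V] [DecidableEq V] (hn : 8 ≤ Fintype.card V) :
    ∃ W : Fin 3 → Finset V, (∀ j, (Fintype.card V : ℝ) / 4 ≤ (W j).card) ∧
      Disjoint (W 0) (W 1) ∧ Disjoint (W 0) (W 2) ∧ Disjoint (W 1) (W 2) := by
  obtain ⟨A, -, hA⟩ := Finset.exists_subset_card_eq (s := (univ : Finset V))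
    (n := Fintype.card V / 3) (by rw [Finset.card_univ]; omega)
  obtain ⟨B, hB1, hB⟩ := Finset.exists_subset_card_eq (s := univ \ A)
    (n := Fintype.card V / 3) (by rw [Finset.card_univ_sdiff]; omega)
  have hAB : Disjoint A B := Finset.disjoint_left.2 fun x hx hy =>
    (Finset.mem_sdiff.1 (hB1 hy)).2 hx
  obtain ⟨C, hC1, hC⟩ := Finset.exists_subset_card_eq (s := univ \ (A ∪ B))
    (n := Fintype.card V / 3) (by
      rw [Finset.card_univ_sdiff, Finset.card_union_of_disjoint hAB]
      omega)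
  have h4 : (Fintype.card V : ℝ) / 4 ≤ ((Fintype.card V / 3 : ℕ) : ℝ) := by
    have : Fintype.card V ≤ 4 * (Fintype.card V / 3) := by omega
    have h2 : (Fintype.card V : ℝ) ≤ 4 * ((Fintype.card V / 3 : ℕ) : ℝ) := by exact_mod_cast this
    linarith
  refine ⟨![A, B, C], ?_, hAB, ?_, ?_⟩
  · intro j
    fin_cases j
    · simpa [hA] using h4
    · simpa [hB] using h4
    · simpa [hC] using h4
  · exact Finset.disjoint_left.2 fun x hx hy =>
      (Finset.mem_sdiff.1 (hC1 hy)).2 (Finset.mem_union_left _ hx)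
  · exact Finset.disjoint_left.2 fun x hx hy =>
      (Finset.mem_sdiff.1 (hC1 hy)).2 (Finset.mem_union_right _ hx)

lemma small_edge {V α : Type*} [DecidableEq V] {G : SimpleGraph V} {S : Finset α}
    (hS : S.card = 5) {m m' : ℝ} (hm : m ≤ m') {χ : Sym2 V → Option α} (hQ : QT (TS S) m χ)
    (hR : RF χ) (hG : OnG G χ) (W : Fin 3 → Finset V) (d01 : Disjoint (W 0) (W 1))
    (d02 : Disjoint (W 0) (W 2)) (d12 : Disjoint (W 1) (W 2)) (m3 : m ≤ (W 2).card) (a b : V)
    (h : χ s(a, b) ∉ T0S G S s(a, b)) : a ≠ b ∧ ∃ w, EdgeOK (TS S) W m' χ a (b, w) := by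
  have he : s(a, b) ∈ G.edgeSet := by
    by_contra he
    apply h
    rw [(hG _).2 he, T0S, if_neg he]
    simp
  obtain ⟨c, hc⟩ := Option.ne_none_iff_exists'.1 (fun hn => (hG _).1 hn he)
  have hcS : c ∉ S := by
    intro hm
    apply h
    rw [hc, T0S, if_pos he]
    exact Finset.mem_map_of_mem _ hm
  obtain ⟨p1, h1, p2, h2, p3, h3, p4, h4, p5, h5, hn⟩ := exists_five S hS.ge
  have hne : ∀ {A B : Finset V}, Disjoint A B → ∀ x ∈ A, ∀ y ∈ B, some p5 ∈ TS S s(x, y) := by
    intro A B d x hx y hy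
    rw [some_mem_TS]
    · exact h5
    · rintro rfl
      exact Finset.disjoint_left.1 d hx hy
  refine ⟨G.ne_of_adj he, edge_ok hm hQ hR W a b 0 1 2 d01 d02 d12 m3 (c0 := c)
    (List.nodup_cons.2 ⟨?_, hn⟩) hc ?_ ?_ (hne d01) (hne d02) (hne d12)⟩
  · simp only [List.mem_cons, List.not_mem_nil, or_false]
    rintro (rfl | rfl | rfl | rfl | rfl) <;> contradiction
  · intro x _ ha hb
    exact ⟨(some_mem_TS ha.symm).2 h1, (some_mem_TS hb.symm).2 h3⟩
  · intro x _ ha hb
    exact ⟨(some_mem_TS ha.symm).2 h2, (some_mem_TS hb.symm).2 h4⟩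

lemma small_vert {V α : Type*} [Fintype V] [DecidableEq V] [Fintype α] {G : SimpleGraph V}
    {S : Finset α} (hS : S.card = 5) {m m' γ : ℝ} (hm0 : 0 ≤ m) (hm : Fintype.card α * m ≤ m')
    (hm2 : Fintype.card α * m ≤ γ * Fintype.card V / 2) (hγ : γ ≤ 1 / 100)
    (hn : 8 ≤ Fintype.card V) {χ : Sym2 V → Option α} (hQ : QT (TS S) m χ)
    (hR : RF χ) (hG : OnG G χ) (v : V) (hv : γ * Fintype.card V ≤ ddeg χ (TS S) v) :
    ∃ τ, VertOK (TS S) (TvS G τ v) m' (γ * Fintype.card V / 2) χ v := by
  classical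
  set n : ℝ := (Fintype.card V : ℝ) with hndef
  have hn8 : 8 ≤ n := by
    rw [hndef]
    exact_mod_cast hn
  set Λ : Finset α := univ.filter fun c => m ≤ ∑ u, ind (True ∧ χ s(v, u) = some c) with hΛ
  have hrare := rare_le (fun u => χ s(v, u)) (fun _ => True) m hm0 Λ (by
    intro c hc
    have : ¬ m ≤ ∑ u, ind (True ∧ χ s(v, u) = some c) := by simpa [hΛ] using hc
    exact (not_le.1 this).le)
  have hadj : ∀ u, G.Adj v u → ∃ c, χ s(v, u) = some c := fun u h =>
    Option.ne_none_iff_exists'.1 (fun hn => (hG _).1 hn h)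
  have hsumT : ∑ u, Real.log (TS S s(v, u)).card = (n - 1) * Real.log 5 := by
    simp only [log_TS hS, ← Finset.sum_mul, sum_ind_ne', hndef]
  have hl2 := Real.log_two_gt_d9
  have hl5 : 2 * Real.log 2 ≤ Real.log 5 := by
    have : Real.log (2 ^ 2) ≤ Real.log 5 := Real.log_le_log (by norm_num) (by norm_num)
    rwa [Real.log_pow] at this
  refine ⟨Λ, ?_, ?_⟩
  · refine le_trans (Finset.sum_le_sum fun u _ => ind_mono fun h => ?_) (hrare.trans hm)
    by_cases ha : G.Adj v u
    · obtain ⟨c, hc⟩ := hadj u ha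
      refine ⟨trivial, c, hc, fun hm => h ?_⟩
      rw [hc, TvS, if_pos ha]
      exact Finset.mem_map_of_mem _ hm
    · exfalso
      apply h
      rw [(hG _).2 ha, TvS, if_neg ha]
      simp
  by_cases h2 : Λ.card ≤ 2
  · have : ∀ u, Real.log (TvS G Λ v u).card ≤ Real.log 2 := by
      intro u
      have : (TvS G Λ v u).card ≤ 2 := by
        unfold TvS
        split_ifs
        · rwa [Finset.card_map]
        · simp
      exact_mod_cast log_card_mono this
    refine (Finset.sum_le_sum fun u _ => this u).trans ?_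
    rw [hsumT, Finset.sum_const, Finset.card_univ, nsmul_eq_mul, ← hndef]
    have e1 := mul_le_mul_of_nonneg_left hl5 (show 0 ≤ n - 1 by linarith)
    have e2 := mul_le_mul_of_nonneg_right hγ (show 0 ≤ n by linarith)
    nlinarith
  by_cases hsub : Λ ⊆ S
  · have a1 : ∀ u, Real.log (TvS G Λ v u).card
        ≤ Real.log (TS S s(v, u)).card - ind (v ≠ u ∧ ¬ G.Adj v u) := by
      intro u
      rw [log_TS hS]
      by_cases ha : G.Adj v u
      · rw [ind_pos (G.ne_of_adj ha), ind_neg (fun h => h.2 ha), TvS, if_pos ha, Finset.card_map]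
        have := log_card_mono ((Finset.card_le_card hsub).trans hS.le)
        push_cast at this
        linarith
      · rw [TvS, if_neg ha, ind_and, ind_pos ha]
        simp only [Finset.card_singleton, Nat.cast_one, Real.log_one, mul_one]
        nlinarith [ind_nonneg (v ≠ u)]
    have a2 : ddeg χ (TS S) v ≤ ∑ u, ind (v ≠ u ∧ ¬ G.Adj v u)
        + ∑ u, ind (True ∧ ∃ c, χ s(v, u) = some c ∧ c ∉ Λ) := by
      unfold ddeg
      rw [← Finset.sum_add_distrib]
      refine Finset.sum_le_sum fun u _ => le_trans (ind_mono fun h => ?_) (ind_or_le _ _)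
      by_cases ha : G.Adj v u
      · obtain ⟨c, hc⟩ := hadj u ha
        refine Or.inr ⟨trivial, c, hc, fun hm => h ?_⟩
        rw [hc, some_mem_TS (G.ne_of_adj ha)]
        exact hsub hm
      · refine Or.inl ⟨?_, ha⟩
        rintro rfl
        apply h
        rw [(hG _).2 ha]
        simp [TS]
    refine (Finset.sum_le_sum fun u _ => a1 u).trans ?_
    rw [Finset.sum_sub_distrib]
    linarith
  · exfalso
    obtain ⟨c1, hc1, hc1S⟩ := Finset.not_subset.1 hsub
    obtain ⟨c2, hc2, c3, hc3, h23⟩ := Finset.one_lt_card.1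
      (show 1 < (Λ.erase c1).card by rw [Finset.card_erase_of_mem hc1]; omega)
    obtain ⟨h21, hc2⟩ := Finset.mem_erase.1 hc2
    obtain ⟨h31, hc3⟩ := Finset.mem_erase.1 hc3
    obtain ⟨d1, hd1, d2, hd2, d3, hd3, hnd⟩ := exists_three ((S.erase c2).erase c3) (by
      have b1 := Finset.pred_card_le_card_erase (s := S) (a := c2)
      have b2 := Finset.pred_card_le_card_erase (s := S.erase c2) (a := c3)
      omega)
    simp only [Finset.mem_erase] at hd1 hd2 hd3
    have hcard : ∀ c ∈ Λ, m ≤ ((univ.filter fun u => χ s(v, u) = some c).card : ℝ) := by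
      intro c hc
      rw [card_filter_ind]
      simpa [hΛ] using hc
    refine rainbow_of_Q hQ hR v _ _ _ (d1 := d1) (d2 := d2) (d3 := d3) ?_ (hcard c1 hc1)
      (hcard c2 hc2) (hcard c3 hc3) (fun x hx => (Finset.mem_filter.1 hx).2)
      (fun x hx => (Finset.mem_filter.1 hx).2) (fun x hx => (Finset.mem_filter.1 hx).2)
      (fun x _ y _ h => (some_mem_TS h).2 hd1.2.2) (fun x _ y _ h => (some_mem_TS h).2 hd2.2.2)
      (fun x _ y _ h => (some_mem_TS h).2 hd3.2.2)
    refine List.nodup_cons.2 ⟨?_, List.nodup_cons.2 ⟨?_, List.nodup_cons.2 ⟨?_, hnd⟩⟩⟩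
    · simp only [List.mem_cons, List.not_mem_nil, or_false]
      rintro (rfl | rfl | rfl | rfl | rfl)
      exacts [h21 rfl, h31 rfl, hc1S hd1.2.2, hc1S hd2.2.2, hc1S hd3.2.2]
    · simp only [List.mem_cons, List.not_mem_nil, or_false]
      rintro (rfl | rfl | rfl | rfl)
      exacts [h23 rfl, hd1.2.1 rfl, hd2.2.1 rfl, hd3.2.1 rfl]
    · simp only [List.mem_cons, List.not_mem_nil, or_false]
      rintro (rfl | rfl | rfl)
      exacts [hd1.1 rfl, hd2.1 rfl, hd3.1 rfl]

end Pool.Agent.P.MP_ea05a2_co
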