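import Mathlib

/-!
Counting functions that mostly follow prescribed lists, with a gain from blocks that are
rarely matched.
-/

namespace Pool.Agent.P.MP_ea05a2_co

open Finset

/-- marginals of a product weight on an injective family of coordinates -/
lemma marg {U C ι : Type*} [Fintype U] [DecidableEq U] [Fintype C]
    (q : U → C → ℝ) (hq : ∀ u, ∑ c, q u c = 1) (S : Finset ι) (β : ι → U)
    (hβ : Set.InjOn β S) (h : ι → C → ℝ) :
    ∑ χ : U → C, (∏ u, q u (χ u)) * ∏ x ∈ S, h x (χ (β x))
      = ∏ x ∈ S, ∑ c, q (β x) c * h x c := by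
  classical
  set H : U → C → ℝ := fun u c => ∏ x ∈ S with β x = u, h x c with hH
  have e1 : ∀ χ : U → C, ∏ x ∈ S, h x (χ (β x)) = ∏ u, H u (χ u) := by
    intro χ
    rw [← Finset.prod_fiberwise S β (fun x => h x (χ (β x)))]
    refine Finset.prod_congr rfl fun u _ => ?_
    refine Finset.prod_congr rfl fun x hx => ?_
    rw [(Finset.mem_filter.1 hx).2]
  have e2 : ∑ χ : U → C, (∏ u, q u (χ u)) * ∏ x ∈ S, h x (χ (β x))
      = ∏ u, ∑ c, q u c * H u c := by
    rw [Finset.prod_univ_sum, Fintype.piFinset_univ]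
    refine Finset.sum_congr rfl fun χ _ => ?_
    rw [e1, ← Finset.prod_mul_distrib]
  rw [e2]
  have e3 : ∏ u, ∑ c, q u c * H u c = ∏ u ∈ S.image β, ∑ c, q u c * H u c := by
    symm
    refine Finset.prod_subset (Finset.subset_univ _) fun u _ hu => ?_
    have : S.filter (fun x => β x = u) = ∅ := by
      refine Finset.filter_eq_empty_iff.2 fun x hx hxu => hu ?_
      exact Finset.mem_image.2 ⟨x, hx, hxu⟩
    simp only [hH, this, Finset.prod_empty, mul_one, hq]
  rw [e3, Finset.prod_image hβ]
  refine Finset.prod_congr rfl fun x hx => ?_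
  have : S.filter (fun y => β y = β x) = {x} := by
    ext y
    simp only [Finset.mem_filter, Finset.mem_singleton]
    constructor
    · rintro ⟨hy, hyx⟩
      exact hβ hy hx hyx
    · rintro rfl
      exact ⟨hx, rfl⟩
  simp only [hH, this, Finset.prod_singleton]

lemma soft_norm {U C ι κ : Type*} [Fintype U] [DecidableEq U] [Fintype C] [DecidableEq C]
    [Fintype κ]
    (q : U → C → ℝ) (hq : ∀ u, ∑ c, q u c = 1) (I : Finset ι) (β : ι → κ → U) (ψ : ι → κ → C)
    (hβ : ∀ i ∈ I, ∀ i' ∈ I, ∀ j j', β i j = β i' j' → i = i' ∧ j = j') (lam : ℝ) :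
    ∑ χ : U → C, (∏ u, q u (χ u)) *
        ∏ i ∈ I, (1 + (-lam) * ∏ j, (if χ (β i j) = ψ i j then (1 : ℝ) else 0))
      = ∏ i ∈ I, (1 + (-lam) * ∏ j, q (β i j) (ψ i j)) := by
  classical
  simp only [Finset.prod_one_add, Finset.mul_sum]
  rw [Finset.sum_comm]
  refine Finset.sum_congr rfl fun J hJ => ?_
  have hJI : J ⊆ I := Finset.mem_powerset.1 hJ
  simp only [Finset.prod_mul_distrib]
  have key := marg q hq (J ×ˢ (univ : Finset κ)) (fun x => β x.1 x.2)
    (by
      intro x hx y hy hxy
      have hx' := (Finset.mem_product.1 (Finset.mem_coe.1 hx)).1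
      have hy' := (Finset.mem_product.1 (Finset.mem_coe.1 hy)).1
      obtain ⟨h1, h2⟩ := hβ _ (hJI hx') _ (hJI hy') _ _ hxy
      exact Prod.ext h1 h2)
    (fun x c => if c = ψ x.1 x.2 then (1 : ℝ) else 0)
  simp only [Finset.prod_product, mul_ite, mul_one, mul_zero, Finset.sum_ite_eq',
    Finset.mem_univ, if_true] at key
  rw [← key, Finset.mul_sum]
  refine Finset.sum_congr rfl fun χ _ => ?_
  ring

lemma prod_ite_pow {U : Type*} (S : Finset U) (p : U → Prop) [DecidablePred p] (t : ℝ) :
    ∏ u ∈ S, (if p u then t else 1) = t ^ (S.filter p).card := by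
  rw [Finset.prod_ite, Finset.prod_const, Finset.prod_const_one, mul_one]

lemma exp_le_pow {t E : ℝ} (ht0 : 0 < t) (ht1 : t ≤ 1) {m : ℕ} (h : (m : ℝ) ≤ E) :
    Real.exp (-(E * Real.log (1 / t))) ≤ t ^ m := by
  have hl : Real.log t ≤ 0 := Real.log_nonpos ht0.le ht1
  have : t ^ m = Real.exp (m * Real.log t) := by
    rw [Real.exp_nat_mul, Real.exp_log ht0]
  rw [this, one_div, Real.log_inv]
  apply Real.exp_le_exp.2
  nlinarith

lemma le_exp_log_card (m : ℕ) : (m : ℝ) ≤ Real.exp (Real.log m) ∧ 1 ≤ Real.exp (Real.log m) := by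
  rcases Nat.eq_zero_or_pos m with rfl | hm
  · simp
  · have : (0 : ℝ) < m := by exact_mod_cast hm
    rw [Real.exp_log this]
    exact ⟨le_rfl, by exact_mod_cast hm⟩

/-- The main counting bound. -/
lemma count_bound {U C ι κ : Type*} [Fintype U] [DecidableEq U] [Fintype C] [DecidableEq C]
    [Fintype κ]
    (Λ : U → Finset C) (Φ : Finset U) (t E E' : ℝ) (ht0 : 0 < t) (ht : t ≤ 1 / 2)
    (I : Finset ι) (β : ι → κ → U) (ψ : ι → κ → C)
    (hβ : ∀ i ∈ I, ∀ i' ∈ I, ∀ j j', β i j = β i' j' → i = i' ∧ j = j')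
    (hψ : ∀ i ∈ I, ∀ j, ψ i j ∈ Λ (β i j))
    (X : Finset (U → C))
    (h1 : ∀ χ ∈ X, ∀ u, χ u ∉ Λ u → u ∈ Φ)
    (h2 : ∀ χ ∈ X, ((univ.filter fun u => χ u ∉ Λ u).card : ℝ) ≤ E)
    (h3 : ∀ χ ∈ X, ((I.filter fun i => ∀ j, χ (β i j) = ψ i j).card : ℝ) ≤ E') :
    (X.card : ℝ) ≤ Real.exp ((E + E') * Real.log (1 / t) + t * Fintype.card C * Φ.card
      - I.card / (2 * (Fintype.card C : ℝ) ^ Fintype.card κ) + ∑ u, Real.log (Λ u).card) := by
  classical
  rcases X.eq_empty_or_nonempty with rfl | ⟨χ0, hχ0⟩
  · simp only [Finset.card_empty, Nat.cast_zero]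
    exact (Real.exp_pos _).le
  set K : ℝ := (Fintype.card C : ℝ) with hK
  set w : U → C → ℝ := fun u c => if c ∈ Λ u then 1 else if u ∈ Φ then t else 0 with hw
  have hw0 : ∀ u c, 0 ≤ w u c := by
    intro u c
    simp only [hw]
    split_ifs <;> linarith
  have hw1 : ∀ u c, w u c ≤ 1 := by
    intro u c
    simp only [hw]
    split_ifs <;> linarith
  set W : U → ℝ := fun u => ∑ c, w u c with hW
  have hwX : ∀ χ ∈ X, ∀ u, w u (χ u) = if χ u ∉ Λ u then t else 1 := by
    intro χ hχ u
    simp only [hw]
    by_cases h : χ u ∈ Λ u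
    · simp [h]
    · simp [h, h1 χ hχ u h]
  have hWpos : ∀ u, 0 < W u := by
    intro u
    have : w u (χ0 u) ≤ W u := Finset.single_le_sum (fun c _ => hw0 u c) (Finset.mem_univ _)
    have h' : 0 < w u (χ0 u) := by
      rw [hwX χ0 hχ0]
      split_ifs <;> linarith
    linarith
  have hWK : ∀ u, W u ≤ K := by
    intro u
    calc W u ≤ ∑ _c : C, (1 : ℝ) := Finset.sum_le_sum fun c _ => hw1 u c
      _ = K := by simp [hK]
  have hK0 : 0 ≤ K := by positivity
  have hWle : ∀ u, W u ≤ Real.exp (Real.log (Λ u).card + if u ∈ Φ then t * K else 0) := by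
    intro u
    obtain ⟨a1, a2⟩ := le_exp_log_card (Λ u).card
    rw [Real.exp_add]
    by_cases hu : u ∈ Φ
    · have : W u ≤ (Λ u).card + t * K := by
        calc W u ≤ ∑ c : C, ((if c ∈ Λ u then (1 : ℝ) else 0) + t) := by
              refine Finset.sum_le_sum fun c _ => ?_
              simp only [hw, hu, if_true]
              split_ifs <;> linarith
          _ = (Λ u).card + t * K := by
              rw [Finset.sum_add_distrib]
              simp [hK, mul_comm]
      have h2 : 1 + t * K ≤ Real.exp (t * K) := by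
        have := Real.add_one_le_exp (t * K)
        linarith
      have h3 : 0 ≤ t * K := by positivity
      simp only [hu, if_true]
      nlinarith
    · have : W u = (Λ u).card := by
        simp only [hW, hw, hu, if_false]
        simp
      simp only [hu, if_false, Real.exp_zero, mul_one]
      linarith
  set q : U → C → ℝ := fun u c => w u c / W u with hq
  have hq1 : ∀ u, ∑ c, q u c = 1 := by
    intro u
    simp only [hq]
    rw [← Finset.sum_div]
    exact div_self (hWpos u).ne'
  have key := soft_norm q hq1 I β ψ hβ (1 - t)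
  set P : ℝ := ∏ u, W u with hP
  have hPpos : 0 < P := Finset.prod_pos fun u _ => hWpos u
  have hqP : ∀ χ : U → C, ∏ u, q u (χ u) = (∏ u, w u (χ u)) / P := by
    intro χ
    simp only [hq, hP]
    rw [Finset.prod_div_distrib]
  have hind : ∀ (χ : U → C) (i : ι),
      (1 + (-(1 - t)) * ∏ j, (if χ (β i j) = ψ i j then (1 : ℝ) else 0))
        = if (∀ j, χ (β i j) = ψ i j) then t else 1 := by
    intro χ i
    rw [Finset.prod_boole]
    by_cases h : ∀ j, χ (β i j) = ψ i j
    · simp [h]
    · simp [h]
  simp only [hind] at key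
  -- lower bound of the left side
  have hlow : (X.card : ℝ) * (Real.exp (-((E + E') * Real.log (1 / t))) / P)
      ≤ ∑ χ : U → C, (∏ u, q u (χ u)) *
        ∏ i ∈ I, (if (∀ j, χ (β i j) = ψ i j) then t else 1) := by
    calc (X.card : ℝ) * (Real.exp (-((E + E') * Real.log (1 / t))) / P)
        = ∑ _χ ∈ X, (Real.exp (-((E + E') * Real.log (1 / t))) / P) := by simp
      _ ≤ ∑ χ ∈ X, (∏ u, q u (χ u)) *
            ∏ i ∈ I, (if (∀ j, χ (β i j) = ψ i j) then t else 1) := by
          refine Finset.sum_le_sum fun χ hχ => ?_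
          rw [hqP, prod_ite_pow]
          simp only [hwX χ hχ]
          rw [prod_ite_pow]
          have b1 := exp_le_pow ht0 (by linarith) (h2 χ hχ)
          have b2 := exp_le_pow ht0 (by linarith) (h3 χ hχ)
          have b3 : Real.exp (-((E + E') * Real.log (1 / t)))
              = Real.exp (-(E * Real.log (1 / t))) * Real.exp (-(E' * Real.log (1 / t))) := by
            rw [← Real.exp_add]
            congr 1
            ring
          rw [b3, div_mul_eq_mul_div]
          apply div_le_div_of_nonneg_right _ hPpos.le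
          exact mul_le_mul b1 b2 (Real.exp_pos _).le (by positivity)
      _ ≤ _ := by
          refine Finset.sum_le_sum_of_subset_of_nonneg (Finset.subset_univ _) fun χ _ _ => ?_
          refine mul_nonneg (Finset.prod_nonneg fun u _ => div_nonneg (hw0 _ _) (hWpos u).le) ?_
          refine Finset.prod_nonneg fun i _ => ?_
          split_ifs <;> linarith
  -- upper bound of the right side
  have hup : ∏ i ∈ I, (1 + (-(1 - t)) * ∏ j, q (β i j) (ψ i j))
      ≤ Real.exp (-(I.card / (2 * K ^ Fintype.card κ))) := by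
    have hKpos : ∀ u : U, 0 < K := fun u => lt_of_lt_of_le (hWpos u) (hWK u)
    calc ∏ i ∈ I, (1 + (-(1 - t)) * ∏ j, q (β i j) (ψ i j))
        ≤ ∏ _i ∈ I, Real.exp (-(1 / (2 * K ^ Fintype.card κ))) := by
          refine Finset.prod_le_prod (fun i _ => ?_) fun i hi => ?_
          · have : ∏ j, q (β i j) (ψ i j) ≤ 1 := by
              refine Finset.prod_le_one (fun j _ => div_nonneg (hw0 _ _) (hWpos _).le)
                fun j _ => ?_
              simp only [hq]
              rw [div_le_one (hWpos _)]
              exact Finset.single_le_sum (fun c _ => hw0 _ c) (Finset.mem_univ _)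
            have h0 : 0 ≤ ∏ j, q (β i j) (ψ i j) :=
              Finset.prod_nonneg fun j _ => div_nonneg (hw0 _ _) (hWpos _).le
            nlinarith
          · have hθ : 1 / K ^ Fintype.card κ ≤ ∏ j, q (β i j) (ψ i j) := by
              calc 1 / K ^ Fintype.card κ = ∏ _j : κ, 1 / K := by simp
                _ ≤ _ := by
                  refine Finset.prod_le_prod (fun j _ => by positivity) fun j _ => ?_
                  simp only [hq, hw, hψ i hi j, if_true]
                  exact one_div_le_one_div_of_le (hWpos _) (hWK _)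
            have h0 : 0 ≤ 1 / K ^ Fintype.card κ := by positivity
            have h5 := Real.add_one_le_exp (-(1 / (2 * K ^ Fintype.card κ)))
            have h6 : 1 / (2 * K ^ Fintype.card κ) = (1 / 2) * (1 / K ^ Fintype.card κ) := by
              rw [one_div_mul_one_div]
            nlinarith
      _ = _ := by
          rw [Finset.prod_const, ← Real.exp_nat_mul]
          congr 1
          ring
  have hPle : P ≤ Real.exp (∑ u, Real.log (Λ u).card + t * K * Φ.card) := by
    calc P ≤ ∏ u, Real.exp (Real.log (Λ u).card + if u ∈ Φ then t * K else 0) :=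
          Finset.prod_le_prod (fun u _ => (hWpos u).le) fun u _ => hWle u
      _ = _ := by
          rw [← Real.exp_sum, Finset.sum_add_distrib]
          congr 2
          rw [← Finset.sum_filter]
          simp [mul_comm]
  have hfin : (X.card : ℝ) * Real.exp (-((E + E') * Real.log (1 / t)))
      ≤ Real.exp (-(I.card / (2 * K ^ Fintype.card κ))) * P := by
    have := (hlow.trans (le_of_eq key)).trans hup
    rwa [← mul_div_assoc, div_le_iff₀ hPpos] at this
  have hfin2 : (X.card : ℝ) * Real.exp (-((E + E') * Real.log (1 / t)))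
      ≤ Real.exp (-(I.card / (2 * K ^ Fintype.card κ)))
        * Real.exp (∑ u, Real.log (Λ u).card + t * K * Φ.card) :=
    hfin.trans (mul_le_mul_of_nonneg_left hPle (Real.exp_pos _).le)
  rw [Real.exp_neg ((E + E') * _), ← div_eq_mul_inv, div_le_iff₀ (Real.exp_pos _),
    ← Real.exp_add, ← Real.exp_add] at hfin2
  refine hfin2.trans (le_of_eq ?_)
  congr 1
  ring

/-- sums over unordered pairs against sums over ordered pairs -/
lemma sum_sym2 {V : Type*} [Fintype V] [DecidableEq V] (φ : Sym2 V → ℝ) :
    2 * ∑ e, φ e = ∑ u, ∑ v, φ s(u, v) + ∑ v, φ s(v, v) := by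
  classical
  have e1 : ∑ u, ∑ v, φ s(u, v)
      = ∑ e, ((univ.filter fun p : V × V => s(p.1, p.2) = e).card : ℝ) * φ e := by
    rw [← Finset.sum_product', Finset.univ_product_univ,
      ← Finset.sum_fiberwise univ (fun p : V × V => s(p.1, p.2))]
    refine Finset.sum_congr rfl fun e _ => ?_
    rw [Finset.sum_congr rfl (g := fun _ => φ e)]
    · simp
    · intro p hp
      rw [(Finset.mem_filter.1 hp).2]
  have e2 : ∑ v, φ s(v, v)
      = ∑ e, ((univ.filter fun v : V => s(v, v) = e).card : ℝ) * φ e := by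
    rw [← Finset.sum_fiberwise univ (fun v : V => s(v, v))]
    refine Finset.sum_congr rfl fun e _ => ?_
    rw [Finset.sum_congr rfl (g := fun _ => φ e)]
    · simp
    · intro p hp
      rw [(Finset.mem_filter.1 hp).2]
  rw [e1, e2, ← Finset.sum_add_distrib, Finset.mul_sum]
  refine Finset.sum_congr rfl fun e _ => ?_
  rw [← add_mul]
  congr 1
  induction e using Sym2.ind with
  | _ a b =>
    by_cases hab : a = b
    · subst hab
      have h1 : (univ.filter fun p : V × V => s(p.1, p.2) = s(a, a)) = {(a, a)} := by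
        ext ⟨x, y⟩
        simp
      have h2 : (univ.filter fun v : V => s(v, v) = s(a, a)) = {a} := by
        ext x
        simp
      rw [h1, h2]
      norm_num
    · have h1 : (univ.filter fun p : V × V => s(p.1, p.2) = s(a, b)) = {(a, b), (b, a)} := by
        ext ⟨x, y⟩
        simp
      have h2 : (univ.filter fun v : V => s(v, v) = s(a, b)) = ∅ := by
        ext x
        simp only [Sym2.eq_iff, Finset.mem_filter, Finset.mem_univ, true_and,
          Finset.notMem_empty, iff_false]
        rintro (⟨rfl, rfl⟩ | ⟨rfl, rfl⟩) <;> exact hab rfl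
      rw [h1, h2, Finset.card_pair]
      · norm_num
      · intro h
        exact hab (Prod.mk.inj h).1

lemma card_sym2_le {V : Type*} [Fintype V] [DecidableEq V] (p : Sym2 V → Prop)
    [DecidablePred p] :
    (univ.filter p).card ≤ (univ.filter fun x : V × V => p s(x.1, x.2)).card := by
  refine Finset.card_le_card_of_surjOn (fun x => s(x.1, x.2)) ?_
  intro e he
  induction e using Sym2.ind with
  | _ a b =>
    refine ⟨(a, b), ?_, rfl⟩
    simpa using he

lemma card_sym2_univ_le {V : Type*} [Fintype V] [DecidableEq V] :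
    ((univ : Finset (Sym2 V)).card : ℝ) ≤ (Fintype.card V : ℝ) ^ 2 := by
  have := card_sym2_le (V := V) (fun _ => True)
  simp only [Finset.filter_true, Finset.card_univ, Fintype.card_prod] at this
  rw [Finset.card_univ, sq]
  exact_mod_cast this

end Pool.Agent.P.MP_ea05a2_co
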