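import Pool.Agent.P.MP_ea05a2_co.Common

/-!
At least twelve colours: stability of near optimal list systems.
-/

namespace Pool.Agent.P.MP_ea05a2_co

open Finset

lemma log_le_large {s m : ℕ} (hs : 12 ≤ s) (hm : m ≤ s) {η : ℝ}
    (h1 : η ≤ Real.log s - Real.log (s - 1 : ℕ)) (h2 : η ≤ Real.log s - 3 / 2 * Real.log 5) :
    Real.log m ≤ (Real.log s - η) / 3 * tau m + η * ind (m = s) := by
  have h4 : 2 * Real.log 2 ≤ Real.log 5 := by
    have : Real.log (2 ^ 2) ≤ Real.log 5 := Real.log_le_log (by norm_num) (by norm_num)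
    rwa [Real.log_pow] at this
  unfold tau
  by_cases h5 : m = s
  · subst h5
    rw [ind_pos rfl, if_neg (by omega), if_neg (by omega), if_neg (by omega)]
    linarith
  rw [ind_neg h5, mul_zero, add_zero]
  split_ifs with c1 c2 c3
  · have : m = 0 ∨ m = 1 := by omega
    rcases this with rfl | rfl <;> simp
  · subst c2
    push_cast
    linarith
  · have := log_card_mono c3
    push_cast at this
    linarith
  · have := log_card_mono (show m ≤ s - 1 by omega)
    linarith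

lemma eta_large {s : ℕ} (hs : 12 ≤ s) : ∃ η : ℝ, 0 < η ∧ η ≤ Real.log s - Real.log (s - 1 : ℕ) ∧
    η ≤ Real.log s - 3 / 2 * Real.log 5 := by
  refine ⟨min _ _, lt_min ?_ ?_, min_le_left _ _, min_le_right _ _⟩
  · have : Real.log (s - 1 : ℕ) < Real.log s :=
      Real.log_lt_log (by exact_mod_cast (by omega : 0 < s - 1))
        (by exact_mod_cast (by omega : s - 1 < s))
    linarith
  · have h1 : Real.log (5 ^ 3) < Real.log (12 ^ 2) := Real.log_lt_log (by norm_num) (by norm_num)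
    rw [Real.log_pow, Real.log_pow] at h1
    have h2 := log_card_mono hs
    push_cast at h1 h2
    linarith

lemma low_small {V : Type*} [Fintype V] [DecidableEq V] (Γ : V → V → ℝ)
    (hs : ∀ u v, Γ u v = Γ v u) (h0 : ∀ u v, 0 ≤ Γ u v) (ρ : ℝ) (hρ : 0 < ρ) (hρ1 : ρ ≤ 1 / 4)
    (hn : 1 ≤ ρ * Fintype.card V)
    (hN : (2 / 3 - ρ ^ 2 / 4) * (Fintype.card V : ℝ) ^ 2 ≤ ∑ u, ∑ v, Γ u v)
    (hA : ∀ A : Finset V, (Fintype.card V : ℝ) ≤ 2 * A.card →
      3 * ∑ u ∈ A, ∑ v ∈ A, Γ u v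
        ≤ 2 * (A.card : ℝ) ^ 2 + ρ ^ 2 / 2 * (Fintype.card V : ℝ) ^ 2) :
    ∑ v, ind (∑ u, Γ v u < (2 / 3 - ρ) * Fintype.card V) ≤ ρ * Fintype.card V := by
  classical
  set n : ℝ := (Fintype.card V : ℝ) with hndef
  have hn0 : 0 < n := by
    by_contra hc
    nlinarith
  by_contra hc
  rw [← card_filter_ind, not_le] at hc
  obtain ⟨R, hR1, hR2⟩ := Finset.exists_subset_card_eq (n := ⌈ρ * n⌉₊) (Nat.ceil_le.2 hc.le)
  have hr1 : ρ * n ≤ R.card := by
    rw [hR2]
    exact Nat.le_ceil _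
  have hr2 : (R.card : ℝ) ≤ 2 * (ρ * n) := by
    rw [hR2]
    have := Nat.ceil_lt_add_one (show 0 ≤ ρ * n by positivity)
    linarith
  have hAc : (((univ : Finset V) \ R).card : ℝ) = n - R.card := by
    rw [Finset.card_univ_sdiff, Nat.cast_sub (Finset.card_le_univ R)]
  have h1 := hA (univ \ R) (by rw [hAc]; nlinarith)
  rw [hAc] at h1
  have h2 : ∑ u, ∑ v, Γ u v ≤ ∑ u ∈ univ \ R, ∑ v ∈ univ \ R, Γ u v
      + 2 * ∑ u ∈ R, ∑ v, Γ u v := by
    calc ∑ u, ∑ v, Γ u v ≤ ∑ u, ∑ v, (ind (u ∈ univ \ R) * (ind (v ∈ univ \ R) * Γ u v)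
          + ind (u ∈ R) * Γ u v + ind (v ∈ R) * Γ v u) := by
          refine Finset.sum_le_sum fun u _ => Finset.sum_le_sum fun v _ => ?_
          have := h0 u v
          rw [hs v u]
          by_cases hu : u ∈ R <;> by_cases hv : v ∈ R <;> simp [ind, hu, hv, this]
      _ = _ := by
          simp only [Finset.sum_add_distrib]
          rw [Finset.sum_comm (f := fun u v => ind (v ∈ R) * Γ v u)]
          simp only [← Finset.mul_sum, sum_ind_mem_mul]
          ring
  have h3 : ∑ u ∈ R, ∑ v, Γ u v ≤ R.card * ((2 / 3 - ρ) * n) := by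
    refine (Finset.sum_le_sum fun u hu => (Finset.mem_filter.1 (hR1 hu)).2.le).trans ?_
    simp
  set r : ℝ := (R.card : ℝ) with hr
  have e1 : r * r ≤ r * (2 * (ρ * n)) := mul_le_mul_of_nonneg_left hr2 (by positivity)
  have e2 : (ρ * n) * (ρ * n) ≤ r * (ρ * n) := mul_le_mul_of_nonneg_right hr1 (by positivity)
  have e3 : 0 < (ρ * n) * (ρ * n) := by positivity
  nlinarith

lemma tri_count {V : Type*} [Fintype V] (F : V → V → Prop) (H : V → Prop) (ρ : ℝ)
    (hρ1 : ρ ≤ 1 / 36)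
    (hH : ∀ v, H v → (2 / 3 - ρ) * Fintype.card V ≤ ∑ u, ind (F v u))
    (hL : ∑ v, ind (¬ H v) ≤ ρ * Fintype.card V) :
    (Fintype.card V : ℝ) ^ 3 / 16
      ≤ ∑ x, ∑ y, ∑ z, ind (H x ∧ (H y ∧ F x y) ∧ (H z ∧ F x z ∧ F y z)) := by
  set n : ℝ := (Fintype.card V : ℝ) with hndef
  have hn0 : 0 ≤ n := by positivity
  have hρn : ρ * n ≤ 1 / 36 * n := mul_le_mul_of_nonneg_right hρ1 hn0
  have a1 : ∀ x y, H x → H y → n / 4 ≤ ∑ z, ind (H z ∧ F x z ∧ F y z) := by
    intro x y hx hy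
    have : ∑ z, (ind (F x z) + ind (F y z) - 1 - ind (¬ H z))
        ≤ ∑ z, ind (H z ∧ F x z ∧ F y z) := by
      refine Finset.sum_le_sum fun z _ => ?_
      by_cases h1 : H z <;> by_cases h2 : F x z <;> by_cases h3 : F y z <;>
        simp [ind, h1, h2, h3]
    simp only [Finset.sum_sub_distrib, Finset.sum_add_distrib, Finset.sum_const,
      Finset.card_univ, nsmul_eq_mul, ← hndef] at this
    linarith [hH x hx, hH y hy]
  have a2 : ∀ x, H x → n / 2 ≤ ∑ y, ind (H y ∧ F x y) := by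
    intro x hx
    have : ∑ z, (ind (F x z) - ind (¬ H z)) ≤ ∑ z, ind (H z ∧ F x z) := by
      refine Finset.sum_le_sum fun z _ => ?_
      by_cases h1 : H z <;> by_cases h2 : F x z <;> simp [ind, h1, h2]
    simp only [Finset.sum_sub_distrib] at this
    linarith [hH x hx]
  have a3 : n / 2 ≤ ∑ x, ind (H x) := by
    simp only [ind_not, Finset.sum_sub_distrib, Finset.sum_const, Finset.card_univ,
      nsmul_eq_mul, ← hndef] at hL
    linarith
  calc n ^ 3 / 16 = n / 2 * (n / 2 * (n / 4)) := by ring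
    _ ≤ (∑ x, ind (H x)) * (n / 2 * (n / 4)) := mul_le_mul_of_nonneg_right a3 (by positivity)
    _ = ∑ x, ind (H x) * (n / 2 * (n / 4)) := Finset.sum_mul _ _ _
    _ ≤ _ := by
      refine Finset.sum_le_sum fun x _ => ?_
      by_cases hx : H x
      · rw [ind_pos hx, one_mul]
        calc n / 2 * (n / 4) ≤ (∑ y, ind (H y ∧ F x y)) * (n / 4) :=
              mul_le_mul_of_nonneg_right (a2 x hx) (by positivity)
          _ = ∑ y, ind (H y ∧ F x y) * (n / 4) := Finset.sum_mul _ _ _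
          _ ≤ _ := by
            refine Finset.sum_le_sum fun y _ => ?_
            by_cases hy : H y ∧ F x y
            · rw [ind_pos hy, one_mul]
              refine (a1 x y hx hy.1).trans (Finset.sum_le_sum fun z _ => ind_mono fun h => ?_)
              exact ⟨hx, hy, h⟩
            · rw [ind_neg hy, zero_mul]
              exact Finset.sum_nonneg fun _ _ => ind_nonneg _
      · rw [ind_neg hx, zero_mul]
        exact Finset.sum_nonneg fun _ _ => Finset.sum_nonneg fun _ _ => ind_nonneg _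

lemma sdr_five_full {V α : Type*} [Fintype α] (hs : 6 ≤ Fintype.card α)
    {L : Sym2 V → Finset α} {x y u v : V} (h1 : L s(x, y) = univ) (h2 : L s(x, u) = univ)
    (h3 : L s(x, v) = univ) (h4 : L s(y, u) = univ) (h5 : L s(y, v) = univ)
    (h6 : L s(u, v) ≠ ∅) : SDR L x y u v := by
  refine sdr_of_rank (fun i => L (six x y u v i)) ![6, 6, 6, 6, 6, 1] (by decide) ?_
  intro i
  have := Finset.nonempty_iff_ne_empty.2 h6
  fin_cases i <;> simp [six, h1, h2, h3, h4, h5, hs, this]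

lemma good_part {V α : Type*} [Fintype V] [Fintype α] (hs : 6 ≤ Fintype.card α)
    (L : Sym2 V → Finset α) (ρ : ℝ) (x y z : V) (hxy : L s(x, y) = univ)
    (hxz : L s(x, z) = univ) (hyz : L s(y, z) = univ)
    (dx : (2 / 3 - ρ) * Fintype.card V ≤ ∑ u, ind (L s(x, u) = univ))
    (dy : (2 / 3 - ρ) * Fintype.card V ≤ ∑ u, ind (L s(y, u) = univ))
    (dz : (2 / 3 - ρ) * Fintype.card V ≤ ∑ u, ind (L s(z, u) = univ)) :
    ∃ π : V → Fin 3, ∑ u, ∑ v, ind (L s(u, v) ≠ ∅ ∧ π u = π v)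
      ≤ 2 * (∑ a, ∑ b, ind (SDR L x y a b) + ∑ a, ∑ b, ind (SDR L x z a b)
        + ∑ a, ∑ b, ind (SDR L y z a b) + Fintype.card V * ∑ w, ind (SDR L x y z w))
        + 6 * ρ * (Fintype.card V : ℝ) ^ 2 := by
  classical
  set n : ℝ := (Fintype.card V : ℝ) with hndef
  have hn0 : 0 ≤ n := by positivity
  have hne : (univ : Finset α) ≠ ∅ := by
    have : Nonempty α := Fintype.card_pos_iff.1 (by omega)
    exact Finset.univ_nonempty.ne_empty
  set bad : V → Prop := fun w => ¬ (L s(x, w) = univ ∧ L s(y, w) = univ) ∧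
    ¬ (L s(x, w) = univ ∧ L s(z, w) = univ) ∧ ¬ (L s(y, w) = univ ∧ L s(z, w) = univ) with hbad
  have b1 : ∑ w, ind (bad w) ≤ 3 * ρ * n + ∑ w, ind (SDR L x y z w) := by
    have : ∑ w, (ind (L s(x, w) = univ) + ind (L s(y, w) = univ) + ind (L s(z, w) = univ))
        ≤ ∑ w, (2 - ind (bad w) + ind (SDR L x y z w)) := by
      refine Finset.sum_le_sum fun w _ => ?_
      have n0 := ind_nonneg (SDR L x y z w)
      by_cases h1 : L s(x, w) = univ <;> by_cases h2 : L s(y, w) = univ <;>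
        by_cases h3 : L s(z, w) = univ
      · rw [ind_pos (sdr_five_full hs hxy hxz h1 hyz h2 (h3 ▸ hne))]
        simp [ind, hbad, h1, h2, h3]
        norm_num
      all_goals simp [ind, hbad, h1, h2, h3] at n0 ⊢
      all_goals linarith
    simp only [Finset.sum_add_distrib, Finset.sum_sub_distrib, Finset.sum_const,
      Finset.card_univ, nsmul_eq_mul, ← hndef] at this
    linarith
  refine ⟨fun w => if L s(x, w) = univ ∧ L s(y, w) = univ then 2
    else if L s(x, w) = univ ∧ L s(z, w) = univ then 1 else 0, ?_⟩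
  have b2 : ∀ u v, ind (L s(u, v) ≠ ∅ ∧
      (if L s(x, u) = univ ∧ L s(y, u) = univ then (2 : Fin 3)
        else if L s(x, u) = univ ∧ L s(z, u) = univ then 1 else 0)
      = (if L s(x, v) = univ ∧ L s(y, v) = univ then 2
        else if L s(x, v) = univ ∧ L s(z, v) = univ then 1 else 0))
      ≤ ind (SDR L x y u v) + ind (SDR L x z u v) + ind (SDR L y z u v) + ind (bad u)
        + ind (bad v) := by
    intro u v
    refine le_trans (ind_mono (q := (((SDR L x y u v ∨ SDR L x z u v) ∨ SDR L y z u v) ∨ bad u)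
      ∨ bad v) ?_) ?_
    · rintro ⟨h0, h⟩
      split_ifs at h with c1 c2 c3 c4 c5 c6 c7 c8
      · exact Or.inl (Or.inl (Or.inl (Or.inl
          (sdr_five_full hs hxy c1.1 c2.1 c1.2 c2.2 h0))))
      · exact absurd h (by decide)
      · exact absurd h (by decide)
      · exact absurd h (by decide)
      · exact Or.inl (Or.inl (Or.inl (Or.inr
          (sdr_five_full hs hxz c4.1 c6.1 c4.2 c6.2 h0))))
      · exact absurd h (by decide)
      · exact absurd h (by decide)
      · exact absurd h (by decide)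
      · by_cases g1 : L s(y, u) = univ ∧ L s(z, u) = univ
        · by_cases g2 : L s(y, v) = univ ∧ L s(z, v) = univ
          · exact Or.inl (Or.inl (Or.inr (sdr_five_full hs hyz g1.1 g2.1 g1.2 g2.2 h0)))
          · exact Or.inr ⟨c7, c8, g2⟩
        · exact Or.inl (Or.inr ⟨c1, c4, g1⟩)
    · refine (ind_or_le _ _).trans (add_le_add ((ind_or_le _ _).trans (add_le_add
        ((ind_or_le _ _).trans (add_le_add (ind_or_le _ _) le_rfl)) le_rfl)) le_rfl)
  refine (Finset.sum_le_sum fun u _ => Finset.sum_le_sum fun v _ => b2 u v).trans ?_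
  simp only [Finset.sum_add_distrib, Finset.sum_const, Finset.card_univ, nsmul_eq_mul,
    ← Finset.mul_sum, ← hndef]
  have p1 : 0 ≤ ∑ a, ∑ b, ind (SDR L x y a b) :=
    Finset.sum_nonneg fun _ _ => Finset.sum_nonneg fun _ _ => ind_nonneg _
  have p2 : 0 ≤ ∑ a, ∑ b, ind (SDR L x z a b) :=
    Finset.sum_nonneg fun _ _ => Finset.sum_nonneg fun _ _ => ind_nonneg _
  have p3 : 0 ≤ ∑ a, ∑ b, ind (SDR L y z a b) :=
    Finset.sum_nonneg fun _ _ => Finset.sum_nonneg fun _ _ => ind_nonneg _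
  have p4 := mul_le_mul_of_nonneg_left b1 hn0
  nlinarith

lemma large_stab (α : Type) [Fintype α] (hs : 12 ≤ Fintype.card α) (δ : ℝ) (hδ : 0 < δ) :
    ∃ ε1 δ0 : ℝ, 0 < ε1 ∧ 0 < δ0 ∧ ∃ n0 : ℕ, ∀ (V : Type) [Fintype V] [DecidableEq V],
      n0 ≤ Fintype.card V → ∀ L : Sym2 V → Finset α, nS L ≤ ε1 * (Fintype.card V : ℝ) ^ 4 →
      (2 / 3 * Real.log (Fintype.card α) - δ0) * (Fintype.card V : ℝ) ^ 2
        ≤ ∑ u, ∑ v, Real.log (L s(u, v)).card →
      (2 / 3 - δ) * (Fintype.card V : ℝ) ^ 2 ≤ ∑ u, ∑ v, ind (L s(u, v) = univ) ∧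
      ∃ π : V → Fin 3, ∑ u, ∑ v, ind (L s(u, v) ≠ ∅ ∧ π u = π v)
        ≤ δ * (Fintype.card V : ℝ) ^ 2 := by
  classical
  obtain ⟨η, hη0, hη1, hη2⟩ := eta_large hs
  set b : ℝ := Real.log (Fintype.card α) - η with hb
  have hb0 : 0 ≤ b := by
    have : 0 ≤ Real.log 5 := Real.log_nonneg (by norm_num)
    linarith
  set ρ : ℝ := min (δ / 12) (1 / 36) with hρ
  have hρ0 : 0 < ρ := lt_min (by positivity) (by norm_num)
  have hρ1 : ρ ≤ δ / 12 := min_le_left _ _
  have hρ2 : ρ ≤ 1 / 36 := min_le_right _ _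
  set ε' : ℝ := min (ρ ^ 2 / 2) (η * ρ ^ 2 / (8 * (b + 1))) with hε'
  have hε'0 : 0 < ε' := lt_min (by positivity) (by positivity)
  have hε'1 : ε' ≤ ρ ^ 2 / 2 := min_le_left _ _
  have hε'2 : b * ε' ≤ η * ρ ^ 2 / 8 := by
    have : ε' ≤ η * ρ ^ 2 / (8 * (b + 1)) := min_le_right _ _
    rw [le_div_iff₀ (by positivity)] at this
    nlinarith
  obtain ⟨ε2, hε2, hrob⟩ := lagr_robust ε' hε'0
  obtain ⟨n0, hn0⟩ := exists_nat_ge (1 / ρ)
  refine ⟨min ε2 (δ / 512), η * ρ ^ 2 / 8, by positivity, by positivity, n0,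
    fun V _ _ hn L hL hlog => ?_⟩
  set n : ℝ := (Fintype.card V : ℝ) with hndef
  have hρn : 1 ≤ ρ * n := by
    have : 1 / ρ ≤ n := hn0.trans (by rw [hndef]; exact_mod_cast hn)
    rw [div_le_iff₀ hρ0] at this
    linarith
  have hnpos : 0 < n := by
    by_contra hc
    nlinarith
  have hL1 : nS L ≤ ε2 * n ^ 4 :=
    hL.trans (mul_le_mul_of_nonneg_right (min_le_left _ _) (by positivity))
  have hL2 : nS L ≤ δ / 512 * n ^ 4 :=
    hL.trans (mul_le_mul_of_nonneg_right (min_le_right _ _) (by positivity))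
  have r1 := hrob V α L hL1
  have hfull : ∀ e, 3 * ind (L e = univ) ≤ tau (L e).card := by
    intro e
    by_cases h : L e = univ
    · rw [ind_pos h, h, Finset.card_univ, tau, if_neg (by omega), if_neg (by omega),
        if_neg (by omega)]
      norm_num
    · rw [ind_neg h, mul_zero]
      exact tau_nonneg _
  have hN : (2 / 3 - ρ ^ 2 / 4) * n ^ 2 ≤ ∑ u, ∑ v, ind (L s(u, v) = univ) := by
    have a1 := r1 univ (by rw [Finset.card_univ]; linarith)
    rw [Finset.card_univ, ← hndef] at a1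
    have a2 : ∑ u, ∑ v, Real.log (L s(u, v)).card
        ≤ ∑ u, ∑ v, (b / 3 * tau (L s(u, v)).card + η * ind (L s(u, v) = univ)) := by
      refine Finset.sum_le_sum fun u _ => Finset.sum_le_sum fun v _ => ?_
      have := log_le_large hs (Finset.card_le_univ (L s(u, v))) hη1 hη2
      rwa [ind_congr (Finset.card_eq_iff_eq_univ (L s(u, v)))] at this
    simp only [Finset.sum_add_distrib, ← Finset.mul_sum] at a2
    have a3 := mul_le_mul_of_nonneg_left a1 (show 0 ≤ b / 3 by positivity)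
    have a4 := mul_le_mul_of_nonneg_right hε'2 (sq_nonneg n)
    have a5 : Real.log (Fintype.card α) = b + η := by rw [hb]; ring
    rw [a5] at hlog
    have a6 : 0 ≤ η * ρ ^ 2 * n ^ 2 := by positivity
    have : η * ((2 / 3 - ρ ^ 2 / 4) * n ^ 2) ≤ η * ∑ u, ∑ v, ind (L s(u, v) = univ) := by
      nlinarith
    exact le_of_mul_le_mul_left this hη0
  refine ⟨le_trans (mul_le_mul_of_nonneg_right (by nlinarith) (sq_nonneg n)) hN, ?_⟩
  have hlow := low_small (fun u v => ind (L s(u, v) = univ)) (fun u v => by rw [Sym2.eq_swap])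
    (fun u v => ind_nonneg _) ρ hρ0 (by linarith) hρn hN (by
      intro A hA
      have a1 := r1 A hA
      have a2 : 3 * ∑ u ∈ A, ∑ v ∈ A, ind (L s(u, v) = univ)
          ≤ ∑ u ∈ A, ∑ v ∈ A, tau (L s(u, v)).card := by
        simp only [Finset.mul_sum]
        exact Finset.sum_le_sum fun u _ => Finset.sum_le_sum fun v _ => hfull _
      have a3 := mul_le_mul_of_nonneg_right hε'1 (sq_nonneg n)
      linarith)
  have htri := tri_count (fun u v => L s(u, v) = univ)
    (fun v => (2 / 3 - ρ) * n ≤ ∑ u, ind (L s(v, u) = univ)) ρ hρ2 (fun v h => h)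
    (by simpa only [not_le] using hlow)
  set B : V → V → V → ℝ := fun x y z => ∑ a, ∑ b, ind (SDR L x y a b)
    + ∑ a, ∑ b, ind (SDR L x z a b) + ∑ a, ∑ b, ind (SDR L y z a b)
    + n * ∑ w, ind (SDR L x y z w) with hB
  have hB0 : ∀ x y z, 0 ≤ B x y z := by
    intro x y z
    have p : ∀ x y, 0 ≤ ∑ a, ∑ b, ind (SDR L x y a b) := fun x y =>
      Finset.sum_nonneg fun _ _ => Finset.sum_nonneg fun _ _ => ind_nonneg _
    have q : 0 ≤ ∑ w, ind (SDR L x y z w) := Finset.sum_nonneg fun _ _ => ind_nonneg _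
    simp only [hB]
    have := mul_nonneg hnpos.le q
    linarith [p x y, p x z, p y z]
  have hBs : ∑ x, ∑ y, ∑ z, B x y z = 4 * n * nS L := by
    simp only [hB, Finset.sum_add_distrib, Finset.sum_const, Finset.card_univ, nsmul_eq_mul,
      ← Finset.mul_sum, ← hndef, nS]
    ring
  obtain ⟨x, y, z, ⟨hx, ⟨hy, hxy⟩, hz, hxz, hyz⟩, hBle⟩ : ∃ x y z,
      ((2 / 3 - ρ) * n ≤ ∑ u, ind (L s(x, u) = univ) ∧
        ((2 / 3 - ρ) * n ≤ ∑ u, ind (L s(y, u) = univ) ∧ L s(x, y) = univ) ∧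
        ((2 / 3 - ρ) * n ≤ ∑ u, ind (L s(z, u) = univ) ∧ L s(x, z) = univ ∧ L s(y, z) = univ))
      ∧ B x y z ≤ δ / 4 * n ^ 2 := by
    by_contra hc
    simp only [not_exists, not_and_or, not_le] at hc
    have a1 := mul_le_mul_of_nonneg_right htri (show 0 ≤ δ / 4 * n ^ 2 by positivity)
    simp only [Finset.sum_mul] at a1
    have a2 := a1.trans (Finset.sum_le_sum fun x _ => Finset.sum_le_sum fun y _ =>
      Finset.sum_le_sum (g := fun z => B x y z) fun z _ => by
        by_cases h : δ / 4 * n ^ 2 < B x y z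
        · exact (mul_le_of_le_one_left (by positivity) (ind_le_one _)).trans h.le
        · rw [ind_neg, zero_mul]
          · exact hB0 x y z
          · have := (hc x y z).resolve_right h
            simpa only [not_and_or, not_le] using this)
    rw [hBs, ← hndef] at a2
    have a3 := mul_le_mul_of_nonneg_left hL2 (show 0 ≤ 4 * n by positivity)
    have a4 : 0 < δ * n ^ 5 := by positivity
    nlinarith
  obtain ⟨π, hπ⟩ := good_part (by omega) L ρ x y z hxy hxz hyz hx hy hz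
  refine ⟨π, hπ.trans ?_⟩
  have a1 := mul_le_mul_of_nonneg_right hρ1 (sq_nonneg n)
  simp only [hB] at hBle
  rw [← hndef]
  linarith

end Pool.Agent.P.MP_ea05a2_co
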