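import Pool.Agent.P.MP_ea05a2_co.Cont

/-!
Almost all colourings close to a target list system contain all allowed triangles between
large sets.
-/

namespace Pool.Agent.P.MP_ea05a2_co

open Finset

/-- number of ordered pairs whose colour is outside the target list -/
noncomputable def dfc {V C : Type*} [Fintype V] (χ : Sym2 V → C) (T : Sym2 V → Finset C) : ℝ :=
  ∑ u, ∑ v, ind (χ s(u, v) ∉ T s(u, v))

/-- logarithm of the number of colourings following the lists -/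
noncomputable def lZ {V C : Type*} [Fintype V] [DecidableEq V] (T : Sym2 V → Finset C) : ℝ :=
  ∑ e, Real.log (T e).card

/-- every allowed colour triple appears on a triangle between any three large sets -/
def QT {V C : Type*} (T : Sym2 V → Finset C) (m : ℝ) (χ : Sym2 V → C) : Prop :=
  ∀ A1 A2 A3 : Finset V, Disjoint A1 A2 → Disjoint A1 A3 → Disjoint A2 A3 →
    m ≤ A1.card → m ≤ A2.card → m ≤ A3.card → ∀ c1 c2 c3 : C,
    (∀ x ∈ A1, ∀ y ∈ A2, c1 ∈ T s(x, y)) → (∀ x ∈ A1, ∀ z ∈ A3, c2 ∈ T s(x, z)) →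
    (∀ y ∈ A2, ∀ z ∈ A3, c3 ∈ T s(y, z)) →
    ∃ x ∈ A1, ∃ y ∈ A2, ∃ z ∈ A3, χ s(x, y) = c1 ∧ χ s(x, z) = c2 ∧ χ s(y, z) = c3

lemma exp_neg_le {ε y : ℝ} (hε : 0 < ε) (h : 1 / ε ≤ y) : Real.exp (-y) ≤ ε := by
  have h1 := Real.add_one_le_exp y
  rw [Real.exp_neg, inv_eq_one_div, div_le_iff₀ (Real.exp_pos _)]
  rw [div_le_iff₀ hε] at h
  nlinarith

lemma card_exc_le_dfc {V C : Type*} [Fintype V] [DecidableEq V] [DecidableEq C]
    (χ : Sym2 V → C) (T : Sym2 V → Finset C) :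
    ((univ.filter fun e => χ e ∉ T e).card : ℝ) ≤ dfc χ T := by
  have := card_sym2_le (V := V) (fun e => χ e ∉ T e)
  refine le_trans (Nat.cast_le.2 this) (le_of_eq ?_)
  rw [card_filter_ind, dfc, Fintype.sum_prod_type]

lemma exists_enum {V : Type*} (A : Finset V) {m : ℕ} (h : m ≤ A.card) :
    ∃ x : Fin m → V, Function.Injective x ∧ ∀ i, x i ∈ A := by
  obtain ⟨x⟩ : Nonempty (Fin m ↪ A) :=
    Function.Embedding.nonempty_of_card_le (by simpa using h)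
  exact ⟨fun i => x i, Subtype.val_injective.comp x.injective, fun i => (x i).2⟩

lemma typ_class {V C : Type} [Fintype V] [DecidableEq V] [Fintype C] [DecidableEq C]
    (T : Sym2 V → Finset C) (t E : ℝ) (ht0 : 0 < t) (ht : t ≤ 1 / 2) (m : ℕ) (hm : 0 < m)
    (A1 A2 A3 : Finset V) (d12 : Disjoint A1 A2) (d13 : Disjoint A1 A3) (d23 : Disjoint A2 A3)
    (m1 : m ≤ A1.card) (m2 : m ≤ A2.card) (m3 : m ≤ A3.card) (c1 c2 c3 : C)
    (h1 : ∀ x ∈ A1, ∀ y ∈ A2, c1 ∈ T s(x, y)) (h2 : ∀ x ∈ A1, ∀ z ∈ A3, c2 ∈ T s(x, z))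
    (h3 : ∀ y ∈ A2, ∀ z ∈ A3, c3 ∈ T s(y, z)) (X : Finset (Sym2 V → C))
    (hX : ∀ χ ∈ X, dfc χ T ≤ E ∧
      ¬ ∃ x ∈ A1, ∃ y ∈ A2, ∃ z ∈ A3, χ s(x, y) = c1 ∧ χ s(x, z) = c2 ∧ χ s(y, z) = c3) :
    (X.card : ℝ) ≤ Real.exp (E * Real.log (1 / t)
      + t * Fintype.card C * (Fintype.card V : ℝ) ^ 2
      - (m : ℝ) ^ 2 / (2 * (Fintype.card C : ℝ) ^ 3) + lZ T) := by
  obtain ⟨x, hx, hxA⟩ := exists_enum A1 m1
  obtain ⟨y, hy, hyA⟩ := exists_enum A2 m2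
  obtain ⟨z, hz, hzA⟩ := exists_enum A3 m3
  have : NeZero m := ⟨hm.ne'⟩
  have hxy : ∀ i j, x i ≠ y j := fun i j h =>
    Finset.disjoint_left.1 d12 (hxA i) (h ▸ hyA j)
  have hxz : ∀ i j, x i ≠ z j := fun i j h =>
    Finset.disjoint_left.1 d13 (hxA i) (h ▸ hzA j)
  have hyz : ∀ i j, y i ≠ z j := fun i j h =>
    Finset.disjoint_left.1 d23 (hyA i) (h ▸ hzA j)
  have key := count_bound (ι := Fin m × Fin m) (κ := Fin 3) T univ t E 0 ht0 ht univ
    (fun i => ![s(x i.1, y i.2), s(x i.1, z (i.1 + i.2)), s(y i.2, z (i.1 + i.2))])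
    (fun _ => ![c1, c2, c3]) ?_ ?_ X (by simp) ?_ ?_
  · refine key.trans (Real.exp_le_exp.2 ?_)
    have a1 := card_sym2_univ_le (V := V)
    have a2 := mul_le_mul_of_nonneg_left a1
      (show 0 ≤ t * (Fintype.card C : ℝ) by positivity)
    simp only [Finset.card_univ (α := Fin m × Fin m), Fintype.card_prod, Fintype.card_fin,
      add_zero, Nat.cast_mul, lZ]
    rw [sq (m : ℝ)]
    linarith
  · rintro ⟨i, j⟩ - ⟨i', j'⟩ - k k' h
    fin_cases k <;> fin_cases k' <;>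
      simp [hxy, hxz, hyz, (hxy _ _).symm, (hxz _ _).symm, (hyz _ _).symm, hx.eq_iff, hy.eq_iff,
        hz.eq_iff] at h ⊢
    · exact h
    · obtain ⟨rfl, h⟩ := h
      exact ⟨rfl, add_left_cancel h⟩
    · obtain ⟨rfl, h⟩ := h
      exact ⟨add_right_cancel h, rfl⟩
  · rintro ⟨i, j⟩ - k
    fin_cases k
    · exact h1 _ (hxA _) _ (hyA _)
    · exact h2 _ (hxA _) _ (hzA _)
    · exact h3 _ (hyA _) _ (hzA _)
  · intro χ hχ
    exact (card_exc_le_dfc χ T).trans (hX χ hχ).1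
  · intro χ hχ
    rw [card_filter_ind]
    refine le_of_eq (Finset.sum_eq_zero fun i _ => ind_neg fun h => ?_)
    exact (hX χ hχ).2 ⟨_, hxA _, _, hyA _, _, hzA _, h 0, h 1, h 2⟩

lemma typ_bound (C : Type) [Fintype C] [DecidableEq C] [Nonempty C] (μ ε : ℝ) (hμ : 0 < μ)
    (hε : 0 < ε) : ∃ δ : ℝ, 0 < δ ∧ ∃ n0 : ℕ, ∀ (V : Type) [Fintype V] [DecidableEq V],
      n0 ≤ Fintype.card V → ∀ (T : Sym2 V → Finset C) (X : Finset (Sym2 V → C)),
        (∀ χ ∈ X, dfc χ T ≤ δ * (Fintype.card V : ℝ) ^ 2 ∧ ¬ QT T (μ * Fintype.card V) χ) →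
        (X.card : ℝ) ≤ ε * Real.exp (lZ T) := by
  classical
  set K : ℝ := (Fintype.card C : ℝ) with hK
  have hK1 : 1 ≤ K := by
    rw [hK]
    exact_mod_cast Fintype.card_pos
  set a : ℝ := μ ^ 2 / (8 * K ^ 3) with ha
  have ha0 : 0 < a := by positivity
  set t : ℝ := min (1 / 2) (a / K) with ht
  have ht0 : 0 < t := lt_min (by norm_num) (by positivity)
  have ht1 : t ≤ 1 / 2 := min_le_left _ _
  have ht2 : t * K ≤ a := by
    have : t ≤ a / K := min_le_right _ _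
    rwa [le_div_iff₀ (by positivity)] at this
  have hl := log_one_div_nonneg ht0 (by linarith)
  set l : ℝ := Real.log (1 / t) with hldef
  refine ⟨a / (l + 1), by positivity, ?_⟩
  have hδ : a / (l + 1) * l ≤ a := by
    rw [div_mul_eq_mul_div, div_le_iff₀ (by positivity)]
    nlinarith
  obtain ⟨n0, hn0⟩ := exists_nat_ge ((6 + 3 * K + 1 / ε) / (2 * a) + 1)
  refine ⟨n0, fun V _ _ hn T X hX => ?_⟩
  set n : ℝ := (Fintype.card V : ℝ) with hndef
  have hnn : (6 + 3 * K + 1 / ε) / (2 * a) + 1 ≤ n :=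
    hn0.trans (by rw [hndef]; exact_mod_cast hn)
  have hn1 : 1 ≤ n := by
    have : 0 ≤ (6 + 3 * K + 1 / ε) / (2 * a) := by positivity
    linarith
  have hn2 : 6 + 3 * K + 1 / ε ≤ n * (2 * a) := by
    have : (6 + 3 * K + 1 / ε) / (2 * a) ≤ n := by linarith
    rwa [div_le_iff₀ (by positivity)] at this
  set m : ℕ := ⌈μ * n⌉₊ with hm
  have hm0 : 0 < m := Nat.ceil_pos.2 (by positivity)
  have hmge : μ * n ≤ m := Nat.le_ceil _
  set P : Finset V × Finset V × Finset V × C × C × C → (Sym2 V → C) → Prop := fun i χ =>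
    (Disjoint i.1 i.2.1 ∧ Disjoint i.1 i.2.2.1 ∧ Disjoint i.2.1 i.2.2.1 ∧
      μ * n ≤ i.1.card ∧ μ * n ≤ i.2.1.card ∧ μ * n ≤ i.2.2.1.card ∧
      (∀ x ∈ i.1, ∀ y ∈ i.2.1, i.2.2.2.1 ∈ T s(x, y)) ∧
      (∀ x ∈ i.1, ∀ z ∈ i.2.2.1, i.2.2.2.2.1 ∈ T s(x, z)) ∧
      (∀ y ∈ i.2.1, ∀ z ∈ i.2.2.1, i.2.2.2.2.2 ∈ T s(y, z))) ∧
      ¬ ∃ x ∈ i.1, ∃ y ∈ i.2.1, ∃ z ∈ i.2.2.1, χ s(x, y) = i.2.2.2.1 ∧
        χ s(x, z) = i.2.2.2.2.1 ∧ χ s(y, z) = i.2.2.2.2.2 with hP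
  have hcover := card_le_sum_cover X (fun i => X.filter (P i)) (by
    intro χ hχ
    have := (hX χ hχ).2
    unfold QT at this
    simp only [not_forall] at this
    obtain ⟨A1, A2, A3, d1, d2, d3, m1, m2, m3, c1, c2, c3, h1, h2, h3, h4⟩ := this
    exact ⟨(A1, A2, A3, c1, c2, c3), Finset.mem_filter.2
      ⟨hχ, ⟨d1, d2, d3, m1, m2, m3, h1, h2, h3⟩, h4⟩⟩)
  have hone : ∀ i, ((X.filter (P i)).card : ℝ) ≤ Real.exp (-(2 * a * n ^ 2) + lZ T) := by
    intro i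
    rcases (X.filter (P i)).eq_empty_or_nonempty with h | ⟨χ0, hχ0⟩
    · rw [h]
      simp only [Finset.card_empty, Nat.cast_zero]
      exact (Real.exp_pos _).le
    obtain ⟨-, ⟨d1, d2, d3, m1, m2, m3, h1, h2, h3⟩, -⟩ := Finset.mem_filter.1 hχ0
    refine (typ_class T t (a / (l + 1) * n ^ 2) ht0 ht1 m hm0 _ _ _ d1 d2 d3
      (Nat.ceil_le.2 m1) (Nat.ceil_le.2 m2) (Nat.ceil_le.2 m3) _ _ _ h1 h2 h3 _
      (fun χ hχ => ⟨(hX χ (Finset.mem_filter.1 hχ).1).1, (Finset.mem_filter.1 hχ).2.2⟩)).trans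
      (Real.exp_le_exp.2 ?_)
    rw [← hldef, ← hK, ← hndef]
    have c1 := mul_le_mul_of_nonneg_right hδ (sq_nonneg n)
    have c2 := mul_le_mul_of_nonneg_right ht2 (sq_nonneg n)
    have c3 : 4 * a * n ^ 2 ≤ (m : ℝ) ^ 2 / (2 * K ^ 3) := by
      rw [le_div_iff₀ (by positivity), ha]
      have : (μ * n) ^ 2 ≤ (m : ℝ) ^ 2 := by gcongr
      refine le_trans (le_of_eq ?_) this
      field_simp
      ring
    nlinarith
  refine hcover.trans ((Finset.sum_le_sum fun i _ => hone i).trans ?_)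
  rw [Finset.sum_const, Finset.card_univ, nsmul_eq_mul]
  simp only [Fintype.card_prod, Fintype.card_finset]
  push_cast
  have d1 := nat_pow_le_exp 2 (Fintype.card V)
  have d2 : K ≤ Real.exp K := by linarith [Real.add_one_le_exp K]
  push_cast at d1
  rw [← hK]
  calc _ ≤ (Real.exp (2 * n) * (Real.exp (2 * n) * (Real.exp (2 * n) * (Real.exp K *
          (Real.exp K * Real.exp K))))) * Real.exp (-(2 * a * n ^ 2) + lZ T) := by
        gcongr
    _ = Real.exp (-(2 * a * n ^ 2 - 6 * n - 3 * K)) * Real.exp (lZ T) := by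
        simp only [← Real.exp_add]
        congr 1
        ring
    _ ≤ _ := by
        refine mul_le_mul_of_nonneg_right (exp_neg_le hε ?_) (Real.exp_pos _).le
        have e1 := mul_le_mul_of_nonneg_right hn2 (show 0 ≤ n by linarith)
        have e2 : 3 * K + 1 / ε ≤ (3 * K + 1 / ε) * n :=
          le_mul_of_one_le_right (by positivity) hn1
        nlinarith

end Pool.Agent.P.MP_ea05a2_co
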